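import Pool.Agent.KS6_83.NC.Exist

set_option autoImplicit false
set_option linter.unusedSectionVars false
set_option linter.unusedVariables false

/-!
# Exactly when the Waldschmidt constant is the square root
-/

namespace Pool.Agent.KS6_83.NC

open MvPolynomial Filter Topology Pool.Agent.H932R5 Pool.Agent.H519R3.AC

universe u

theorem hpq_of_le {p q : ℕ} (h : (p : ℝ) ≤ 3 * Real.sqrt ((p : ℝ) + q)) :
    9 * p ≤ p * q + 81 := by
  have hs := Real.sq_sqrt (show (0 : ℝ) ≤ (p : ℝ) + q by positivity)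
  have hs0 := Real.sqrt_nonneg ((p : ℝ) + q)
  have hp0 : (0 : ℝ) ≤ p := Nat.cast_nonneg p
  have h1 : (p : ℝ) ^ 2 ≤ 9 * ((p : ℝ) + q) := by
    have h2 := pow_le_pow_left₀ hp0 h 2
    rw [mul_pow, hs] at h2
    linarith
  have h2 : p ^ 2 ≤ 9 * (p + q) := by exact_mod_cast h1
  rcases le_or_gt p 9 with h3 | h3
  · nlinarith
  · obtain ⟨c, rfl⟩ : ∃ c, p = c + 9 := ⟨p - 9, by omega⟩
    have h4 : (c + 9) * c ≤ 9 * q := by nlinarith
    have h5 : 81 * c ≤ (c + 9) * (9 * q) := by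
      calc 81 * c = 9 * (9 * c) := by ring
        _ ≤ (c + 9) * ((c + 9) * c) := by
            apply Nat.mul_le_mul (by omega)
            exact Nat.mul_le_mul_right _ (by omega)
        _ ≤ _ := Nat.mul_le_mul_left _ h4
    nlinarith

section

variable {k : Type u} [Field k] {p q : ℕ} {P : Fin (p + q) → Fin 2 → k}

theorem alp_zero (hq : q = 0) {G : MvPolynomial (Fin 3) k} (hG : G.IsHomogeneous 3) (hG0 : G ≠ 0)
    (hGi : ∀ i : Fin (p + q), i.val < p →
        G ∈ (Ideal.span {X 1 - C (P i 0) * X 0, X 2 - C (P i 1) * X 0} :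
          Ideal (MvPolynomial (Fin 3) k)) ^ 1) (m : ℕ) : alp P m ≤ 3 * m := by
  apply alp_le
  refine ⟨G ^ m, hG.pow m, pow_ne_zero _ hG0, fun i => ?_⟩
  have h1 := hGi i (by have := i.2; omega)
  have h2 := Ideal.pow_mem_pow h1 m
  rw [← pow_mul, one_mul] at h2
  exact h2

/-- too many points on the cubic -/
theorem wald_lt (hr : 9 < p + q) (h : ¬ (p : ℝ) ≤ 3 * Real.sqrt ((p : ℝ) + q))
    (H1 : ∃ G : MvPolynomial (Fin 3) k, G.IsHomogeneous 3 ∧ G ≠ 0 ∧
      ∀ i : Fin (p + q), i.val < p →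
        G ∈ (Ideal.span {X 1 - C (P i 0) * X 0, X 2 - C (P i 1) * X 0} :
          Ideal (MvPolynomial (Fin 3) k)) ^ 1) {e : ℝ}
    (he : Tendsto (fun m : ℕ => (alp P m : ℝ) / m) atTop (𝓝 e)) :
    e < Real.sqrt ((p : ℝ) + q) := by
  rw [not_le] at h
  obtain ⟨G, hG, hG0, hGi⟩ := H1
  have hr' : (9 : ℝ) < (p : ℝ) + q := by exact_mod_cast hr
  have hs := Real.sq_sqrt (show (0 : ℝ) ≤ (p : ℝ) + q by positivity)
  have h3 : (3 : ℝ) < Real.sqrt ((p : ℝ) + q) := by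
    apply Real.lt_sqrt_of_sq_lt
    linarith
  have hp9 : (9 : ℝ) < p := by linarith
  have hp9' : 9 < p := by exact_mod_cast hp9
  have hp0 : (0 : ℝ) < p := by linarith
  have h9' : (0 : ℝ) < (p : ℝ) - 9 := by linarith
  rcases Nat.eq_zero_or_pos q with hq | hq
  · refine lt_of_le_of_lt ?_ h3
    refine le_of_tendsto he ?_
    filter_upwards [eventually_gt_atTop 0] with m hm
    have hmR : (0 : ℝ) < m := by exact_mod_cast hm
    rw [div_le_iff₀ hmR]
    exact_mod_cast alp_zero hq hG hG0 hGi m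
  · have h1 : 9 * (q : ℝ) ≤ p * (p - 9) := by nlinarith
    have hq0 : (0 : ℝ) < q := by exact_mod_cast hq
    obtain ⟨c, hc⟩ : ∃ c, c = 3 + Real.sqrt ((q : ℝ) * (p - 9) / p) := ⟨_, rfl⟩
    have he' : e ≤ c := by
      have h4 : Tendsto (fun m : ℕ => c + ((p : ℝ) + q + 6) / (m : ℝ)) atTop (𝓝 (c + 0)) :=
        tendsto_const_nhds.add (tendsto_const_div_atTop_nhds_zero_nat _)
      rw [add_zero] at h4
      refine le_of_tendsto_of_tendsto he h4 ?_
      filter_upwards [eventually_gt_atTop 0] with m hm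
      have hmR : (0 : ℝ) < m := by exact_mod_cast hm
      rw [div_le_iff₀ hmR, add_mul, div_mul_cancel₀ _ hmR.ne']
      have h4 := alp_upper hp9' hq h1 hG hG0 hGi m
      rw [← hc] at h4
      exact h4
    refine lt_of_le_of_lt he' ?_
    have hs2 := Real.sq_sqrt (show (0 : ℝ) ≤ (q : ℝ) * (p - 9) / p by positivity)
    have ht0 := Real.sqrt_nonneg ((q : ℝ) * (p - 9) / p)
    obtain ⟨s, hsd⟩ : ∃ s, s = Real.sqrt ((p : ℝ) + q) := ⟨_, rfl⟩
    obtain ⟨t, htd⟩ : ∃ t, t = Real.sqrt ((q : ℝ) * (p - 9) / p) := ⟨_, rfl⟩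
    rw [← hsd] at hs h h3 ⊢
    rw [← htd] at hc hs2 ht0
    rw [hc]
    rw [eq_div_iff hp0.ne'] at hs2
    have h5 : t ^ 2 * p < (s - 3) ^ 2 * p := by
      rw [hs2]
      have h6 : 0 < (p - 3 * s) ^ 2 := by
        apply pow_pos
        linarith
      have h7 : (s - 3) ^ 2 * p - q * (p - 9) = (p - 3 * s) ^ 2 := by
        have h8 : (q : ℝ) = s ^ 2 - p := by linarith
        rw [h8]
        ring
      linarith
    have h6 : t ^ 2 < (s - 3) ^ 2 := lt_of_mul_lt_mul_right h5 hp0.le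
    have h7 : t < s - 3 := lt_of_pow_lt_pow_left₀ 2 (by linarith) h6
    linarith

/-- the conclusion -/
theorem all_pq [Infinite k] (hr : 9 < p + q) (hP : Gen (Hs (Hs k)) p q P)
    (H1 : ∃ G : MvPolynomial (Fin 3) k, G.IsHomogeneous 3 ∧ G ≠ 0 ∧
      ∀ i : Fin (p + q), i.val < p →
        G ∈ (Ideal.span {X 1 - C (P i 0) * X 0, X 2 - C (P i 1) * X 0} :
          Ideal (MvPolynomial (Fin 3) k)) ^ 1) :
    ∃ e : ℝ, Tendsto (fun m : ℕ => (alp P m : ℝ) / m) atTop (𝓝 e) ∧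
      (e = Real.sqrt ((p : ℝ) + q) ↔ (p : ℝ) ≤ 3 * Real.sqrt ((p : ℝ) + q)) ∧
      (9 * p ≤ p * q + 81 → e = Ec p q) := by
  obtain ⟨e, he1, -, he3⟩ := exists_wald P (c := 0)
    (fun m _ => by rw [zero_mul]; exact Nat.cast_nonneg _)
  have h1 : 9 * p ≤ p * q + 81 → e = Ec p q := fun hpq =>
    tendsto_nhds_unique he1 (wald_lim hr hpq hP H1)
  refine ⟨e, he1, ⟨fun h => ?_, fun h => ?_⟩, h1⟩
  · by_contra hcon
    exact absurd h (wald_lt hr hcon H1 he1).ne
  · rw [h1 (hpq_of_le h)]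
    unfold Ec
    rw [if_pos h]

end

end Pool.Agent.KS6_83.NC
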