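import Mathlib

set_option autoImplicit false
set_option linter.unusedSectionVars false
set_option linter.unusedVariables false

/-!
# Extension of specialisations to roots of cubic polynomials
-/

namespace Pool.Agent.KS6_83.NC

universe u v w

theorem step_poly {A : Type u} {k : Type v} {K : Type w} [CommRing A] [Field k] [Field K]
    (f : A →+* k) (g : A →+* K) (hfg : ∀ a, f a = 0 → g a = 0) (G : Polynomial A)
    (hG : G.Monic) (h3 : G.natDegree = 3) {y : k} {y' : K} (hy : G.eval₂ f y = 0)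
    (hy' : G.eval₂ g y' = 0)
    (hLI : ∀ r0 r1 r2 : A, f r0 + f r1 * y + f r2 * y ^ 2 = 0 → f r0 = 0 ∧ f r1 = 0 ∧ f r2 = 0)
    (P : Polynomial A) (hP : P.eval₂ f y = 0) : P.eval₂ g y' = 0 := by
  have : Nontrivial A := f.domain_nontrivial
  have h1 := Polynomial.modByMonic_add_div P G
  obtain ⟨R, hR⟩ : ∃ R, R = P %ₘ G := ⟨_, rfl⟩
  rw [← hR] at h1
  have hdeg : R.natDegree < 3 := by
    rw [hR, ← h3]
    apply Polynomial.natDegree_modByMonic_lt _ hG
    intro h
    rw [h] at h3
    simp at h3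
  have hR3 : R = Polynomial.C (R.coeff 0) + Polynomial.C (R.coeff 1) * Polynomial.X +
      Polynomial.C (R.coeff 2) * Polynomial.X ^ 2 := by
    conv_lhs => rw [R.as_sum_range' 3 hdeg]
    simp only [Finset.sum_range_succ, Finset.sum_range_zero, zero_add]
    simp [← Polynomial.C_mul_X_pow_eq_monomial]
  have h2 : R.eval₂ f y = 0 := by
    have h4 := congrArg (Polynomial.eval₂ f y) h1
    rw [Polynomial.eval₂_add, Polynomial.eval₂_mul, hy, zero_mul, add_zero, hP] at h4
    exact h4
  rw [hR3] at h2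
  simp only [Polynomial.eval₂_add, Polynomial.eval₂_mul, Polynomial.eval₂_C, Polynomial.eval₂_X,
    Polynomial.eval₂_pow] at h2
  obtain ⟨a0, a1, a2⟩ := hLI _ _ _ h2
  have h5 : R.eval₂ g y' = 0 := by
    rw [hR3]
    simp only [Polynomial.eval₂_add, Polynomial.eval₂_mul, Polynomial.eval₂_C, Polynomial.eval₂_X,
      Polynomial.eval₂_pow]
    rw [hfg _ a0, hfg _ a1, hfg _ a2]
    ring
  have h4 := congrArg (Polynomial.eval₂ g y') h1
  rw [Polynomial.eval₂_add, Polynomial.eval₂_mul, hy', zero_mul, add_zero, h5] at h4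
  exact h4.symm

theorem eval₂_finSucc {A : Type u} {k : Type v} [CommRing A] [Field k] {n : ℕ} (f : A →+* k)
    (y : Fin (n + 1) → k) (P : MvPolynomial (Fin (n + 1)) A) :
    MvPolynomial.eval₂ f y P = Polynomial.eval₂
      (MvPolynomial.eval₂Hom f (fun i => y i.succ)) (y 0) (MvPolynomial.finSuccEquiv A n P) := by
  have h : MvPolynomial.eval₂Hom f y = (Polynomial.eval₂RingHom
      (MvPolynomial.eval₂Hom f (fun i => y i.succ)) (y 0)).comp
      ((MvPolynomial.finSuccEquiv A n : MvPolynomial (Fin (n + 1)) A ≃ₐ[A] _) :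
        MvPolynomial (Fin (n + 1)) A →+* Polynomial (MvPolynomial (Fin n) A)) := by
    apply MvPolynomial.ringHom_ext
    · intro a
      simp [MvPolynomial.finSuccEquiv_apply]
    · intro i
      refine Fin.cases ?_ (fun j => ?_) i
      · simp [MvPolynomial.finSuccEquiv_X_zero]
      · simp [MvPolynomial.finSuccEquiv_X_succ]
  exact congrArg (fun φ : MvPolynomial (Fin (n + 1)) A →+* k => φ P) h

theorem chain {k : Type v} {K : Type w} [Field k] [Field K] : ∀ (n : ℕ) {A : Type u} [CommRing A]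
    (f : A →+* k) (g : A →+* K) (_ : ∀ a, f a = 0 → g a = 0) (G : Fin n → Polynomial A)
    (_ : ∀ i, (G i).Monic) (_ : ∀ i, (G i).natDegree = 3) (y : Fin n → k) (y' : Fin n → K)
    (_ : ∀ i, (G i).eval₂ f (y i) = 0) (_ : ∀ i, (G i).eval₂ g (y' i) = 0)
    (E : Fin n → Subfield k) (_ : ∀ i a, f a ∈ E i) (_ : ∀ i j, j ≠ i → y j ∈ E i)
    (_ : ∀ i, ∀ r0 ∈ E i, ∀ r1 ∈ E i, ∀ r2 ∈ E i, r0 + r1 * y i + r2 * y i ^ 2 = 0 →
      r0 = 0 ∧ r1 = 0 ∧ r2 = 0)
    (P : MvPolynomial (Fin n) A), P.eval₂ f y = 0 → P.eval₂ g y' = 0 := by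
  intro n
  induction n with
  | zero =>
    intro A _ f g hfg G _ _ y y' _ _ E _ _ _ P hP
    obtain ⟨a, rfl⟩ := MvPolynomial.C_surjective (Fin 0) P
    rw [MvPolynomial.eval₂_C] at hP ⊢
    exact hfg a hP
  | succ n ih =>
    intro A _ f g hfg G hG h3 y y' hy hy' E hE1 hE2 hLI P hP
    have ih' : ∀ Q : MvPolynomial (Fin n) A,
        MvPolynomial.eval₂Hom f (fun i => y (Fin.succ i)) Q = 0 →
        MvPolynomial.eval₂Hom g (fun i => y' (Fin.succ i)) Q = 0 :=
      ih f g hfg (fun i => G i.succ) (fun i => hG _) (fun i => h3 _) (fun i => y i.succ)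
        (fun i => y' i.succ) (fun i => hy _) (fun i => hy' _) (fun i => E i.succ)
        (fun i a => hE1 _ a) (fun i j hij => hE2 _ _ (fun h => hij (Fin.succ_injective _ h)))
        (fun i => hLI _)
    rw [eval₂_finSucc] at hP ⊢
    have hmem : ∀ Q : MvPolynomial (Fin n) A,
        MvPolynomial.eval₂Hom f (fun i => y (Fin.succ i)) Q ∈ E 0 := by
      intro Q
      induction Q using MvPolynomial.induction_on with
      | C a => simpa using hE1 0 a
      | add p q hp hq => rw [map_add]; exact add_mem hp hq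
      | mul_X p i hp =>
        rw [map_mul]
        refine mul_mem hp ?_
        simpa using hE2 0 i.succ (Fin.succ_ne_zero i)
    refine step_poly (MvPolynomial.eval₂Hom f (fun i => y (Fin.succ i)))
      (MvPolynomial.eval₂Hom g (fun i => y' (Fin.succ i))) ih'
      ((G 0).map MvPolynomial.C) ((hG 0).map _) ?_ (y := y 0) ?_ ?_ ?_ _ hP
    · have : Nontrivial A := f.domain_nontrivial
      rw [(hG 0).natDegree_map, h3]
    · rw [Polynomial.eval₂_map]
      have e : (MvPolynomial.eval₂Hom f (fun i => y (Fin.succ i))).comp MvPolynomial.C = f := by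
        ext a; simp
      rw [e]; exact hy 0
    · rw [Polynomial.eval₂_map]
      have e : (MvPolynomial.eval₂Hom g (fun i => y' (Fin.succ i))).comp MvPolynomial.C = g := by
        ext a; simp
      rw [e]; exact hy' 0
    · intro r0 r1 r2 h
      exact hLI 0 _ (hmem r0) _ (hmem r1) _ (hmem r2) h

end Pool.Agent.KS6_83.NC
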