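import Pool.Agent.KS6_83.NC.SpecC

set_option autoImplicit false
set_option linter.unusedSectionVars false
set_option linter.unusedVariables false

/-!
# Sets of points, generic among those with `p` points on a cubic
-/

namespace Pool.Agent.KS6_83.NC

open Polynomial

universe u v w

/-- the exponents of the monomials of degree three -/
noncomputable def mon3 (i j : ℕ) : Fin 3 →₀ ℕ :=
  Finsupp.single 0 (3 - i - j) + Finsupp.single 1 i + Finsupp.single 2 j

theorem mon3_of_support {k : Type u} [Field k] {G : MvPolynomial (Fin 3) k}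
    (hG : G.IsHomogeneous 3) {s : Fin 3 →₀ ℕ} (hs : s ∈ G.support) :
    s 1 + s 2 ≤ 3 ∧ mon3 (s 1) (s 2) = s := by
  have hdeg : s 0 + s 1 + s 2 = 3 := by
    have := hG (MvPolynomial.mem_support_iff.1 hs)
    rw [Finsupp.weight_apply, Finsupp.sum_fintype _ _ (by simp), Fin.sum_univ_three] at this
    simpa using this
  refine ⟨by omega, ?_⟩
  ext i
  fin_cases i
  · simp [mon3]; omega
  · simp [mon3]
  · simp [mon3]

theorem exists_coeff {k : Type u} [Field k] {G : MvPolynomial (Fin 3) k}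
    (hG : G.IsHomogeneous 3) (h0 : G ≠ 0) :
    ∃ i j : ℕ, i + j ≤ 3 ∧ MvPolynomial.coeff (mon3 i j) G ≠ 0 := by
  obtain ⟨s, hs⟩ := MvPolynomial.support_nonempty.2 h0
  obtain ⟨h1, h2⟩ := mon3_of_support hG hs
  refine ⟨s 1, s 2, h1, ?_⟩
  rw [h2]
  exact MvPolynomial.mem_support_iff.1 hs

/-- the value of a cubic form -/
theorem cubic_eval {k : Type u} [Field k] {G : MvPolynomial (Fin 3) k} (hG : G.IsHomogeneous 3)
    (x y : k) : MvPolynomial.eval ![1, x, y] G =
      MvPolynomial.coeff (mon3 0 3) G * y ^ 3 +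
      ((MvPolynomial.coeff (mon3 0 2) G + MvPolynomial.coeff (mon3 1 2) G * x) * y ^ 2 +
      (MvPolynomial.coeff (mon3 0 1) G + MvPolynomial.coeff (mon3 1 1) G * x +
        MvPolynomial.coeff (mon3 2 1) G * x ^ 2) * y +
      (MvPolynomial.coeff (mon3 0 0) G + MvPolynomial.coeff (mon3 1 0) G * x +
        MvPolynomial.coeff (mon3 2 0) G * x ^ 2 + MvPolynomial.coeff (mon3 3 0) G * x ^ 3)) := by
  classical
  obtain ⟨B, hB⟩ : ∃ B : Finset (ℕ × ℕ), B = {(0, 0), (0, 1), (0, 2), (0, 3), (1, 0), (1, 1),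
    (1, 2), (2, 0), (2, 1), (3, 0)} := ⟨_, rfl⟩
  have hinj : Function.Injective (fun ij : ℕ × ℕ => mon3 ij.1 ij.2) := by
    intro a b hab
    have h1 := DFunLike.congr_fun hab 1
    have h2 := DFunLike.congr_fun hab 2
    simp [mon3] at h1 h2
    exact Prod.ext h1 h2
  have hsub : G.support ⊆ B.image (fun ij : ℕ × ℕ => mon3 ij.1 ij.2) := by
    intro s hs
    obtain ⟨h3, h4⟩ := mon3_of_support hG hs
    rw [Finset.mem_image]
    refine ⟨(s 1, s 2), ?_, h4⟩
    rw [hB]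
    clear h4
    have h1 : s 1 ≤ 3 := by omega
    have h2 : s 2 ≤ 3 := by omega
    generalize s 1 = m at *
    generalize s 2 = n at *
    interval_cases m <;> interval_cases n <;> simp_all
  rw [MvPolynomial.eval_eq', Finset.sum_subset hsub, Finset.sum_image hinj.injOn, hB]
  · have e1 : ∀ i j : ℕ, mon3 i j 1 = i := by intro i j; simp [mon3]
    have e2 : ∀ i j : ℕ, mon3 i j 2 = j := by intro i j; simp [mon3]
    have f0 : (![1, x, y] : Fin 3 → k) 0 = 1 := rfl
    have f1 : (![1, x, y] : Fin 3 → k) 1 = x := rfl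
    have f2 : (![1, x, y] : Fin 3 → k) 2 = y := rfl
    simp only [Fin.prod_univ_three, e1, e2, f0, f1, f2, one_pow, one_mul]
    generalize hc : (fun i j : ℕ => MvPolynomial.coeff (mon3 i j) G) = c
    have hc' : ∀ i j : ℕ, MvPolynomial.coeff (mon3 i j) G = c i j := by
      intro i j; rw [← hc]
    simp only [hc']
    simp
    ring
  · intro s _ hs
    rw [MvPolynomial.notMem_support_iff.1 hs, zero_mul]

section

variable {F : Type v} {k : Type u} [Field F] [Field k] [Algebra F k]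

/-- a polynomial of degree at most three -/
noncomputable def cb (c0 c1 c2 c3 : k) : k[X] := C c0 + C c1 * X + C c2 * X ^ 2 + C c3 * X ^ 3

theorem cb_eval (c0 c1 c2 c3 x : k) :
    (cb c0 c1 c2 c3).eval x = c0 + c1 * x + c2 * x ^ 2 + c3 * x ^ 3 := by
  simp [cb]

theorem cb_coeff (L : Subfield k) {c0 c1 c2 c3 : k} (h0 : c0 ∈ L) (h1 : c1 ∈ L) (h2 : c2 ∈ L)
    (h3 : c3 ∈ L) (n : ℕ) : (cb c0 c1 c2 c3).coeff n ∈ L := by
  simp only [cb, coeff_add, coeff_C_mul, coeff_X_pow, coeff_X, coeff_C]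
  have h : ∀ (P : Prop) [Decidable P], (if P then (1 : k) else 0) ∈ L := by
    intro P _
    split_ifs
    · exact one_mem _
    · exact zero_mem _
  have h' : (if n = 0 then c0 else 0) ∈ L := by
    split_ifs
    · exact h0
    · exact zero_mem _
  exact add_mem (add_mem (add_mem h' (mul_mem h1 (h _))) (mul_mem h2 (h _))) (mul_mem h3 (h _))

theorem cb_zero {c0 c1 c2 c3 : k} (h : cb c0 c1 c2 c3 = 0) :
    c0 = 0 ∧ c1 = 0 ∧ c2 = 0 ∧ c3 = 0 := by
  have e0 := congrArg (fun P => coeff P 0) h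
  have e1 := congrArg (fun P => coeff P 1) h
  have e2 := congrArg (fun P => coeff P 2) h
  have e3 := congrArg (fun P => coeff P 3) h
  simp only [cb, coeff_add, coeff_C_mul, coeff_X_pow, coeff_X, coeff_C, coeff_zero] at e0 e1 e2 e3
  norm_num at e0 e1 e2 e3
  exact ⟨e0, e1, e2, e3⟩

/-- nine generic points do not lie on a cubic without the last cube -/
theorem y3_aux {c : Fin 9 → k} {l0 : Fin 9} (hcl0 : c l0 = 1) {T : Set k}
    (hcT : ∀ (s : Set k) l, c l ∈ aclF F (T ∪ s)) {x y : k}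
    (heq : (c 0 + c 1 * x) * y ^ 2 + (c 2 + c 3 * x + c 4 * x ^ 2) * y +
      (c 5 + c 6 * x + c 7 * x ^ 2 + c 8 * x ^ 3) = 0) :
    ∃ w : k, x ∈ acl F (T ∪ {w}) ∧ y ∈ acl F (T ∪ {w}) := by
  by_cases hp0 : cb (c 5 + c 6 * x + c 7 * x ^ 2 + c 8 * x ^ 3) (c 2 + c 3 * x + c 4 * x ^ 2)
      (c 0 + c 1 * x) 0 = 0
  · obtain ⟨q2, q1, q0, -⟩ := cb_zero hp0
    have z : (0 : k) ∈ aclF F (T ∪ {y}) := zero_mem _
    refine ⟨y, ?_, subset_acl _ (Or.inr rfl)⟩
    by_contra hx
    have r0 : cb (c 0) (c 1) 0 0 = 0 := by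
      by_contra h
      refine hx (root_mem (cb_coeff _ (hcT _ 0) (hcT _ 1) z z) ?_ h)
      rw [cb_eval]
      linear_combination q0
    have r1 : cb (c 2) (c 3) (c 4) 0 = 0 := by
      by_contra h
      refine hx (root_mem (cb_coeff _ (hcT _ 2) (hcT _ 3) (hcT _ 4) z) ?_ h)
      rw [cb_eval]
      linear_combination q1
    have r2 : cb (c 5) (c 6) (c 7) (c 8) = 0 := by
      by_contra h
      refine hx (root_mem (cb_coeff _ (hcT _ 5) (hcT _ 6) (hcT _ 7) (hcT _ 8)) ?_ h)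
      rw [cb_eval]
      linear_combination q2
    obtain ⟨c0, c1, -, -⟩ := cb_zero r0
    obtain ⟨c2, c3, c4, -⟩ := cb_zero r1
    obtain ⟨c5, c6, c7, c8⟩ := cb_zero r2
    have : c l0 = 0 := by
      clear hcl0
      fin_cases l0
      · exact c0
      · exact c1
      · exact c2
      · exact c3
      · exact c4
      · exact c5
      · exact c6
      · exact c7
      · exact c8
    rw [hcl0] at this
    exact one_ne_zero this
  · refine ⟨x, subset_acl _ (Or.inr rfl), ?_⟩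
    have hx : x ∈ aclF F (T ∪ {x}) := subset_acl _ (Or.inr rfl)
    refine root_mem (cb_coeff _ ?_ ?_ ?_ (zero_mem _)) ?_ hp0
    · exact add_mem (add_mem (add_mem (hcT _ _) (mul_mem (hcT _ _) hx))
        (mul_mem (hcT _ _) (pow_mem hx 2))) (mul_mem (hcT _ _) (pow_mem hx 3))
    · exact add_mem (add_mem (hcT _ _) (mul_mem (hcT _ _) hx)) (mul_mem (hcT _ _) (pow_mem hx 2))
    · exact add_mem (hcT _ _) (mul_mem (hcT _ _) hx)
    · rw [cb_eval]
      linear_combination heq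

/-- nine generic points do not lie on a cubic without the last cube -/
theorem y3_ne {G : MvPolynomial (Fin 3) k} (hG : G.IsHomogeneous 3) (h0 : G ≠ 0)
    {v : Fin 9 × Fin 2 → k} (hv : AlgebraicIndependent F v)
    (hQ : ∀ i, MvPolynomial.eval ![1, v (i, 0), v (i, 1)] G = 0) :
    MvPolynomial.coeff (mon3 0 3) G ≠ 0 := by
  classical
  intro hc
  obtain ⟨b, hb⟩ : ∃ b : Fin 9 → k, b = ![MvPolynomial.coeff (mon3 0 2) G,
    MvPolynomial.coeff (mon3 1 2) G, MvPolynomial.coeff (mon3 0 1) G,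
    MvPolynomial.coeff (mon3 1 1) G, MvPolynomial.coeff (mon3 2 1) G,
    MvPolynomial.coeff (mon3 0 0) G, MvPolynomial.coeff (mon3 1 0) G,
    MvPolynomial.coeff (mon3 2 0) G, MvPolynomial.coeff (mon3 3 0) G] := ⟨_, rfl⟩
  have b0 : MvPolynomial.coeff (mon3 0 2) G = b 0 := by rw [hb]; rfl
  have b1 : MvPolynomial.coeff (mon3 1 2) G = b 1 := by rw [hb]; rfl
  have b2 : MvPolynomial.coeff (mon3 0 1) G = b 2 := by rw [hb]; rfl
  have b3 : MvPolynomial.coeff (mon3 1 1) G = b 3 := by rw [hb]; rfl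
  have b4 : MvPolynomial.coeff (mon3 2 1) G = b 4 := by rw [hb]; rfl
  have b5 : MvPolynomial.coeff (mon3 0 0) G = b 5 := by rw [hb]; rfl
  have b6 : MvPolynomial.coeff (mon3 1 0) G = b 6 := by rw [hb]; rfl
  have b7 : MvPolynomial.coeff (mon3 2 0) G = b 7 := by rw [hb]; rfl
  have b8 : MvPolynomial.coeff (mon3 3 0) G = b 8 := by rw [hb]; rfl
  have hb0 : ∃ l0, b l0 ≠ 0 := by
    by_contra hcon
    push Not at hcon
    obtain ⟨i, j, hij, hne⟩ := exists_coeff hG h0
    apply hne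
    have h1 : i ≤ 3 := by omega
    have h2 : j ≤ 3 := by omega
    interval_cases i <;> interval_cases j <;> first
      | (exfalso; omega)
      | (rw [hc])
      | (rw [b0]; exact hcon _)
      | (rw [b1]; exact hcon _)
      | (rw [b2]; exact hcon _)
      | (rw [b3]; exact hcon _)
      | (rw [b4]; exact hcon _)
      | (rw [b5]; exact hcon _)
      | (rw [b6]; exact hcon _)
      | (rw [b7]; exact hcon _)
      | (rw [b8]; exact hcon _)
  obtain ⟨l0, hl0⟩ := hb0
  obtain ⟨c, hcd⟩ : ∃ c : Fin 9 → k, c = fun l => b l / b l0 := ⟨_, rfl⟩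
  have hcl0 : c l0 = 1 := by rw [hcd]; exact div_self hl0
  have heq : ∀ i, (c 0 + c 1 * v (i, 0)) * v (i, 1) ^ 2 +
      (c 2 + c 3 * v (i, 0) + c 4 * v (i, 0) ^ 2) * v (i, 1) +
      (c 5 + c 6 * v (i, 0) + c 7 * v (i, 0) ^ 2 + c 8 * v (i, 0) ^ 3) = 0 := by
    intro i
    have h1 := hQ i
    rw [cubic_eval hG, hc, b0, b1, b2, b3, b4, b5, b6, b7, b8, zero_mul, zero_add] at h1
    rw [hcd]
    simp only
    field_simp
    linear_combination h1
  obtain ⟨T, hT⟩ : ∃ T : Finset k, T = (Finset.univ.erase l0).image c := ⟨_, rfl⟩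
  have hTc : T.card ≤ 8 := by
    rw [hT]
    refine Finset.card_image_le.trans ?_
    rw [Finset.card_erase_of_mem (Finset.mem_univ _), Finset.card_univ, Fintype.card_fin]
  have hcT : ∀ (s : Set k) l, c l ∈ aclF F ((T : Set k) ∪ s) := by
    intro s l
    by_cases h : l = l0
    · rw [h, hcl0]; exact one_mem _
    · refine subset_acl _ (Or.inl ?_)
      rw [hT]
      exact Finset.mem_coe.2 (Finset.mem_image_of_mem _ (Finset.mem_erase.2
        ⟨h, Finset.mem_univ _⟩))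
  choose w hw1 hw2 using fun i => y3_aux hcl0 hcT (heq i)
  obtain ⟨T', hT'⟩ : ∃ T' : Finset k, T' = T ∪ Finset.univ.image w := ⟨_, rfl⟩
  have hT'c : T'.card ≤ 17 := by
    rw [hT']
    refine (Finset.card_union_le _ _).trans ?_
    have h1 : (Finset.univ.image w).card ≤ 9 := by
      refine Finset.card_image_le.trans ?_
      simp
    omega
  have hsubT : ∀ i, ((T : Set k) ∪ {w i}) ⊆ (T' : Set k) := by
    intro i z hz
    rw [hT']
    rcases hz with hz | hz
    · exact Finset.mem_coe.2 (Finset.mem_union_left _ hz)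
    · rw [Set.mem_singleton_iff] at hz
      rw [hz]
      exact Finset.mem_coe.2 (Finset.mem_union_right _ (Finset.mem_image_of_mem _
        (Finset.mem_univ _)))
  have h5 := card_le_of_subset hv (T := (T' : Set k)) (m := 17) (by
    rw [Set.encard_coe_eq_coe_finsetCard]
    exact_mod_cast hT'c) (by
    rintro ⟨i, j⟩
    fin_cases j
    · exact acl_mono (hsubT i) (hw1 i)
    · exact acl_mono (hsubT i) (hw2 i))
  simp at h5

/-- **Points on a cubic.** The affine coordinates of points generic among those with the first `p`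
points on a cubic. -/
theorem conv {p q : ℕ} (hp : 9 ≤ p) {P : Fin (p + q) → Fin 2 → k}
    (H2 : AlgebraicIndependent F (fun z : {z : Fin (p + q) × Fin 2 //
      z.2 = 0 ∨ z.1.val < 9 ∨ p ≤ z.1.val} => P z.1.1 z.1.2))
    {G : MvPolynomial (Fin 3) k} (hG : G.IsHomogeneous 3) (h0 : G ≠ 0)
    (hQ : ∀ i : Fin (p + q), i.val < p → MvPolynomial.eval ![1, P i 0, P i 1] G = 0) :
    ∃ a : Fin 9 → k, AlgebraicIndependent F (Sum.elim a (Sum.elim
        (fun i : Fin p => P (Fin.castAdd q i) 0)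
        (fun jc : Fin q × Fin 2 => P (Fin.natAdd p jc.1) jc.2))) ∧
      ∀ i : Fin p, (cubY a (P (Fin.castAdd q i) 0)).eval (P (Fin.castAdd q i) 1) = 0 := by
  classical
  have hc : MvPolynomial.coeff (mon3 0 3) G ≠ 0 := by
    have h1 := H2.comp (fun z : Fin 9 × Fin 2 =>
      (⟨(Fin.castAdd q (Fin.castLE hp z.1), z.2), Or.inr (Or.inl z.1.2)⟩ :
        {z : Fin (p + q) × Fin 2 // z.2 = 0 ∨ z.1.val < 9 ∨ p ≤ z.1.val})) (by
      rintro ⟨a, b⟩ ⟨c, d⟩ h
      simp only [Subtype.mk.injEq, Prod.mk.injEq] at h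
      obtain ⟨h1, h2⟩ := h
      have h3 := Fin.castLE_injective hp (Fin.castAdd_injective _ _ h1)
      rw [h2, h3])
    refine y3_ne (F := F) hG h0 h1 ?_
    intro i
    exact hQ _ (lt_of_lt_of_le i.2 hp)
  obtain ⟨g, hg⟩ : ∃ g : ℕ → ℕ → k, g = fun i j => MvPolynomial.coeff (mon3 i j) G := ⟨_, rfl⟩
  have hg' : ∀ i j, MvPolynomial.coeff (mon3 i j) G = g i j := fun i j => by rw [hg]
  rw [hg'] at hc
  obtain ⟨a, ha⟩ : ∃ a : Fin 9 → k, a = ![g 0 2 / g 0 3, g 1 2 / g 0 3, g 0 1 / g 0 3,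
    g 1 1 / g 0 3, g 2 1 / g 0 3, g 0 0 / g 0 3, g 1 0 / g 0 3, g 2 0 / g 0 3,
    g 3 0 / g 0 3] := ⟨_, rfl⟩
  have a0 : a 0 = g 0 2 / g 0 3 := by rw [ha]; rfl
  have a1 : a 1 = g 1 2 / g 0 3 := by rw [ha]; rfl
  have a2 : a 2 = g 0 1 / g 0 3 := by rw [ha]; rfl
  have a3 : a 3 = g 1 1 / g 0 3 := by rw [ha]; rfl
  have a4 : a 4 = g 2 1 / g 0 3 := by rw [ha]; rfl
  have a5 : a 5 = g 0 0 / g 0 3 := by rw [ha]; rfl
  have a6 : a 6 = g 1 0 / g 0 3 := by rw [ha]; rfl
  have a7 : a 7 = g 2 0 / g 0 3 := by rw [ha]; rfl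
  have a8 : a 8 = g 3 0 / g 0 3 := by rw [ha]; rfl
  have hroot : ∀ i : Fin p, (cubY a (P (Fin.castAdd q i) 0)).eval (P (Fin.castAdd q i) 1) = 0 := by
    intro i
    have h1 := hQ (Fin.castAdd q i) i.2
    rw [cubic_eval hG] at h1
    simp only [hg'] at h1
    rw [cubY_eval, a0, a1, a2, a3, a4, a5, a6, a7, a8]
    field_simp
    linear_combination h1
  refine ⟨a, ?_, hroot⟩
  refine exchange H2 ?_ ?_
  · refine Fintype.card_le_of_injective (fun s : Fin 9 ⊕ (Fin p ⊕ (Fin q × Fin 2)) =>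
      (match s with
        | Sum.inl l => ⟨(Fin.castAdd q (Fin.castLE hp l), 1), Or.inr (Or.inl l.2)⟩
        | Sum.inr (Sum.inl i) => ⟨(Fin.castAdd q i, 0), Or.inl rfl⟩
        | Sum.inr (Sum.inr jc) => ⟨(Fin.natAdd p jc.1, jc.2), Or.inr (Or.inr (by simp))⟩ :
        {z : Fin (p + q) × Fin 2 // z.2 = 0 ∨ z.1.val < 9 ∨ p ≤ z.1.val})) ?_
    have hne : ∀ (i : Fin p) (j : Fin q), Fin.castAdd q i ≠ Fin.natAdd p j := by
      intro i j h
      have := congrArg Fin.val h
      simp at this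
      omega
    rintro (l | i | ⟨j, c⟩) (l' | i' | ⟨j', c'⟩) h
    · simp only [Subtype.mk.injEq, Prod.mk.injEq] at h
      rw [Fin.castLE_injective hp (Fin.castAdd_injective _ _ h.1)]
    · simp at h
    · simp only [Subtype.mk.injEq, Prod.mk.injEq] at h
      exact absurd h.1 (hne _ _)
    · simp at h
    · simp only [Subtype.mk.injEq, Prod.mk.injEq] at h
      rw [Fin.castAdd_injective _ _ h.1]
    · simp only [Subtype.mk.injEq, Prod.mk.injEq] at h
      exact absurd h.1 (hne _ _)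
    · simp only [Subtype.mk.injEq, Prod.mk.injEq] at h
      exact absurd h.1.symm (hne _ _)
    · simp only [Subtype.mk.injEq, Prod.mk.injEq] at h
      exact absurd h.1.symm (hne _ _)
    · simp only [Subtype.mk.injEq, Prod.mk.injEq] at h
      rw [Fin.natAdd_injective _ _ h.1, h.2]
  · obtain ⟨w, hw⟩ : ∃ w, w = Sum.elim a (Sum.elim
        (fun i : Fin p => P (Fin.castAdd q i) 0)
        (fun jc : Fin q × Fin 2 => P (Fin.natAdd p jc.1) jc.2)) := ⟨_, rfl⟩
    rw [← hw]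
    have wa : ∀ l, a l ∈ aclF F (Set.range w) := fun l =>
      subset_acl _ ⟨Sum.inl l, by rw [hw]; rfl⟩
    have wx : ∀ i, P (Fin.castAdd q i) 0 ∈ aclF F (Set.range w) := fun i =>
      subset_acl _ ⟨Sum.inr (Sum.inl i), by rw [hw]; rfl⟩
    rintro ⟨⟨i, c⟩, hi⟩
    simp only
    refine Fin.addCases (motive := fun i => P i c ∈ acl F (Set.range w)) ?_ ?_ i
    · intro i
      fin_cases c
      · exact wx i
      · exact root_mem (cubY_coeff_mem _ wa (wx i)) (hroot i) (cubY_monic _ _).ne_zero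
    · intro j
      exact subset_acl _ ⟨Sum.inr (Sum.inr (j, c)), by rw [hw]; rfl⟩

end

end Pool.Agent.KS6_83.NC
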