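import Pool.Agent.KS6_83.NC.Special

set_option autoImplicit false
set_option linter.unusedSectionVars false
set_option linter.unusedVariables false

/-!
# Inequalities from the chords
-/

namespace Pool.Agent.KS6_83.NC

/-- the conclusion of the criterion -/
def CritC {p q : ℕ} (β : ℝ) (kk d : ℕ) (M : Fin p → ℕ) (m : Fin q → ℕ) : Prop :=
  ∃ (r : ℕ) (h1 h2 : ℤ), ((∑ j, (m j - r) : ℕ) : ℤ) ≤ h2 - h1 ∧
    ChordC β kk d M r h1 ∧ ChordC β kk d M r h2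

theorem sum_tsub_ge {n : ℕ} (m : Fin n → ℕ) (r : ℕ) :
    (∑ i, (m i : ℝ)) - n * r ≤ ((∑ i, (m i - r) : ℕ) : ℝ) := by
  push_cast
  have h : ∀ i ∈ (Finset.univ : Finset (Fin n)), (m i : ℝ) - r ≤ ((m i - r : ℕ) : ℝ) := by
    intro i _
    rcases le_total r (m i) with h | h
    · rw [Nat.cast_sub h]
    · rw [Nat.sub_eq_zero_of_le h]
      have : (m i : ℝ) ≤ r := by exact_mod_cast h
      push_cast
      linarith
  have h1 := Finset.sum_le_sum h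
  rw [Finset.sum_sub_distrib, Finset.sum_const, Finset.card_univ, Fintype.card_fin,
    nsmul_eq_mul] at h1
  exact h1

/-- the consequences of a chord -/
theorem chord_facts {p : ℕ} {β κ : ℝ} {kk d : ℕ} {M : Fin p → ℕ} {r : ℕ} {h : ℤ}
    (hκ : κ = 6 + kk - 3 * β) (H : ChordC β kk d M r h) :
    ∃ j1 j2 : ℝ, 0 ≤ j1 ∧ j1 + r ≤ j2 ∧ -(1 + β) * d - (κ - 9) * j1 ≤ h ∧
      (h : ℝ) ≤ (2 - β) * d - κ * j1 - (∑ i, (M i : ℝ)) + p * j1 ∧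
      (h : ℝ) ≤ (2 - β) * d - κ * j2 - (∑ i, (M i : ℝ)) + p * j2 ∧
      (h : ℝ) ≤ (2 - β) * d - κ * j2 := by
  obtain ⟨j1, j2, h0, h1, h2, h3⟩ := H
  have e1 := sum_tsub_ge M j1
  have e2 := sum_tsub_ge M j2
  have e3 : (0 : ℝ) ≤ ((∑ i, (M i - j2) : ℕ) : ℝ) := Nat.cast_nonneg _
  refine ⟨j1, j2, Nat.cast_nonneg _, by exact_mod_cast h0, ?_, ?_, ?_, ?_⟩
  · rw [hκ]; linarith
  · rw [hκ]; linarith
  · rw [hκ]; linarith
  · rw [hκ]; linarith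

/-- the lower bound for the first column -/
theorem lower_bd {p : ℕ} {β κ : ℝ} {kk d : ℕ} {M : Fin p → ℕ} {r : ℕ} {h : ℤ}
    (hκ : κ = 6 + kk - 3 * β) (hκ9 : 9 ≤ κ) (H : ChordC β kk d M r h) :
    -(1 + β) * d - (κ - 9) * ((3 * d - κ * r) / 9) ≤ (h : ℝ) := by
  obtain ⟨j1, j2, h0, h1, h2, -, -, h5⟩ := chord_facts hκ H
  have h6 : κ * (j1 + r) ≤ κ * j2 := mul_le_mul_of_nonneg_left h1 (by linarith)
  have h7 : j1 ≤ (3 * d - κ * r) / 9 := by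
    rw [le_div_iff₀ (by norm_num)]
    linarith
  have h8 := mul_le_mul_of_nonneg_left h7 (show (0 : ℝ) ≤ κ - 9 by linarith)
  linarith

/-- few points on the cubic -/
theorem numA {p q : ℕ} {β κ : ℝ} {kk d : ℕ} {M : Fin p → ℕ} {m : Fin q → ℕ}
    (hκ : κ = 6 + kk - 3 * β) (hκ9 : 9 ≤ κ) (hp : (p : ℝ) ≤ κ)
    (hκr : 9 * ((p : ℝ) + q) ≤ κ ^ 2) (H : CritC β kk d M m) :
    ∑ i, (M i : ℝ) + ∑ j, (m j : ℝ) ≤ κ / 3 * d := by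
  obtain ⟨r, h1, h2, h3, H1, H2⟩ := H
  have e1 := lower_bd hκ hκ9 H1
  obtain ⟨j1, j2, a0, a1, a2, a3, a4, a5⟩ := chord_facts hκ H2
  have e3 := sum_tsub_ge m r
  have h3' : ((∑ i, (m i - r) : ℕ) : ℝ) ≤ (h2 : ℝ) - h1 := by exact_mod_cast h3
  have hr0 : (0 : ℝ) ≤ r := Nat.cast_nonneg r
  have e4 : (κ - p) * r ≤ (κ - p) * j2 := mul_le_mul_of_nonneg_left (by linarith) (by linarith)
  have e5 : (9 * ((p : ℝ) + q)) * r ≤ κ ^ 2 * r := mul_le_mul_of_nonneg_right hκr hr0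
  nlinarith

/-- many points on the cubic -/
theorem numB {p q : ℕ} {β κ : ℝ} {kk d : ℕ} {M : Fin p → ℕ} {m : Fin q → ℕ}
    (hκ : κ = 6 + kk - 3 * β) (hκ9 : 9 ≤ κ) (hp : κ ≤ (p : ℝ))
    (hκr : 9 * ((p : ℝ) * q) ≤ κ ^ 2 * (p - 9)) (H : CritC β kk d M m) :
    κ / p * ∑ i, (M i : ℝ) + ∑ j, (m j : ℝ) ≤ κ / 3 * d := by
  obtain ⟨r, h1, h2, h3, H1, H2⟩ := H
  have e1 := lower_bd hκ hκ9 H1
  obtain ⟨j1, j2, a0, a1, a2, a3, a4, a5⟩ := chord_facts hκ H2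
  have e3 := sum_tsub_ge m r
  have h3' : ((∑ i, (m i - r) : ℕ) : ℝ) ≤ (h2 : ℝ) - h1 := by exact_mod_cast h3
  have hr0 : (0 : ℝ) ≤ r := Nat.cast_nonneg r
  have hp0 : (0 : ℝ) < p := by linarith
  obtain ⟨S, hS⟩ : ∃ S, S = ∑ i, (M i : ℝ) := ⟨_, rfl⟩
  obtain ⟨R, hR⟩ : ∃ R, R = ∑ j, (m j : ℝ) := ⟨_, rfl⟩
  rw [← hS] at a3 a4 ⊢
  rw [← hR] at e3 ⊢
  have e4 : κ * (h2 : ℝ) ≤ κ * ((2 - β) * d - κ * j1 - S + p * j1) :=
    mul_le_mul_of_nonneg_left a3 (by linarith)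
  have e5 : (p - κ) * (h2 : ℝ) ≤ (p - κ) * ((2 - β) * d - κ * j2) :=
    mul_le_mul_of_nonneg_left a5 (by linarith)
  have e6 : κ * (p - κ) * (j1 + r) ≤ κ * (p - κ) * j2 :=
    mul_le_mul_of_nonneg_left a1 (mul_nonneg (by linarith) (by linarith))
  have e7 : (p : ℝ) * h2 ≤ p * ((2 - β) * d) - κ * S - κ * (p - κ) * r := by nlinarith
  have e8 : 9 * ((p : ℝ) * q) * r ≤ κ ^ 2 * (p - 9) * r := mul_le_mul_of_nonneg_right hκr hr0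
  have e9 : (p : ℝ) * (-(1 + β) * d - (κ - 9) * ((3 * d - κ * r) / 9)) ≤ p * h1 :=
    mul_le_mul_of_nonneg_left e1 hp0.le
  have e10 : (p : ℝ) * (R - q * r) ≤ p * (h2 - h1) :=
    mul_le_mul_of_nonneg_left (e3.trans h3') hp0.le
  have e11 : κ * S + p * R ≤ p * (κ / 3 * d) := by nlinarith
  have e12 : κ / p * S + R = (κ * S + p * R) / p := by field_simp
  rw [e12, div_le_iff₀ hp0]
  linarith

end Pool.Agent.KS6_83.NC
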