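import Pool.Agent.KS6_83.NC.Trans
import Pool.Agent.KS6_83.NC.Num

set_option autoImplicit false
set_option linter.unusedSectionVars false
set_option linter.unusedVariables false

/-!
# The criterion at generic points with some points on a cubic
-/

namespace Pool.Agent.KS6_83.NC

open MvPolynomial Pool.Agent.Y206 Pool.Agent.Y206.V

universe u v w

theorem multAt_of_mem {k : Type u} [Field k] {p : Fin 2 → k} {m : ℕ}
    {F : MvPolynomial (Fin 3) k}
    (h : F ∈ (Ideal.span {X 1 - C (p 0) * X 0, X 2 - C (p 1) * X 0} :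
      Ideal (MvPolynomial (Fin 3) k)) ^ m) : MultAt ![1, p 0, p 1] F m := by
  obtain ⟨φ, hφ⟩ : ∃ φ : MvPolynomial (Fin 3) k →+* MvPolynomial (Fin 3) k,
      φ = ((aeval (fun j : Fin 3 => (X j + C ((![1, p 0, p 1] : Fin 3 → k) j) :
        MvPolynomial (Fin 3) k)) : MvPolynomial (Fin 3) k →ₐ[k] _) : _ →+* _) := ⟨_, rfl⟩
  have hX : ∀ i : Fin 3, (X i : MvPolynomial (Fin 3) k) ∈ idealOfVars (Fin 3) k := fun i =>
    Ideal.subset_span ⟨i, rfl⟩
  have h1 : Ideal.map φ (Ideal.span {X 1 - C (p 0) * X 0, X 2 - C (p 1) * X 0}) ≤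
      idealOfVars (Fin 3) k := by
    rw [Ideal.map_span, Ideal.span_le]
    rintro _ ⟨y, hy, rfl⟩
    rcases hy with rfl | rfl
    · have e : φ (X 1 - C (p 0) * X 0) = X 1 - C (p 0) * X 0 := by
        rw [hφ]
        simp
        ring
      rw [e]
      exact Ideal.sub_mem _ (hX 1) (Ideal.mul_mem_left _ _ (hX 0))
    · have e : φ (X 2 - C (p 1) * X 0) = X 2 - C (p 1) * X 0 := by
        rw [hφ]
        simp
        ring
      rw [e]
      exact Ideal.sub_mem _ (hX 2) (Ideal.mul_mem_left _ _ (hX 0))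
  have h2 : φ F ∈ idealOfVars (Fin 3) k ^ m := by
    refine Ideal.pow_right_mono h1 m ?_
    rw [← Ideal.map_pow]
    exact Ideal.mem_map_of_mem _ h
  intro s hs
  have h3 := (mem_pow_idealOfVars_iff' m _).1 h2 s (by
    rw [Finsupp.degree_eq_sum]
    exact hs)
  rw [hφ] at h3
  exact h3

theorem multAt_rename {K : Type u} [Field K] (e : Equiv.Perm (Fin 3)) {v : Fin 3 → K}
    {F : MvPolynomial (Fin 3) K} {m : ℕ} (h : MultAt (fun j => v (e j)) F m) :
    MultAt v (rename e F) m := by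
  intro s hs
  have h1 : aeval (fun j : Fin 3 => (X j + C (v j) : MvPolynomial (Fin 3) K)) (rename e F) =
      rename e (aeval (fun j : Fin 3 => (X j + C (v (e j)) : MvPolynomial (Fin 3) K)) F) := by
    rw [aeval_rename]
    have h2 : (aeval ((fun j : Fin 3 => (X j + C (v j) : MvPolynomial (Fin 3) K)) ∘ e) :
        MvPolynomial (Fin 3) K →ₐ[K] MvPolynomial (Fin 3) K) = (rename e).comp
        (aeval (fun j : Fin 3 => (X j + C (v (e j)) : MvPolynomial (Fin 3) K))) := by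
      apply MvPolynomial.algHom_ext
      intro j
      simp
    exact AlgHom.congr_fun h2 F
  rw [h1]
  have h3 : s = Finsupp.mapDomain e (Finsupp.mapDomain e.symm s) := by
    rw [← Finsupp.mapDomain_comp]
    simp
  rw [h3, coeff_rename_mapDomain e e.injective]
  apply h
  have h4 : ∑ j, (Finsupp.mapDomain e.symm s) j = ∑ j, s j := by
    rw [← Equiv.sum_comp e.symm]
    refine Finset.sum_congr rfl fun j _ => ?_
    exact Finsupp.mapDomain_apply e.symm.injective s j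
  rw [h4]
  exact hs

/-- the polynomial relations between the coordinates of the points hold for all points with the
first `p` on one cubic curve -/
def Gen {k : Type u} [Field k] (K : Type w) [Field K] (p q : ℕ) (P : Fin (p + q) → Fin 2 → k) :
    Prop :=
  ∀ (a' : Fin 9 → K) (z x : Fin p → K) (t : Fin q × Fin 2 → K),
    (∀ i, (cubY a' (z i)).eval (x i) = 0) →
    ∀ D : MvPolynomial (Fin (p + q) × Fin 3) ℤ,
      aeval (fun z : Fin (p + q) × Fin 3 => homC P z.1 z.2) D = 0 →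
      aeval (fun y : Fin (p + q) × Fin 3 => homC (spP z x t) y.1 y.2) D = 0

theorem exists_perm3 : ∃ e : Equiv.Perm (Fin 3), e 0 = 1 ∧ e 1 = 2 ∧ e 2 = 0 :=
  ⟨finRotate 3, rfl, rfl, rfl⟩

theorem homC_perm {K : Type w} [Field K] {r : ℕ} {P : Fin r → Fin 2 → K} {i : Fin r}
    {v : Fin 3 → K} (h1 : v 1 = 1) (h2 : v 2 = P i 0) (h0 : v 0 = P i 1)
    {e : Equiv.Perm (Fin 3)} (he : e 0 = 1 ∧ e 1 = 2 ∧ e 2 = 0) :
    homC P i = fun j => v (e j) := by
  obtain ⟨e0, e1, e2⟩ := he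
  funext j
  fin_cases j
  · change 1 = v (e 0)
    rw [e0, h1]
  · change P i 0 = v (e 1)
    rw [e1, h2]
  · change P i 1 = v (e 2)
    rw [e2, h0]

theorem ptY_one {K : Type w} [Field K] (kk : ℕ) (μ s t y : K) : ptY kk μ s t y 1 = 1 := rfl

theorem ptY_two {K : Type w} [Field K] (kk : ℕ) (μ s t y : K) : ptY kk μ s t y 2 = s * t := rfl

/-- the coefficients of a pencil of cubics -/
theorem hesse {K : Type w} [Field K] (c z x : K) (h : x ^ 3 + z ^ 3 + 1 = x * z * c) :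
    (cubY (![0, 0, 0, -c, 0, 1, 0, 0, 1] : Fin 9 → K) z).eval x = 0 := by
  rw [cubY_eval]
  have e0 : (![0, 0, 0, -c, 0, 1, 0, 0, 1] : Fin 9 → K) 0 = 0 := rfl
  have e1 : (![0, 0, 0, -c, 0, 1, 0, 0, 1] : Fin 9 → K) 1 = 0 := rfl
  have e2 : (![0, 0, 0, -c, 0, 1, 0, 0, 1] : Fin 9 → K) 2 = 0 := rfl
  have e3 : (![0, 0, 0, -c, 0, 1, 0, 0, 1] : Fin 9 → K) 3 = -c := rfl
  have e4 : (![0, 0, 0, -c, 0, 1, 0, 0, 1] : Fin 9 → K) 4 = 0 := rfl
  have e5 : (![0, 0, 0, -c, 0, 1, 0, 0, 1] : Fin 9 → K) 5 = 1 := rfl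
  have e6 : (![0, 0, 0, -c, 0, 1, 0, 0, 1] : Fin 9 → K) 6 = 0 := rfl
  have e7 : (![0, 0, 0, -c, 0, 1, 0, 0, 1] : Fin 9 → K) 7 = 0 := rfl
  have e8 : (![0, 0, 0, -c, 0, 1, 0, 0, 1] : Fin 9 → K) 8 = 1 := rfl
  rw [e0, e1, e2, e3, e4, e5, e6, e7, e8]
  linear_combination h

/-- a nonzero form at special points -/
theorem spec_form {k : Type u} [Field k] {K : Type w} [Field K] {p q : ℕ}
    {P : Fin (p + q) → Fin 2 → k} (hP : Gen K p q P) {w : Fin (p + q) → ℕ} {d : ℕ} {F : MvPolynomial (Fin 3) k}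
    (hF : F.IsHomogeneous d) (hF0 : F ≠ 0) (hw : ∀ i, MultAt (homC P i) F (w i))
    {a' : Fin 9 → K} {z x : Fin p → K} (t : Fin q × Fin 2 → K)
    (hroot : ∀ i, (cubY a' (z i)).eval (x i) = 0) :
    ∃ Q : MvPolynomial (Fin 3) K, Q.IsHomogeneous d ∧
      Q ≠ 0 ∧ ∀ i, MultAt (homC (spP z x t) i) Q (w i) := by
  by_contra hcon
  push Not at hcon
  obtain ⟨f, hf⟩ := exists_GZ (homC (spP z x t)) w d (by
    intro Q hQ hm
    by_contra hQ0
    obtain ⟨i, hi⟩ := hcon Q hQ hQ0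
    exact hi (hm i))
  apply hF0
  refine GZ_works (homC P) w f ?_ hF hw
  intro h0
  exact hf (hP a' z x t hroot _ h0)

theorem exists_dist {k : Type u} [Field k] [Infinite k] (q : ℕ) :
    ∃ a : Fin q → k, Function.Injective a ∧ ∀ j, a j ≠ 0 := by
  obtain ⟨f⟩ : Nonempty (ℕ ↪ {x : k // x ≠ 0}) := by
    have : Infinite {x : k // x ≠ 0} :=
      Set.Infinite.to_subtype (Set.Finite.infinite_compl (Set.finite_singleton (0 : k)))
    exact ⟨Infinite.natEmbedding _⟩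
  refine ⟨fun j => (f j : k), ?_, fun j => (f j).2⟩
  intro i j hij
  have := f.injective (Subtype.ext hij)
  exact Fin.ext this

/-- permuted coordinates -/
theorem rename_form {K : Type w} [Field K] {n : ℕ} {R : Fin n → Fin 2 → K} {m : Fin n → ℕ} {d : ℕ}
    (h : ∃ Q : MvPolynomial (Fin 3) K, Q.IsHomogeneous d ∧ Q ≠ 0 ∧
      ∀ i, MultAt (homC R i) Q (m i)) :
    ∃ Q : MvPolynomial (Fin 3) K, Q.IsHomogeneous d ∧ Q ≠ 0 ∧
      ∀ i (v : Fin 3 → K), v 1 = 1 → v 2 = R i 0 → v 0 = R i 1 → MultAt v Q (m i) := by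
  obtain ⟨Q, h1, h2, h3⟩ := h
  obtain ⟨e, he⟩ := exists_perm3
  refine ⟨rename e Q, h1.rename_isHomogeneous, ?_, ?_⟩
  · intro h0
    apply h2
    apply rename_injective e e.injective
    rw [h0, map_zero]
  · intro i v h4 h5 h6
    apply multAt_rename
    rw [← homC_perm h4 h5 h6 he]
    exact h3 i

/-- **The criterion.** -/
theorem critP {k : Type u} [Field k] [Infinite k] {β : ℝ} (hβ0 : 0 < β) (hβ : β < 3 / 7)
    (hirr : Irrational β) (kk : ℕ) {p q : ℕ} {P : Fin (p + q) → Fin 2 → k}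
    (hP : Gen (Hs (Hs k)) p q P)
    {w : Fin (p + q) → ℕ} {d : ℕ} {F : MvPolynomial (Fin 3) k} (hF : F.IsHomogeneous d)
    (hF0 : F ≠ 0) (hw : ∀ i, MultAt (homC P i) F (w i)) :
    CritC β kk d (fun i : Fin p => w (Fin.castAdd q i)) (fun j : Fin q => w (Fin.natAdd p j)) := by
  obtain ⟨a, ha⟩ := exists_dist (k := k) q
  choose x y hy hcub hx using fun i : Fin p =>
    exists_point (κ := Hs k) hβ0 hβ kk (cp_ne (k := k) i)
  obtain ⟨Q, hQd, hQ0, hQw⟩ := rename_form (spec_form hP hF hF0 hw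
    (a' := ![0, 0, 0, -(mu (Hs k))⁻¹, 0, 1, 0, 0, 1])
    (z := fun i => sc0 (Hs k) β * HahnSeries.C (cp k i)) (x := x)
    (fun jc => (![sc0 (Hs k) β * HahnSeries.C (HahnSeries.C (a jc.1)),
      ptY kk (mu (Hs k)) (sc0 (Hs k) β) (HahnSeries.C (HahnSeries.C (a jc.1))) 1 0] :
        Fin 2 → Hs (Hs k)) jc.2) (fun i => hesse _ _ _ (hcub i)))
  refine crit3 hβ0 hβ hirr kk ha.2 ha.1 hy (fun i : Fin p => w (Fin.castAdd q i))
    (fun j : Fin q => w (Fin.natAdd p j)) hQd hQ0 (fun i => ?_) (fun j => ?_)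
  · refine hQw (Fin.castAdd q i) _ (ptY_one _ _ _ _ _) ?_ ?_
    · rw [spP_left, ptY_two]
      rfl
    · rw [spP_left, ← hx i]
      rfl
  · refine hQw (Fin.natAdd p j) _ (ptY_one _ _ _ _ _) ?_ ?_
    · rw [spP_right, ptY_two]
      rfl
    · rw [spP_right]
      rfl

end Pool.Agent.KS6_83.NC
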