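import Pool.Agent.KS6_83.NC.StepA

set_option autoImplicit false
set_option linter.unusedSectionVars false
set_option linter.unusedVariables false

/-!
# Laurent polynomials with large roots

If `φ` is divisible by a product of `E` linear factors with roots of negative order, then the
exponents of the terms of least order are at least `E` below the largest exponent.
-/

namespace Pool.Agent.KS6_83.NC

open Pool.Agent.Y206 Pool.Agent.Y206.V HahnSeries

universe u

variable {κ : Type u} [Field κ]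

/-- a term of least order -/
def LeastT (φ : AddMonoidAlgebra (Hs κ) ℤ) (h : ℤ) : Prop :=
  φ.coeff h ≠ 0 ∧ ∀ h', φ.coeff h' ≠ 0 → (φ.coeff h).order ≤ (φ.coeff h').order

/-- the linear factor with the root `1 / u` -/
noncomputable def lf (u : Hs κ) : AddMonoidAlgebra (Hs κ) ℤ :=
  1 - AddMonoidAlgebra.single 1 u

theorem lf_mul_coeff (u : Hs κ) (s : AddMonoidAlgebra (Hs κ) ℤ) (h : ℤ) :
    (lf u * s).coeff h = s.coeff h - u * s.coeff (h - 1) := by
  unfold lf
  rw [sub_mul, one_mul]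
  have e : (s - AddMonoidAlgebra.single 1 u * s).coeff h =
      s.coeff h - (AddMonoidAlgebra.single 1 u * s).coeff h := rfl
  rw [e, AddMonoidAlgebra.coeff_single_mul_apply]
  congr 3
  ring

theorem vadd_eq {x y : Hs κ} (hx : x ≠ 0) (h : y = 0 ∨ x.order < y.order) :
    x + y ≠ 0 ∧ (x + y).order = x.order := by
  have h1 := (vH κ).add_eq (x := x) (y := y) hx (h.imp id fun h => by
    rw [vH_apply, vH_apply]
    exact lt_of_r1_lt (by simpa using h))
  refine ⟨h1.1, ?_⟩
  have h2 := congrArg r1 h1.2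
  simpa [vH_apply] using h2

theorem leastT_lf {u : Hs κ} (hu0 : u ≠ 0) (hu : 0 < u.order) {s : AddMonoidAlgebra (Hs κ) ℤ}
    {h : ℤ} (hL : LeastT (lf u * s) h) : LeastT s h := by
  classical
  have hs0 : s ≠ 0 := by
    intro h0
    rw [h0, mul_zero] at hL
    exact hL.1 rfl
  have hne : s.coeff.support.Nonempty := by
    rw [Finsupp.support_nonempty_iff]
    exact fun h => hs0 (AddMonoidAlgebra.coeff_eq_zero.1 h)
  obtain ⟨q, hq, hmin⟩ := Finset.exists_min_image s.coeff.support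
    (fun p => (s.coeff p).order) hne
  have hq0 := Finsupp.mem_support_iff.1 hq
  have hge : ∀ p, s.coeff p ≠ 0 → (s.coeff q).order ≤ (s.coeff p).order := fun p hp =>
    hmin p (Finsupp.mem_support_iff.2 hp)
  -- the shifted term is larger
  have hsh : ∀ p, -(u * s.coeff (p - 1)) = 0 ∨
      (s.coeff q).order < (-(u * s.coeff (p - 1))).order := by
    intro p
    by_cases h0 : s.coeff (p - 1) = 0
    · left; rw [h0, mul_zero, neg_zero]
    · right
      rw [HahnSeries.order_neg, HahnSeries.order_mul hu0 h0]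
      linarith [hge _ h0]
  have h1 : (lf u * s).coeff q ≠ 0 ∧ ((lf u * s).coeff q).order = (s.coeff q).order := by
    rw [lf_mul_coeff, sub_eq_add_neg]
    exact vadd_eq hq0 (hsh q)
  have h2 := hL.2 q h1.1
  rw [h1.2] at h2
  have h3 : s.coeff h ≠ 0 ∧ (s.coeff h).order = (s.coeff q).order := by
    by_cases h0 : s.coeff h = 0
    · exfalso
      have h4 := hL.1
      rw [lf_mul_coeff, h0, zero_sub] at h4 h2
      rcases hsh h with h5 | h5
      · exact h4 h5
      · linarith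
    · refine ⟨h0, le_antisymm ?_ (hge _ h0)⟩
      by_contra hlt
      rw [not_le] at hlt
      have h4 := hL.1
      rw [lf_mul_coeff, sub_eq_add_neg] at h4 h2
      rcases hsh h with h5 | h5
      · rw [h5, add_zero] at h2
        linarith
      · have h6 := HahnSeries.min_order_le_order_add h4
        rcases min_le_iff.1 h6 with h7 | h7
        · linarith
        · linarith
  exact ⟨h3.1, fun p hp => by rw [h3.2]; exact hge p hp⟩

theorem top_lf {u : Hs κ} (hu0 : u ≠ 0) {s : AddMonoidAlgebra (Hs κ) ℤ} {t : ℤ}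
    (ht : s.coeff t ≠ 0) : ∃ t', t + 1 ≤ t' ∧ (lf u * s).coeff t' ≠ 0 := by
  classical
  obtain ⟨q, hq, hmax⟩ := Finset.exists_max_image s.coeff.support id
    ⟨t, Finsupp.mem_support_iff.2 ht⟩
  have hq0 := Finsupp.mem_support_iff.1 hq
  have h1 := hmax t (Finsupp.mem_support_iff.2 ht)
  simp only [id] at h1 hmax
  refine ⟨q + 1, by omega, ?_⟩
  rw [lf_mul_coeff]
  have h2 : s.coeff (q + 1) = 0 := by
    by_contra h2
    have := hmax (q + 1) (Finsupp.mem_support_iff.2 h2)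
    omega
  have e : q + 1 - 1 = q := by ring
  rw [h2, e, zero_sub]
  exact neg_ne_zero.2 (mul_ne_zero hu0 hq0)

/-- powers and products of linear factors -/
theorem cut_prod {ι : Type*} (S : Finset ι) (u : ι → Hs κ) (hu0 : ∀ i, u i ≠ 0)
    (hu : ∀ i, 0 < (u i).order) (e : ι → ℕ) (s : AddMonoidAlgebra (Hs κ) ℤ) :
    (∀ h, LeastT ((∏ i ∈ S, lf (u i) ^ e i) * s) h → LeastT s h) ∧
      ∀ t, s.coeff t ≠ 0 → ∃ t', t + (∑ i ∈ S, e i : ℕ) ≤ t' ∧
        ((∏ i ∈ S, lf (u i) ^ e i) * s).coeff t' ≠ 0 := by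
  classical
  have hpow : ∀ (i : ι) (n : ℕ) (s : AddMonoidAlgebra (Hs κ) ℤ),
      (∀ h, LeastT (lf (u i) ^ n * s) h → LeastT s h) ∧
      ∀ t, s.coeff t ≠ 0 → ∃ t', t + (n : ℕ) ≤ t' ∧ (lf (u i) ^ n * s).coeff t' ≠ 0 := by
    intro i n
    induction n with
    | zero =>
      intro s
      simp only [pow_zero, one_mul]
      exact ⟨fun h hh => hh, fun t ht => ⟨t, by simp, ht⟩⟩
    | succ n ih =>
      intro s
      obtain ⟨h1, h2⟩ := ih s
      have e1 : lf (u i) ^ (n + 1) * s = lf (u i) * (lf (u i) ^ n * s) := by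
        rw [pow_succ']; ring
      rw [e1]
      refine ⟨fun h hh => h1 h (leastT_lf (hu0 i) (hu i) hh), fun t ht => ?_⟩
      obtain ⟨t1, h3, h4⟩ := h2 t ht
      obtain ⟨t2, h5, h6⟩ := top_lf (hu0 i) h4
      exact ⟨t2, by push_cast; omega, h6⟩
  induction S using Finset.induction_on generalizing s with
  | empty =>
    simp only [Finset.prod_empty, one_mul, Finset.sum_empty]
    exact ⟨fun h hh => hh, fun t ht => ⟨t, by simp, ht⟩⟩
  | insert i S hi ih =>
    obtain ⟨h1, h2⟩ := ih s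
    obtain ⟨h3, h4⟩ := hpow i (e i) ((∏ i ∈ S, lf (u i) ^ e i) * s)
    rw [Finset.prod_insert hi, Finset.sum_insert hi, mul_assoc]
    refine ⟨fun h hh => h1 h (h3 h hh), fun t ht => ?_⟩
    obtain ⟨t1, h5, h6⟩ := h2 t ht
    obtain ⟨t2, h7, h8⟩ := h4 t1 h6
    exact ⟨t2, by push_cast at *; omega, h8⟩

theorem lin_lf {c : Hs κ} (hc : c ≠ 0) (n : ℕ) :
    lf (c⁻¹) ^ n ∣ (AddMonoidAlgebra.single (1 : ℤ) (1 : Hs κ) -
      AddMonoidAlgebra.single (0 : ℤ) c) ^ n := by
  apply pow_dvd_pow_of_dvd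
  refine ⟨AddMonoidAlgebra.single (0 : ℤ) (-c), ?_⟩
  unfold lf
  rw [sub_mul, one_mul, AddMonoidAlgebra.single_mul_single]
  have e : c⁻¹ * -c = -1 := by field_simp
  rw [e, add_zero]
  have e2 : ∀ (t : ℤ) (x : Hs κ), (AddMonoidAlgebra.single t (-x) : AddMonoidAlgebra (Hs κ) ℤ) =
      -AddMonoidAlgebra.single t x := by
    intro t x
    exact AddMonoidAlgebra.single_neg _ _
  rw [e2, e2]
  ring

/-- **The cut lemma.** -/
theorem cut {ι : Type*} [Fintype ι] {c : ι → Hs κ} (hc0 : ∀ i, c i ≠ 0)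
    (hc : ∀ i, (c i).order < 0) (hinj : Function.Injective c) (e : ι → ℕ)
    {φ : AddMonoidAlgebra (Hs κ) ℤ}
    (hd : ∀ i, (AddMonoidAlgebra.single (1 : ℤ) (1 : Hs κ) -
      AddMonoidAlgebra.single (0 : ℤ) (c i)) ^ e i ∣ φ) {h : ℤ} (hL : LeastT φ h) :
    ∃ h', h + (∑ i, e i : ℕ) ≤ h' ∧ φ.coeff h' ≠ 0 := by
  classical
  have hprod : ∏ i, (AddMonoidAlgebra.single (1 : ℤ) (1 : Hs κ) -
      AddMonoidAlgebra.single (0 : ℤ) (c i)) ^ e i ∣ φ := by
    apply Finset.prod_dvd_of_coprime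
    · intro i _ j _ hij
      apply IsCoprime.pow
      have hne : c j - c i ≠ 0 := sub_ne_zero.2 fun h => hij (hinj h).symm
      refine ⟨AddMonoidAlgebra.single 0 (c j - c i)⁻¹, -AddMonoidAlgebra.single 0 (c j - c i)⁻¹, ?_⟩
      have e1 : (AddMonoidAlgebra.single 0 (c j - c i)⁻¹ : AddMonoidAlgebra (Hs κ) ℤ) *
          (AddMonoidAlgebra.single (1 : ℤ) (1 : Hs κ) - AddMonoidAlgebra.single (0 : ℤ) (c i)) +
          -AddMonoidAlgebra.single 0 (c j - c i)⁻¹ *
          (AddMonoidAlgebra.single (1 : ℤ) (1 : Hs κ) - AddMonoidAlgebra.single (0 : ℤ) (c j)) =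
          AddMonoidAlgebra.single 0 (c j - c i)⁻¹ * (AddMonoidAlgebra.single (0 : ℤ) (c j) -
            AddMonoidAlgebra.single (0 : ℤ) (c i)) := by ring
      rw [e1, ← AddMonoidAlgebra.single_sub, AddMonoidAlgebra.single_mul_single,
        inv_mul_cancel₀ hne, add_zero]
      rfl
    · intro i _
      exact hd i
  have hprod' : ∏ i, lf ((c i)⁻¹) ^ e i ∣ φ :=
    (Finset.prod_dvd_prod_of_dvd _ _ fun i _ => lin_lf (hc0 i) (e i)).trans hprod
  obtain ⟨s, rfl⟩ := hprod'
  obtain ⟨h1, h2⟩ := cut_prod Finset.univ (fun i => (c i)⁻¹) (fun i => inv_ne_zero (hc0 i))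
    (fun i => by
      have h3 := v_inv (vH κ) (hc0 i)
      have h4 := congrArg r1 h3
      simp only [vH_apply, r1_neg, r1_pt] at h4
      rw [h4]
      linarith [hc i]) e s
  exact h2 h (h1 h hL).1

end Pool.Agent.KS6_83.NC
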