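import Pool.Agent.KS6_83.NC.Fin

set_option autoImplicit false
set_option linter.unusedSectionVars false
set_option linter.unusedVariables false

/-!
# Existence of generic points with some points on a cubic
-/

namespace Pool.Agent.KS6_83.NC

open MvPolynomial

universe u

/-- a form vanishing at a point lies in the ideal of the point -/
theorem mem_of_eval {k : Type u} [Field k] {p : Fin 2 → k} {d : ℕ} {G : MvPolynomial (Fin 3) k}
    (hG : G.IsHomogeneous d) (h : MvPolynomial.eval ![1, p 0, p 1] G = 0) :
    G ∈ (Ideal.span {X 1 - C (p 0) * X 0, X 2 - C (p 1) * X 0} :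
      Ideal (MvPolynomial (Fin 3) k)) ^ 1 := by
  rw [pow_one]
  obtain ⟨I, hI⟩ : ∃ I : Ideal (MvPolynomial (Fin 3) k),
    I = Ideal.span {X 1 - C (p 0) * X 0, X 2 - C (p 1) * X 0} := ⟨_, rfl⟩
  rw [← hI]
  have h1 : Ideal.Quotient.mk I (X 1) = Ideal.Quotient.mk I (C (p 0) * X 0) := by
    rw [Ideal.Quotient.eq, hI]
    exact Ideal.subset_span (Or.inl rfl)
  have h2 : Ideal.Quotient.mk I (X 2) = Ideal.Quotient.mk I (C (p 1) * X 0) := by
    rw [Ideal.Quotient.eq, hI]
    exact Ideal.subset_span (Or.inr rfl)
  obtain ⟨φ, hφ⟩ : ∃ φ : MvPolynomial (Fin 3) k →ₐ[k] MvPolynomial (Fin 3) k,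
      φ = aeval (fun j => C ((![1, p 0, p 1] : Fin 3 → k) j) * X 0) := ⟨_, rfl⟩
  have h3 : (Ideal.Quotient.mk I) G = (Ideal.Quotient.mk I) (φ G) := by
    have h4 : (Ideal.Quotient.mk I) = (Ideal.Quotient.mk I).comp (φ : _ →+* _) := by
      apply MvPolynomial.ringHom_ext
      · intro r
        rw [hφ]
        simp
      · intro j
        rw [hφ]
        simp only [RingHom.comp_apply, RingHom.coe_coe, aeval_X]
        fin_cases j
        · simp
        · exact h1
        · exact h2
    exact congrArg (fun g : MvPolynomial (Fin 3) k →+* _ => g G) h4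
  have h5 : φ G = C (MvPolynomial.eval ![1, p 0, p 1] G) * X 0 ^ d := by
    rw [hφ, aeval_def, eval₂_eq', eval_eq', map_sum, Finset.sum_mul]
    refine Finset.sum_congr rfl fun s hs => ?_
    have hdeg : s 0 + s 1 + s 2 = d := by
      have := hG (MvPolynomial.mem_support_iff.1 hs)
      rw [Finsupp.weight_apply, Finsupp.sum_fintype _ _ (by simp), Fin.sum_univ_three] at this
      simpa using this
    rw [Fin.prod_univ_three, Fin.prod_univ_three, ← hdeg]
    simp only [algebraMap_eq, mul_pow, map_mul, map_pow]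
    ring
  rw [h5, h, C_0, zero_mul, map_zero, Ideal.Quotient.eq_zero_iff_mem] at h3
  exact h3

/-- existence of generic points with some points on a cubic -/
theorem exists_gen {k : Type u} [Field k] [IsAlgClosed k] (p q : ℕ)
    {v : Fin (2 * (p + q)) → k} (hv : AlgebraicIndependent (⊥ : Subfield k) v) :
    ∃ P : Fin (p + q) → Fin 2 → k,
      (∃ G : MvPolynomial (Fin 3) k, G.IsHomogeneous 3 ∧ G ≠ 0 ∧
        ∀ i : Fin (p + q), i.val < p →
          G ∈ (Ideal.span {X 1 - C (P i 0) * X 0, X 2 - C (P i 1) * X 0} :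
            Ideal (MvPolynomial (Fin 3) k)) ^ 1) ∧
      AlgebraicIndependent (⊥ : Subfield k) (fun z : {z : Fin (p + q) × Fin 2 //
        z.2 = 0 ∨ z.1.val < 9 ∨ p ≤ z.1.val} => P z.1.1 z.1.2) := by
  classical
  obtain ⟨P0, hP0⟩ : ∃ P0 : Fin (p + q) → Fin 2 → k,
      AlgebraicIndependent (⊥ : Subfield k) (fun z : Fin (p + q) × Fin 2 => P0 z.1 z.2) := by
    have e : Fin (p + q) × Fin 2 ≃ Fin (2 * (p + q)) :=
      (Fintype.equivFin _).trans (finCongr (by simp [mul_comm]))
    exact ⟨fun i c => v (e (i, c)), hv.comp e e.injective⟩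
  obtain ⟨w, hw⟩ : ∃ w : Fin (p + q) → ℕ, w = fun i => if i.val < min p 9 then 1 else 0 :=
    ⟨_, rfl⟩
  obtain ⟨G, hG, hG0, hGi⟩ := exists_vform P0 w 3 (by
    have h1 : ∀ i, (w i + 1).choose 2 = if i.val < min p 9 then 1 else 0 := by
      intro i
      rw [hw]
      dsimp only
      split_ifs <;> simp
    rw [Finset.sum_congr rfl fun i _ => h1 i, Finset.sum_boole]
    have h2 : (Finset.univ.filter fun i : Fin (p + q) => i.val < min p 9).card ≤ 9 := by
      have h3 : (Finset.univ.filter fun i : Fin (p + q) => i.val < min p 9).card ≤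
          (Finset.range 9).card := by
        refine Finset.card_le_card_of_injOn Fin.val ?_ ?_
        · intro i hi
          simp only [Finset.coe_filter, Finset.mem_univ, true_and, Set.mem_ofPred_eq] at hi
          simp only [Finset.coe_range, Set.mem_Iio]
          omega
        · exact Fin.val_injective.injOn
      simpa using h3
    have h4 : (3 + 2).choose 2 = 10 := by decide
    rw [h4]
    simp only [Nat.cast_id]
    omega)
  by_cases hp : 9 ≤ p
  · -- the roots
    have hc : MvPolynomial.coeff (mon3 0 3) G ≠ 0 := by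
      have h1 := hP0.comp (fun z : Fin 9 × Fin 2 =>
        ((Fin.castAdd q (Fin.castLE hp z.1), z.2) : Fin (p + q) × Fin 2)) (by
        rintro ⟨a, b⟩ ⟨c, d⟩ h
        simp only [Prod.mk.injEq] at h
        obtain ⟨h1, h2⟩ := h
        have h3 := Fin.castLE_injective hp (Fin.castAdd_injective _ _ h1)
        rw [h2, h3])
      refine y3_ne hG hG0 h1 ?_
      intro i
      have h2 := hGi (Fin.castAdd q (Fin.castLE hp i))
      have h3 : w (Fin.castAdd q (Fin.castLE hp i)) = 1 := by
        rw [hw]
        have : ((Fin.castAdd q (Fin.castLE hp i) : Fin (p + q)) : ℕ) < min p 9 := by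
          simp only [Fin.val_castAdd, Fin.val_castLE]
          have := i.2
          omega
        exact if_pos this
      rw [h3] at h2
      exact eval_of_mem h2
    have hroot : ∀ x : k, ∃ y : k, MvPolynomial.eval ![1, x, y] G = 0 := by
      intro x
      obtain ⟨f, hf⟩ : ∃ f : Polynomial k, f =
          Polynomial.C (MvPolynomial.coeff (mon3 0 3) G) * Polynomial.X ^ 3 +
          (Polynomial.C (MvPolynomial.coeff (mon3 0 2) G + MvPolynomial.coeff (mon3 1 2) G * x) *
            Polynomial.X ^ 2 +
          Polynomial.C (MvPolynomial.coeff (mon3 0 1) G + MvPolynomial.coeff (mon3 1 1) G * x +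
            MvPolynomial.coeff (mon3 2 1) G * x ^ 2) * Polynomial.X +
          Polynomial.C (MvPolynomial.coeff (mon3 0 0) G + MvPolynomial.coeff (mon3 1 0) G * x +
            MvPolynomial.coeff (mon3 2 0) G * x ^ 2 + MvPolynomial.coeff (mon3 3 0) G * x ^ 3)) :=
        ⟨_, rfl⟩
      have hdeg : f.degree = 3 := by
        rw [hf, Polynomial.degree_add_eq_left_of_degree_lt]
        · exact Polynomial.degree_C_mul_X_pow 3 hc
        · rw [Polynomial.degree_C_mul_X_pow 3 hc]
          exact lt_of_le_of_lt Polynomial.degree_quadratic_le (by norm_num)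
      obtain ⟨y, hy⟩ := IsAlgClosed.exists_root f (by rw [hdeg]; norm_num)
      refine ⟨y, ?_⟩
      rw [cubic_eval hG]
      rw [Polynomial.IsRoot.def, hf] at hy
      simpa using hy
    choose y hy using hroot
    obtain ⟨P, hPd⟩ : ∃ P : Fin (p + q) → Fin 2 → k, P = fun i =>
      if 9 ≤ i.val ∧ i.val < p then ![P0 i 0, y (P0 i 0)] else P0 i := ⟨_, rfl⟩
    refine ⟨P, ⟨G, hG, hG0, ?_⟩, ?_⟩
    · intro i hi
      by_cases h : 9 ≤ i.val
      · have h1 : P i = ![P0 i 0, y (P0 i 0)] := by
          rw [hPd]
          simp [h, hi]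
        rw [h1]
        exact mem_of_eval hG (hy _)
      · have h1 : P i = P0 i := by
          rw [hPd]
          simp [h]
        rw [h1]
        have h2 := hGi i
        have h3 : w i = 1 := by
          rw [hw]
          have : i.val < min p 9 := by omega
          simp only
          rw [if_pos this]
        rw [h3] at h2
        exact h2
    · have h1 : (fun z : {z : Fin (p + q) × Fin 2 //
          z.2 = 0 ∨ z.1.val < 9 ∨ p ≤ z.1.val} => P z.1.1 z.1.2) =
          (fun z : Fin (p + q) × Fin 2 => P0 z.1 z.2) ∘ Subtype.val := by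
        funext z
        obtain ⟨⟨i, c⟩, hz⟩ := z
        simp only [Function.comp_apply]
        rw [hPd]
        dsimp only
        split_ifs with h
        · rcases hz with hz | hz | hz
          · simp only at hz
            rw [hz]
            rfl
          · exfalso
            simp only at hz
            omega
          · exfalso
            simp only at hz
            omega
        · rfl
      rw [h1]
      exact hP0.comp _ Subtype.val_injective
  · refine ⟨P0, ⟨G, hG, hG0, ?_⟩, hP0.comp _ Subtype.val_injective⟩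
    intro i hi
    have h2 := hGi i
    have h3 : w i = 1 := by
      rw [hw]
      have : i.val < min p 9 := by omega
      simp only
      rw [if_pos this]
    rw [h3] at h2
    exact h2

/-- when the constant is the square root -/
theorem Ec_iff {p q : ℕ} (hr : 9 < p + q) (hpq : 9 * p ≤ p * q + 81) :
    Ec p q = Real.sqrt ((p : ℝ) + q) ↔ (p : ℝ) ≤ 3 * Real.sqrt ((p : ℝ) + q) := by
  constructor
  · intro h
    by_contra hcon
    obtain ⟨h9, hq, h1, h2⟩ := caseB_facts hr hpq hcon
    unfold Ec at h
    rw [if_neg hcon] at h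
    have h9' : (0 : ℝ) < (p : ℝ) - 9 := by
      have : (9 : ℝ) < p := by exact_mod_cast h9
      linarith
    have hp0 : (0 : ℝ) < p := by linarith
    have hq0 : (0 : ℝ) < q := by exact_mod_cast hq
    have hs := Real.sq_sqrt (show (0 : ℝ) ≤ (p : ℝ) + q by positivity)
    have hs2 := Real.sq_sqrt (show (0 : ℝ) ≤ (q : ℝ) * (p - 9) / p by positivity)
    obtain ⟨s, hsd⟩ : ∃ s, s = Real.sqrt ((p : ℝ) + q) := ⟨_, rfl⟩
    obtain ⟨t, htd⟩ : ∃ t, t = Real.sqrt ((q : ℝ) * (p - 9) / p) := ⟨_, rfl⟩
    rw [← hsd] at h hs h2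
    rw [← htd] at h hs2
    rw [eq_div_iff hp0.ne'] at hs2
    have e : t = s - 3 := by linarith
    rw [e] at hs2
    have e2 : (p - 3 * s) ^ 2 = 0 := by nlinarith
    have e3 : p - 3 * s = 0 := by
      rcases pow_eq_zero_iff (two_ne_zero) |>.1 e2 with h
      exact h
    linarith
  · intro h
    unfold Ec
    rw [if_pos h]

end Pool.Agent.KS6_83.NC
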