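import Pool.Agent.KS6_83.NC.WaldC

set_option autoImplicit false
set_option linter.unusedSectionVars false
set_option linter.unusedVariables false

/-!
# The Waldschmidt constant of points with some points on a cubic: conclusion
-/

namespace Pool.Agent.KS6_83.NC

open MvPolynomial Filter Topology Pool.Agent.H932R5 Pool.Agent.H519R3.AC

universe u

/-- the weights of the points -/
noncomputable def wt (p q : ℕ) (i : Fin (p + q)) : ℝ :=
  if (p : ℝ) ≤ 3 * Real.sqrt ((p : ℝ) + q) then 1 / Real.sqrt ((p : ℝ) + q)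
  else if i.val < p then 3 / p else Real.sqrt ((p - 9) / ((p : ℝ) * q))

section

variable {k : Type u} [Field k] {p q : ℕ} {P : Fin (p + q) → Fin 2 → k}

/-- what the case of many points on the cubic means -/
theorem caseB_facts (hr : 9 < p + q) (hpq : 9 * p ≤ p * q + 81)
    (h : ¬ (p : ℝ) ≤ 3 * Real.sqrt ((p : ℝ) + q)) :
    9 < p ∧ 1 ≤ q ∧ 9 * (q : ℝ) ≤ p * (p - 9) ∧ 3 * Real.sqrt ((p : ℝ) + q) < p := by
  rw [not_le] at h
  have hr' : (9 : ℝ) < (p : ℝ) + q := by exact_mod_cast hr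
  have h3 : (3 : ℝ) ≤ Real.sqrt ((p : ℝ) + q) := by
    apply Real.le_sqrt_of_sq_le
    linarith
  have hs := Real.sq_sqrt (show (0 : ℝ) ≤ (p : ℝ) + q by positivity)
  have hp9 : (9 : ℝ) < p := by linarith
  have hp9' : 9 < p := by exact_mod_cast hp9
  refine ⟨hp9', ?_, ?_, h⟩
  · by_contra hq
    have hq0 : q = 0 := by omega
    subst hq0
    omega
  · nlinarith

theorem sum_wt (hr : 9 < p + q) (hpq : 9 * p ≤ p * q + 81) : ∑ i, wt p q i = Ec p q := by
  unfold Ec
  split_ifs with h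
  · have e : ∀ i : Fin (p + q), wt p q i = 1 / Real.sqrt ((p : ℝ) + q) := by
      intro i
      unfold wt
      rw [if_pos h]
    rw [Finset.sum_congr rfl fun i _ => e i, Finset.sum_const, Finset.card_univ,
      Fintype.card_fin, nsmul_eq_mul]
    have hr' : (9 : ℝ) < (p : ℝ) + q := by exact_mod_cast hr
    have hs : 0 < Real.sqrt ((p : ℝ) + q) := Real.sqrt_pos.2 (by linarith)
    have hs2 := Real.mul_self_sqrt (show (0 : ℝ) ≤ (p : ℝ) + q by positivity)
    push_cast
    rw [mul_one_div, div_eq_iff hs.ne', hs2]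
  · obtain ⟨h9, hq, h1, h2⟩ := caseB_facts hr hpq h
    have h9' : (0 : ℝ) < (p : ℝ) - 9 := by
      have : (9 : ℝ) < p := by exact_mod_cast h9
      linarith
    have hp0 : (0 : ℝ) < p := by linarith
    have hq0 : (0 : ℝ) < q := by exact_mod_cast hq
    rw [Fin.sum_univ_add]
    have e1 : ∀ i : Fin p, wt p q (Fin.castAdd q i) = 3 / p := by
      intro i
      unfold wt
      rw [if_neg h, if_pos (by simp)]
    have e2 : ∀ j : Fin q, wt p q (Fin.natAdd p j) = Real.sqrt ((p - 9) / ((p : ℝ) * q)) := by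
      intro j
      unfold wt
      rw [if_neg h, if_neg (by simp)]
    rw [Finset.sum_congr rfl fun i _ => e1 i, Finset.sum_congr rfl fun j _ => e2 j]
    simp only [Finset.sum_const, Finset.card_univ, Fintype.card_fin, nsmul_eq_mul]
    congr 1
    · field_simp
    · have e3 : (q : ℝ) * (p - 9) / p = q ^ 2 * ((p - 9) / (p * q)) := by
        field_simp
      rw [e3, Real.sqrt_mul (by positivity), Real.sqrt_sq hq0.le]

/-- all multiplicities -/
theorem weighted [Infinite k] (hr : 9 < p + q) (hpq : 9 * p ≤ p * q + 81)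
    (hP : Gen (Hs (Hs k)) p q P) (w : Fin (p + q) → ℕ) (d : ℕ) (F : MvPolynomial (Fin 3) k)
    (hF : F.IsHomogeneous d) (hF0 : F ≠ 0)
    (hw : ∀ i, F ∈ (Ideal.span {X 1 - C (P i 0) * X 0, X 2 - C (P i 1) * X 0} :
      Ideal (MvPolynomial (Fin 3) k)) ^ (w i)) : ∑ i, wt p q i * (w i : ℝ) ≤ d := by
  have hw' : ∀ i, Pool.Agent.Y206.MultAt (homC P i) F (w i) := fun i => multAt_of_mem (hw i)
  by_cases h : (p : ℝ) ≤ 3 * Real.sqrt ((p : ℝ) + q)
  · have e : ∀ i : Fin (p + q), wt p q i = 1 / Real.sqrt ((p : ℝ) + q) := by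
      intro i
      unfold wt
      rw [if_pos h]
    have hr' : (9 : ℝ) < (p : ℝ) + q := by exact_mod_cast hr
    have hs : 0 < Real.sqrt ((p : ℝ) + q) := Real.sqrt_pos.2 (by linarith)
    have h1 := ineqA hP hr.le h hF hF0 hw'
    rw [Finset.sum_congr rfl fun i _ => by rw [e i], ← Finset.mul_sum, one_div,
      inv_mul_le_iff₀ hs]
    exact h1
  · obtain ⟨h9, hq, h1, h2⟩ := caseB_facts hr hpq h
    have h9' : (0 : ℝ) < (p : ℝ) - 9 := by
      have : (9 : ℝ) < p := by exact_mod_cast h9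
      linarith
    have hp0 : (0 : ℝ) < p := by linarith
    have hq0 : (0 : ℝ) < q := by exact_mod_cast hq
    rw [Fin.sum_univ_add]
    have e1 : ∀ i : Fin p, wt p q (Fin.castAdd q i) = 3 / p := by
      intro i
      unfold wt
      rw [if_neg h, if_pos (by simp)]
    have e2 : ∀ j : Fin q, wt p q (Fin.natAdd p j) = Real.sqrt ((p - 9) / ((p : ℝ) * q)) := by
      intro j
      unfold wt
      rw [if_neg h, if_neg (by simp)]
    simp only [e1, e2]
    rw [← Finset.mul_sum, ← Finset.mul_sum]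
    have h3 := ineqB hP h9 h2 hpq hF hF0 hw'
    have hu : 0 < Real.sqrt ((p : ℝ) * q / (p - 9)) := Real.sqrt_pos.2 (by positivity)
    have e3 : Real.sqrt ((p - 9) / ((p : ℝ) * q)) = (Real.sqrt ((p : ℝ) * q / (p - 9)))⁻¹ := by
      rw [← Real.sqrt_inv, inv_div]
    rw [e3]
    obtain ⟨v, hv⟩ : ∃ v, v = Real.sqrt ((p : ℝ) * q / (p - 9)) := ⟨_, rfl⟩
    rw [← hv] at h3 hu ⊢
    have h4 : v * (3 / p * ∑ i : Fin p, (w (Fin.castAdd q i) : ℝ) +
        v⁻¹ * ∑ j : Fin q, (w (Fin.natAdd p j) : ℝ)) ≤ v * d := by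
      have e4 : v * (3 / p * ∑ i : Fin p, (w (Fin.castAdd q i) : ℝ) +
        v⁻¹ * ∑ j : Fin q, (w (Fin.natAdd p j) : ℝ)) =
        3 * v / p * ∑ i : Fin p, (w (Fin.castAdd q i) : ℝ) +
        ∑ j : Fin q, (w (Fin.natAdd p j) : ℝ) := by
        field_simp
      rw [e4]
      exact h3
    exact le_of_mul_le_mul_left h4 hu

/-- one multiplicity -/
theorem alp_lower [Infinite k] (hr : 9 < p + q) (hpq : 9 * p ≤ p * q + 81)
    (hP : Gen (Hs (Hs k)) p q P) (m : ℕ) : (m : ℝ) * Ec p q ≤ alp P m := by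
  obtain ⟨F, hF, hF0, hw⟩ := hasForm_alp P m
  have h := weighted hr hpq hP (fun _ => m) _ F hF hF0 hw
  rw [← Finset.sum_mul, sum_wt hr hpq] at h
  linarith

/-- the Waldschmidt constant -/
theorem wald_lim [Infinite k] (hr : 9 < p + q) (hpq : 9 * p ≤ p * q + 81)
    (hP : Gen (Hs (Hs k)) p q P)
    (H1 : ∃ G : MvPolynomial (Fin 3) k, G.IsHomogeneous 3 ∧ G ≠ 0 ∧
      ∀ i : Fin (p + q), i.val < p →
        G ∈ (Ideal.span {X 1 - C (P i 0) * X 0, X 2 - C (P i 1) * X 0} :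
          Ideal (MvPolynomial (Fin 3) k)) ^ 1) :
    Tendsto (fun m : ℕ => (alp P m : ℝ) / m) atTop (𝓝 (Ec p q)) := by
  obtain ⟨e, he1, he2, he3⟩ := exists_wald P (c := Ec p q)
    (fun m _ => by rw [mul_comm]; exact alp_lower hr hpq hP m)
  have he4 : e ≤ Ec p q := by
    by_cases h : (p : ℝ) ≤ 3 * Real.sqrt ((p : ℝ) + q)
    · unfold Ec
      rw [if_pos h]
      push_cast at he3
      exact he3
    · obtain ⟨h9, hq, h1, h2⟩ := caseB_facts hr hpq h
      obtain ⟨G, hG, hG0, hGi⟩ := H1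
      have hE : Ec p q = 3 + Real.sqrt ((q : ℝ) * (p - 9) / p) := by
        unfold Ec
        rw [if_neg h]
      rw [hE]
      obtain ⟨c, hc⟩ : ∃ c, c = 3 + Real.sqrt ((q : ℝ) * (p - 9) / p) := ⟨_, rfl⟩
      rw [← hc]
      have h3 : Tendsto (fun m : ℕ => c + ((p : ℝ) + q + 6) / (m : ℝ)) atTop (𝓝 (c + 0)) :=
        tendsto_const_nhds.add (tendsto_const_div_atTop_nhds_zero_nat _)
      rw [add_zero] at h3
      refine le_of_tendsto_of_tendsto he1 h3 ?_
      filter_upwards [eventually_gt_atTop 0] with m hm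
      have hmR : (0 : ℝ) < m := by exact_mod_cast hm
      rw [div_le_iff₀ hmR, add_mul, div_mul_cancel₀ _ hmR.ne']
      have h4 := alp_upper h9 hq h1 hG hG0 hGi m
      rw [← hc] at h4
      exact h4
  rwa [le_antisymm he4 he2] at he1

end

end Pool.Agent.KS6_83.NC
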