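import Pool.Graph.R_pool_sql_team_seeded_1acbe0a2.Y206.V.Red2
import Pool.Graph.R_pool_sql_team_seeded_1acbe0a2.Y206.V.Base

set_option autoImplicit false
set_option linter.unusedSectionVars false
set_option linter.unusedVariables false

/-!
# Hahn series with real exponents over a field, and parts of least order
-/

namespace Pool.Agent.KS6_83.NC

open Pool.Agent.Y206 Pool.Agent.Y206.V HahnSeries

universe u

/-- Hahn series with real exponents -/
abbrev Hs (κ : Type u) [Field κ] := HahnSeries ℝ κ

variable {κ : Type u} [Field κ]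

/-- the valuation of the Hahn series field -/
noncomputable def vH (κ : Type u) [Field κ] : Val (Hs κ) where
  v c := pt c.order 0
  mul' := by
    intro x y hx hy
    rw [HahnSeries.order_mul hx hy]
    exact gam_ext (by simp) (by simp)
  add' := by
    intro x y hx hy hxy
    have h1 := HahnSeries.min_order_le_order_add hxy
    have hmono : ∀ a b : ℝ, a ≤ b → pt a 0 ≤ pt b 0 := by
      intro a b hab
      rcases hab.lt_or_eq with h | h
      · exact (lt_of_r1_lt (a := pt a 0) (b := pt b 0) h).le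
      · rw [h]
    rcases le_total x.order y.order with h | h
    · rw [min_eq_left h] at h1
      exact (min_le_left _ _).trans (hmono _ _ h1)
    · rw [min_eq_right h] at h1
      exact (min_le_right _ _).trans (hmono _ _ h1)

theorem vH_apply (x : Hs κ) : (vH κ).v x = pt x.order 0 := rfl

theorem realVH : RealV (vH κ) := fun _ _ => rfl

theorem ctxsH : Ctxs (Hs κ) (vH κ) := ctxs_of_real realVH

/-- coefficient extraction -/
noncomputable def exx {ι : Type*} (c : ℝ) :
    AddMonoidAlgebra (Hs κ) ι →+ AddMonoidAlgebra κ ι :=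
  (AddMonoidAlgebra.coeffAddEquiv.symm.toAddMonoidHom.comp
    (Finsupp.mapRange.addMonoidHom (HahnSeries.coeff.addMonoidHom c))).comp
    AddMonoidAlgebra.coeffAddEquiv.toAddMonoidHom

theorem exx_coeff {ι : Type*} (c : ℝ) (P : AddMonoidAlgebra (Hs κ) ι) (p : ι) :
    (exx c P).coeff p = (P.coeff p).coeff c := rfl

theorem exx_single {ι : Type*} (c : ℝ) (p : ι) (u : Hs κ) :
    exx c (AddMonoidAlgebra.single p u) = AddMonoidAlgebra.single p (u.coeff c) := by
  simp [exx]

theorem exx_Dr (c : ℝ) (r : ℕ) (P : AddMonoidAlgebra (Hs κ) (ℤ × ℕ)) :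
    exx c (Dr r P) = Dr r (exx c P) := by
  induction P using AddMonoidAlgebra.induction_linear with
  | zero => simp
  | add P Q hP hQ => rw [map_add, map_add, hP, hQ, map_add, map_add]
  | single p u =>
    rw [Dr_single, exx_single, exx_single, Dr_single]
    congr 1
    have h : ((p.2.choose r : ℕ) : Hs κ) = HahnSeries.single (0 : ℝ) ((p.2.choose r : ℕ) : κ) :=
      (HahnSeries.single_zero_natCast (R := κ) (Γ := ℝ) _).symm
    rw [h, HahnSeries.coeff_mul_single_zero]

theorem exx_mul (c : ℝ) (q : κ) (P : AddMonoidAlgebra (Hs κ) ℤ) :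
    exx c ((AddMonoidAlgebra.single (1 : ℤ) (1 : Hs κ) -
      AddMonoidAlgebra.single (0 : ℤ) (HahnSeries.C q)) * P) =
    (AddMonoidAlgebra.single (1 : ℤ) (1 : κ) - AddMonoidAlgebra.single (0 : ℤ) q) * exx c P := by
  induction P using AddMonoidAlgebra.induction_linear with
  | zero => simp
  | add P Q hP hQ => rw [mul_add, map_add, hP, hQ, map_add, mul_add]
  | single p u =>
    rw [sub_mul, map_sub, AddMonoidAlgebra.single_mul_single, AddMonoidAlgebra.single_mul_single,
      exx_single, exx_single, exx_single, sub_mul, AddMonoidAlgebra.single_mul_single,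
      AddMonoidAlgebra.single_mul_single, one_mul, one_mul]
    congr 2
    change (HahnSeries.single (0 : ℝ) q * u).coeff c = _
    rw [HahnSeries.coeff_single_zero_mul]

theorem exx_dvd (c : ℝ) (q : κ) (n : ℕ) (P : AddMonoidAlgebra (Hs κ) ℤ)
    (h : (AddMonoidAlgebra.single (1 : ℤ) (1 : Hs κ) -
      AddMonoidAlgebra.single (0 : ℤ) (HahnSeries.C q)) ^ n ∣ P) :
    (AddMonoidAlgebra.single (1 : ℤ) (1 : κ) - AddMonoidAlgebra.single (0 : ℤ) q) ^ n ∣
      exx c P := by
  obtain ⟨S, rfl⟩ := h
  induction n generalizing S with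
  | zero => simp
  | succ n ih =>
    have e : (AddMonoidAlgebra.single (1 : ℤ) (1 : Hs κ) -
        AddMonoidAlgebra.single (0 : ℤ) (HahnSeries.C q)) ^ (n + 1) * S =
      (AddMonoidAlgebra.single (1 : ℤ) (1 : Hs κ) -
        AddMonoidAlgebra.single (0 : ℤ) (HahnSeries.C q)) *
      ((AddMonoidAlgebra.single (1 : ℤ) (1 : Hs κ) -
        AddMonoidAlgebra.single (0 : ℤ) (HahnSeries.C q)) ^ n * S) := by
      rw [pow_succ', mul_assoc]
    rw [e, exx_mul, pow_succ']
    exact mul_dvd_mul_left _ (ih S)

/-- the least order of the coefficients -/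
theorem exists_least {ι : Type*} {G : AddMonoidAlgebra (Hs κ) ι} (hG : G ≠ 0) :
    ∃ c0 : ℝ, (∀ p, G.coeff p ≠ 0 → c0 ≤ (G.coeff p).order) ∧ exx c0 G ≠ 0 ∧
      ∀ p, (exx c0 G).coeff p ≠ 0 → G.coeff p ≠ 0 ∧ (G.coeff p).order = c0 := by
  classical
  have hne : G.coeff.support.Nonempty := by
    rw [Finsupp.support_nonempty_iff]
    exact fun h => hG (AddMonoidAlgebra.coeff_eq_zero.1 h)
  obtain ⟨p, hp, hmin⟩ := Finset.exists_min_image G.coeff.support
    (fun p => (G.coeff p).order) hne
  refine ⟨(G.coeff p).order, fun q hq => hmin q (Finsupp.mem_support_iff.2 hq), ?_, ?_⟩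
  · intro h
    have h1 : (exx (G.coeff p).order G).coeff p = 0 := by rw [h]; rfl
    rw [exx_coeff] at h1
    exact (Finsupp.mem_support_iff.1 hp) (HahnSeries.coeff_order_eq_zero.1 h1)
  · intro q hq
    rw [exx_coeff] at hq
    have hq0 : G.coeff q ≠ 0 := by
      intro h
      rw [h] at hq
      exact hq rfl
    refine ⟨hq0, le_antisymm ?_ (hmin q (Finsupp.mem_support_iff.2 hq0))⟩
    exact HahnSeries.order_le_of_coeff_ne_zero hq

end Pool.Agent.KS6_83.NC
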