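import Pool.Agent.KS6_83.NC.Core

set_option autoImplicit false
set_option linter.unusedSectionVars false
set_option linter.unusedVariables false

/-!
# The inequalities at generic points with some points on a cubic
-/

namespace Pool.Agent.KS6_83.NC

open MvPolynomial Pool.Agent.Y206 Pool.Agent.Y206.V

universe u v w

/-- generic points with the first `p` points on a cubic satisfy the transfer property -/
theorem gen_of {F : Type v} {k : Type u} [Field F] [Field k] [Algebra F k] {K : Type w} [Field K]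
    [Algebra F K] {p q : ℕ} {P : Fin (p + q) → Fin 2 → k}
    (H2 : AlgebraicIndependent F (fun z : {z : Fin (p + q) × Fin 2 //
      z.2 = 0 ∨ z.1.val < 9 ∨ p ≤ z.1.val} => P z.1.1 z.1.2))
    (H1 : ∃ G : MvPolynomial (Fin 3) k, G.IsHomogeneous 3 ∧ G ≠ 0 ∧
      ∀ i : Fin (p + q), i.val < p →
        G ∈ (Ideal.span {X 1 - C (P i 0) * X 0, X 2 - C (P i 1) * X 0} :
          Ideal (MvPolynomial (Fin 3) k)) ^ 1) : Gen K p q P := by
  intro a' z x t hzx D hD
  by_cases hp : 9 ≤ p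
  · obtain ⟨G, hG, h0, hQ⟩ := H1
    exact trans_big hp H2 hG h0 (fun i hi => eval_of_mem (hQ i hi)) t hzx D hD
  · refine trans_small (F := F) (P := P) ?_ (spP z x t) D hD
    have h1 := H2.comp (fun z : Fin (p + q) × Fin 2 =>
      (⟨z, Or.inr (by
        rcases lt_or_ge z.1.val 9 with h | h
        · exact Or.inl h
        · exact Or.inr (by omega))⟩ :
        {z : Fin (p + q) × Fin 2 // z.2 = 0 ∨ z.1.val < 9 ∨ p ≤ z.1.val})) (by
      intro a b h
      exact congrArg Subtype.val h)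
    exact h1

/-- generic points with the first `p` points on a cubic satisfy the transfer property -/
theorem gen_of' {k : Type u} [Field k] {p q : ℕ} {P : Fin (p + q) → Fin 2 → k}
    (H2 : AlgebraicIndependent (⊥ : Subfield k) (fun z : {z : Fin (p + q) × Fin 2 //
      z.2 = 0 ∨ z.1.val < 9 ∨ p ≤ z.1.val} => P z.1.1 z.1.2))
    (H1 : ∃ G : MvPolynomial (Fin 3) k, G.IsHomogeneous 3 ∧ G ≠ 0 ∧
      ∀ i : Fin (p + q), i.val < p →
        G ∈ (Ideal.span {X 1 - C (P i 0) * X 0, X 2 - C (P i 1) * X 0} :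
          Ideal (MvPolynomial (Fin 3) k)) ^ 1) : Gen (Hs (Hs k)) p q P := by
  let : Algebra (⊥ : Subfield k) (Hs (Hs k)) :=
    (((HahnSeries.C : Hs k →+* Hs (Hs k)).comp (HahnSeries.C : k →+* Hs k)).comp
      (⊥ : Subfield k).subtype).toAlgebra
  exact gen_of (F := (⊥ : Subfield k)) (k := k) (K := Hs (Hs k)) H2 H1

theorem exists_beta {κ : ℝ} (hκ : Irrational κ) (h9 : 9 ≤ κ) :
    ∃ (β : ℝ) (kk : ℕ), 0 < β ∧ β < 3 / 7 ∧ Irrational β ∧ κ = 6 + kk - 3 * β := by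
  obtain ⟨n, hn⟩ : ∃ n : ℕ, n = ⌊κ⌋₊ := ⟨_, rfl⟩
  have h1 : (n : ℝ) ≤ κ := by rw [hn]; exact Nat.floor_le (by linarith)
  have h2 : κ < n + 1 := by rw [hn]; exact Nat.lt_floor_add_one κ
  have h3 : 9 ≤ n := by rw [hn]; exact Nat.le_floor (by exact_mod_cast h9)
  obtain ⟨kk, rfl⟩ : ∃ kk, n = kk + 5 := ⟨n - 5, by omega⟩
  push_cast at h1 h2
  refine ⟨((kk : ℝ) + 6 - κ) / 3, kk, by linarith, by linarith, ?_, by ring⟩
  intro h
  obtain ⟨q, hq⟩ := h
  apply hκ
  refine ⟨(kk : ℚ) + 6 - 3 * q, ?_⟩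
  push_cast
  rw [hq]
  ring

theorem lim_irr {A B a b : ℝ} (hab : a < b)
    (h : ∀ κ, Irrational κ → a < κ → κ < b → A * κ + B ≤ 0) : A * a + B ≤ 0 := by
  by_contra hcon
  rw [not_le] at hcon
  have h1 : 0 < (A * a + B) / (|A| + 1) := div_pos hcon (by positivity)
  obtain ⟨κ, h2, h3, h4⟩ := exists_irrational_btwn
    (show a < min b (a + (A * a + B) / (|A| + 1)) from lt_min hab (by linarith))
  have h5 := h κ h2 h3 (h4.trans_le (min_le_left _ _))
  have h6 : κ - a < (A * a + B) / (|A| + 1) := by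
    have := h4.trans_le (min_le_right _ _)
    linarith
  rw [lt_div_iff₀ (by positivity)] at h6
  have h7 : -|A| * (κ - a) ≤ A * (κ - a) :=
    mul_le_mul_of_nonneg_right (neg_abs_le A) (by linarith)
  nlinarith

section

variable {k : Type u} [Field k] [Infinite k] {p q : ℕ} {P : Fin (p + q) → Fin 2 → k}

/-- few points on the cubic -/
theorem ineqA (hP : Gen (Hs (Hs k)) p q P) (hr : 9 ≤ p + q)
    (hp : (p : ℝ) ≤ 3 * Real.sqrt ((p : ℝ) + q)) {w : Fin (p + q) → ℕ} {d : ℕ}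
    {F : MvPolynomial (Fin 3) k} (hF : F.IsHomogeneous d) (hF0 : F ≠ 0)
    (hw : ∀ i, MultAt (homC P i) F (w i)) :
    ∑ i, (w i : ℝ) ≤ Real.sqrt ((p : ℝ) + q) * d := by
  have hr' : (9 : ℝ) ≤ (p : ℝ) + q := by exact_mod_cast hr
  have h3 : (3 : ℝ) ≤ Real.sqrt ((p : ℝ) + q) := by
    apply Real.le_sqrt_of_sq_le
    linarith
  have hs := Real.sq_sqrt (show (0 : ℝ) ≤ (p : ℝ) + q by positivity)
  have hmain := lim_irr (A := -((d : ℝ) / 3)) (B := ∑ i, (w i : ℝ))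
    (a := 3 * Real.sqrt ((p : ℝ) + q)) (b := 3 * Real.sqrt ((p : ℝ) + q) + 1) (by linarith) (by
      intro κ hκ h1 h2
      obtain ⟨β, kk, b0, b1, b2, b3⟩ := exists_beta hκ (by linarith)
      have h4 := critP b0 b1 b2 kk hP hF hF0 hw
      have h5 := numA b3 (by linarith) (by linarith) (by nlinarith) h4
      rw [Fin.sum_univ_add]
      linarith)
  linarith

/-- many points on the cubic -/
theorem ineqB (hP : Gen (Hs (Hs k)) p q P) (h9 : 9 < p)
    (hp : 3 * Real.sqrt ((p : ℝ) + q) < p) (hpq : 9 * p ≤ p * q + 81)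
    {w : Fin (p + q) → ℕ} {d : ℕ}
    {F : MvPolynomial (Fin 3) k} (hF : F.IsHomogeneous d) (hF0 : F ≠ 0)
    (hw : ∀ i, MultAt (homC P i) F (w i)) :
    3 * Real.sqrt ((p : ℝ) * q / (p - 9)) / p * ∑ i : Fin p, (w (Fin.castAdd q i) : ℝ) +
      ∑ j : Fin q, (w (Fin.natAdd p j) : ℝ) ≤ Real.sqrt ((p : ℝ) * q / (p - 9)) * d := by
  have h9' : (0 : ℝ) < (p : ℝ) - 9 := by
    have : (9 : ℝ) < p := by exact_mod_cast h9
    linarith
  have hp0 : (0 : ℝ) < p := by linarith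
  have hpq' : 9 * (p : ℝ) ≤ p * q + 81 := by exact_mod_cast hpq
  obtain ⟨u, hu⟩ : ∃ u, u = Real.sqrt ((p : ℝ) * q / (p - 9)) := ⟨_, rfl⟩
  have hu0 : 0 ≤ u := by rw [hu]; exact Real.sqrt_nonneg _
  have hu2 : u ^ 2 = (p : ℝ) * q / (p - 9) := by
    rw [hu]; exact Real.sq_sqrt (by positivity)
  have hu2' : u ^ 2 * (p - 9) = (p : ℝ) * q := by
    rw [hu2]; field_simp
  have hu3 : 3 ≤ u := by
    rw [hu]
    apply Real.le_sqrt_of_sq_le
    rw [le_div_iff₀ h9']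
    linarith
  have hr2 : 9 * ((p : ℝ) + q) < p ^ 2 := by
    have hs := Real.sq_sqrt (show (0 : ℝ) ≤ (p : ℝ) + q by positivity)
    have hs0 := Real.sqrt_nonneg ((p : ℝ) + q)
    nlinarith
  have hup : 3 * u < p := by
    have h1 : (3 * u) ^ 2 * (p - 9) < (p : ℝ) ^ 2 * (p - 9) := by
      have : (3 * u) ^ 2 * (p - 9) = 9 * (u ^ 2 * (p - 9)) := by ring
      rw [this, hu2']
      nlinarith
    have h2 : (3 * u) ^ 2 < (p : ℝ) ^ 2 := lt_of_mul_lt_mul_right h1 h9'.le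
    exact lt_of_pow_lt_pow_left₀ 2 hp0.le h2
  rw [← hu]
  have hmain := lim_irr (A := (1 : ℝ) / p * ∑ i : Fin p, (w (Fin.castAdd q i) : ℝ) - (d : ℝ) / 3)
    (B := ∑ j : Fin q, (w (Fin.natAdd p j) : ℝ)) (a := 3 * u) (b := p) hup (by
      intro κ hκ h1 h2
      obtain ⟨β, kk, b0, b1, b2, b3⟩ := exists_beta hκ (by linarith)
      have h4 := critP b0 b1 b2 kk hP hF hF0 hw
      have h6 : 9 * ((p : ℝ) * q) ≤ κ ^ 2 * (p - 9) := by
        have h7 : (3 * u) ^ 2 ≤ κ ^ 2 := pow_le_pow_left₀ (by positivity) h1.le 2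
        have h8 := mul_le_mul_of_nonneg_right h7 h9'.le
        have h9 : (3 * u) ^ 2 * (p - 9) = 9 * (u ^ 2 * (p - 9)) := by ring
        rw [h9, hu2'] at h8
        exact h8
      have h5 := numB b3 (by linarith) (by linarith) (by linarith) h4
      have e : ((1 : ℝ) / p * ∑ i : Fin p, (w (Fin.castAdd q i) : ℝ) - (d : ℝ) / 3) * κ =
        κ / p * ∑ i : Fin p, (w (Fin.castAdd q i) : ℝ) - κ / 3 * d := by ring
      rw [e]
      linarith)
  have e : ((1 : ℝ) / p * ∑ i : Fin p, (w (Fin.castAdd q i) : ℝ) - (d : ℝ) / 3) * (3 * u) =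
    3 * u / p * ∑ i : Fin p, (w (Fin.castAdd q i) : ℝ) - u * d := by ring
  rw [e] at hmain
  linarith

end

end Pool.Agent.KS6_83.NC
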