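import Pool.Agent.KS6_83.NC.ChainF

set_option autoImplicit false
set_option linter.unusedSectionVars false
set_option linter.unusedVariables false

/-!
# Degree three of generic points on a cubic without lines
-/

namespace Pool.Agent.KS6_83.NC

open Polynomial

universe u v

section Cub

variable {R : Type u} [CommRing R]

/-- the monic cubic polynomial in the second coordinate with the coefficients `a`, at `x` -/
noncomputable def cubY (a : Fin 9 → R) (x : R) : R[X] :=
  X ^ 3 + (C (a 0 + a 1 * x) * X ^ 2 + C (a 2 + a 3 * x + a 4 * x ^ 2) * X +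
    C (a 5 + a 6 * x + a 7 * x ^ 2 + a 8 * x ^ 3))

theorem cubY_monic (a : Fin 9 → R) (x : R) : (cubY a x).Monic :=
  monic_X_pow_add (lt_of_le_of_lt degree_quadratic_le (by norm_num))

theorem cubY_natDegree [Nontrivial R] (a : Fin 9 → R) (x : R) : (cubY a x).natDegree = 3 :=
  natDegree_eq_of_degree_eq_some (by
    unfold cubY
    rw [degree_add_eq_left_of_degree_lt]
    · exact degree_X_pow 3
    · rw [degree_X_pow]
      exact lt_of_le_of_lt degree_quadratic_le (by norm_num))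

theorem cubY_map {S : Type v} [CommRing S] (f : R →+* S) (a : Fin 9 → R) (x : R) :
    (cubY a x).map f = cubY (fun l => f (a l)) (f x) := by
  simp [cubY]

theorem cubY_eval₂ {S : Type v} [CommRing S] (f : R →+* S) (a : Fin 9 → R) (x : R) (y : S) :
    (cubY a x).eval₂ f y = y ^ 3 + ((f (a 0) + f (a 1) * f x) * y ^ 2 +
      (f (a 2) + f (a 3) * f x + f (a 4) * f x ^ 2) * y +
      (f (a 5) + f (a 6) * f x + f (a 7) * f x ^ 2 + f (a 8) * f x ^ 3)) := by
  simp [cubY, eval₂_add, eval₂_mul, eval₂_pow]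

theorem cubY_eval (a : Fin 9 → R) (x y : R) :
    (cubY a x).eval y = y ^ 3 + ((a 0 + a 1 * x) * y ^ 2 +
      (a 2 + a 3 * x + a 4 * x ^ 2) * y +
      (a 5 + a 6 * x + a 7 * x ^ 2 + a 8 * x ^ 3)) := by
  simp [cubY]

end Cub

theorem root_degree {R : Type u} [CommRing R] [IsDomain R] (a : Fin 9 → R) {A : R[X]}
    (h : (cubY (fun l => C (a l)) X).eval A = 0) : A.natDegree ≤ 1 := by
  by_contra hlt
  rw [not_le] at hlt
  rw [cubY_eval] at h
  obtain ⟨n, hn⟩ : ∃ n, n = A.natDegree := ⟨_, rfl⟩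
  have h1 : (A ^ 3).natDegree = 3 * n := by rw [natDegree_pow, hn]
  have hA2 : (A ^ 2).natDegree ≤ 2 * n := by rw [natDegree_pow, hn]
  have d1 : (C (a 0) + C (a 1) * X : R[X]).natDegree ≤ 1 := by compute_degree
  have d2 : (C (a 2) + C (a 3) * X + C (a 4) * X ^ 2 : R[X]).natDegree ≤ 2 := by compute_degree
  have d3 : (C (a 5) + C (a 6) * X + C (a 7) * X ^ 2 + C (a 8) * X ^ 3 : R[X]).natDegree ≤ 3 := by
    compute_degree
  have e1 : ((C (a 0) + C (a 1) * X) * A ^ 2).natDegree ≤ 1 + 2 * n :=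
    natDegree_mul_le.trans (add_le_add d1 hA2)
  have e2 : ((C (a 2) + C (a 3) * X + C (a 4) * X ^ 2) * A).natDegree ≤ 2 + n :=
    natDegree_mul_le.trans (add_le_add d2 (le_of_eq hn.symm))
  have e3 : ((C (a 0) + C (a 1) * X) * A ^ 2 + (C (a 2) + C (a 3) * X + C (a 4) * X ^ 2) * A +
      (C (a 5) + C (a 6) * X + C (a 7) * X ^ 2 + C (a 8) * X ^ 3)).natDegree < 3 * n := by
    refine lt_of_le_of_lt (natDegree_add_le _ _) (max_lt (lt_of_le_of_lt (natDegree_add_le _ _)
      (max_lt ?_ ?_)) ?_)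
    · omega
    · omega
    · omega
  have h2 : A ^ 3 = -((C (a 0) + C (a 1) * X) * A ^ 2 + (C (a 2) + C (a 3) * X +
      C (a 4) * X ^ 2) * A + (C (a 5) + C (a 6) * X + C (a 7) * X ^ 2 + C (a 8) * X ^ 3)) := by
    linear_combination h
  have h3 := congrArg natDegree h2
  rw [natDegree_neg, h1] at h3
  omega

/-- **Degree three.** -/
theorem li {k : Type u} [Field k] (L : Subfield k) {x : k}
    (hx : ∀ p : k[X], (∀ i, p.coeff i ∈ L) → p.eval x = 0 → p = 0) (a : Fin 9 → k)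
    (ha : ∀ l, a l ∈ L)
    (hlin : ∀ u v : k, (cubY (fun l => C (a l)) X).eval (C u * X + C v : k[X]) ≠ 0)
    {y : k} (hy : (cubY a x).eval y = 0) :
    ∃ E : Subfield k, (∀ z ∈ L, z ∈ E) ∧ x ∈ E ∧
      ∀ r0 ∈ E, ∀ r1 ∈ E, ∀ r2 ∈ E, r0 + r1 * y + r2 * y ^ 2 = 0 →
        r0 = 0 ∧ r1 = 0 ∧ r2 = 0 := by
  classical
  have hinj : Function.Injective ((aeval x : L[X] →ₐ[L] k) : L[X] →+* k) := by
    rw [injective_iff_map_eq_zero]
    intro P hP
    have h1 : P.map L.subtype = 0 := by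
      apply hx
      · intro i
        rw [coeff_map]
        exact (P.coeff i).2
      · rw [eval_map]
        exact hP
    exact (Polynomial.map_eq_zero_iff L.subtype.injective).1 h1
  obtain ⟨φ, hφ⟩ : ∃ φ : FractionRing L[X] →+* k, φ = IsFractionRing.lift hinj := ⟨_, rfl⟩
  have hφa : ∀ P : L[X], φ (algebraMap L[X] _ P) = aeval x P := by
    intro P
    rw [hφ, IsFractionRing.lift_algebraMap]
    rfl
  refine ⟨φ.fieldRange, ?_, ?_, ?_⟩
  · intro z hz
    refine ⟨algebraMap L[X] _ (C ⟨z, hz⟩), ?_⟩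
    rw [hφa, aeval_C]
    rfl
  · refine ⟨algebraMap L[X] _ X, ?_⟩
    rw [hφa, aeval_X]
  rintro _ ⟨s0, rfl⟩ _ ⟨s1, rfl⟩ _ ⟨s2, rfl⟩ hs
  let : Algebra (FractionRing L[X]) k := φ.toAlgebra
  have hal : ∀ z, algebraMap (FractionRing L[X]) k z = φ z := fun _ => rfl
  obtain ⟨a', ha'⟩ : ∃ a' : Fin 9 → L, ∀ l, ((a' l : L) : k) = a l :=
    ⟨fun l => ⟨a l, ha l⟩, fun l => rfl⟩
  obtain ⟨p, hp⟩ : ∃ p : (L[X])[X], p = cubY (fun l => C (a' l)) X := ⟨_, rfl⟩
  have hpm : p.Monic := by rw [hp]; exact cubY_monic _ _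
  have hpd : p.natDegree = 3 := by rw [hp]; exact cubY_natDegree _ _
  obtain ⟨G0, hG0⟩ : ∃ G0, G0 = p.map (algebraMap L[X] (FractionRing L[X])) := ⟨_, rfl⟩
  have hG0m : G0.Monic := by rw [hG0]; exact hpm.map _
  have hG0d : G0.natDegree = 3 := by rw [hG0, hpm.natDegree_map, hpd]
  have hG0y : aeval y G0 = 0 := by
    rw [aeval_def, hG0, eval₂_map, hp, cubY_eval₂]
    simp only [RingHom.comp_apply, hal, hφa, aeval_C, aeval_X]
    rw [cubY_eval] at hy
    have e2 : ∀ l, algebraMap L k (a' l) = a l := fun l => ha' l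
    simp only [e2]
    exact hy
  have hirr : Irreducible G0 := by
    rw [hG0m.irreducible_iff_roots_eq_zero_of_degree_le_three (by omega) (by omega)]
    rw [Multiset.eq_zero_iff_forall_notMem]
    intro ρ hρ
    rw [mem_roots hG0m.ne_zero, IsRoot.def, hG0, eval_map] at hρ
    obtain ⟨A, hA⟩ := isInteger_of_is_root_of_monic hpm (r := ρ) hρ
    rw [← hA] at hρ
    have h1 : p.eval A = 0 := by
      apply IsFractionRing.injective L[X] (FractionRing L[X])
      rw [map_zero, ← hρ, ← eval₂_at_apply]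
    rw [hp] at h1
    have h2 := root_degree a' h1
    obtain ⟨v, u, hA2⟩ := exists_eq_X_add_C_of_natDegree_le_one h2
    apply hlin (v : k) (u : k)
    have h3 := congrArg (Polynomial.map L.subtype) h1
    rw [Polynomial.map_zero, ← coe_mapRingHom, ← eval₂_at_apply, ← eval_map,
      cubY_map] at h3
    rw [hA2] at h3
    simpa [ha'] using h3
  have hmin := minpoly.eq_of_irreducible_of_monic hirr hG0y hG0m
  by_contra hcon
  obtain ⟨S, hS⟩ : ∃ S : (FractionRing L[X])[X], S = C s2 * X ^ 2 + C s1 * X + C s0 := ⟨_, rfl⟩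
  have hS0 : S ≠ 0 := by
    intro h0
    apply hcon
    have c0 : S.coeff 0 = s0 := by rw [hS]; simp
    have c1 : S.coeff 1 = s1 := by rw [hS]; simp [coeff_C]
    have c2 : S.coeff 2 = s2 := by rw [hS]; simp
    rw [h0, coeff_zero] at c0 c1 c2
    rw [← c0, ← c1, ← c2, map_zero]
    exact ⟨rfl, rfl, rfl⟩
  have hSy : aeval y S = 0 := by
    rw [hS]
    simp only [map_add, map_mul, aeval_C, map_pow, aeval_X, hal]
    rw [← hs]; ring
  have h4 := minpoly.degree_le_of_ne_zero (FractionRing L[X]) y hS0 hSy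
  rw [← hmin, degree_eq_natDegree hG0m.ne_zero, hG0d] at h4
  have h5 : S.degree ≤ 2 := by rw [hS]; exact degree_quadratic_le
  have h6 := h4.trans h5
  norm_cast at h6

end Pool.Agent.KS6_83.NC
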