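import Pool.Agent.KS6_83.NC.Hahn

set_option autoImplicit false
set_option linter.unusedSectionVars false
set_option linter.unusedVariables false

/-!
# Taylor rows of Laurent polynomials
-/

namespace Pool.Agent.KS6_83.NC

open Pool.Agent.Y206 Pool.Agent.Y206.V HahnSeries

universe u

section D

variable {R : Type*} [CommRing R]

/-- the divided derivative of order `r` with respect to the second variable, at `y` -/
noncomputable def Dy (y : R) (r : ℕ) : AddMonoidAlgebra R (ℤ × ℕ) →+ AddMonoidAlgebra R ℤ :=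
  (Finsupp.liftAddHom (fun p : ℤ × ℕ =>
    (AddMonoidAlgebra.singleAddHom p.1).comp
      (AddMonoidHom.mulRight ((p.2.choose r : R) * y ^ (p.2 - r))))).comp
    AddMonoidAlgebra.coeffAddEquiv.toAddMonoidHom

theorem Dy_single (y : R) (r : ℕ) (p : ℤ × ℕ) (c : R) :
    Dy y r (AddMonoidAlgebra.single p c) =
      AddMonoidAlgebra.single p.1 (c * ((p.2.choose r : R) * y ^ (p.2 - r))) := by
  simp [Dy]

theorem Dy_T_mul (y : R) (r : ℕ) (h : ℤ) (u : R) (P : AddMonoidAlgebra R (ℤ × ℕ)) :
    Dy y r (AddMonoidAlgebra.single (h, 0) u * P) = AddMonoidAlgebra.single h u * Dy y r P := by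
  induction P using AddMonoidAlgebra.induction_linear with
  | zero => simp
  | add P Q hP hQ => rw [mul_add, map_add, hP, hQ, map_add, mul_add]
  | single p c =>
    rw [AddMonoidAlgebra.single_mul_single, Dy_single, Dy_single,
      AddMonoidAlgebra.single_mul_single]
    simp only [Prod.fst_add, Prod.snd_add, zero_add]
    rw [mul_assoc]

theorem Dy_Y_mul (y : R) (r : ℕ) (P : AddMonoidAlgebra R (ℤ × ℕ)) :
    Dy y (r + 1) (AddMonoidAlgebra.single (0, 1) 1 * P) =
      AddMonoidAlgebra.single 0 y * Dy y (r + 1) P + Dy y r P := by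
  induction P using AddMonoidAlgebra.induction_linear with
  | zero => simp
  | add P Q hP hQ => rw [mul_add, map_add, hP, hQ, map_add, map_add]; ring
  | single p c =>
    rw [AddMonoidAlgebra.single_mul_single, Dy_single, Dy_single, Dy_single,
      AddMonoidAlgebra.single_mul_single]
    simp only [Prod.fst_add, Prod.snd_add, zero_add, one_mul]
    rw [← AddMonoidAlgebra.single_add]
    congr 1
    rw [add_comm 1 p.2, Nat.choose_succ_succ, Nat.cast_add]
    rcases Nat.lt_or_ge p.2 (r + 1) with h | h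
    · rw [Nat.choose_eq_zero_of_lt h]
      have e : p.2 + 1 - (r + 1) = p.2 - r := by omega
      rw [e]
      simp
    · have e : p.2 + 1 - (r + 1) = p.2 - r := by omega
      have e2 : p.2 - r = (p.2 - (r + 1)) + 1 := by omega
      rw [e, e2, pow_succ]
      ring

theorem Dy_Y_mul_zero (y : R) (P : AddMonoidAlgebra R (ℤ × ℕ)) :
    Dy y 0 (AddMonoidAlgebra.single (0, 1) 1 * P) = AddMonoidAlgebra.single 0 y * Dy y 0 P := by
  induction P using AddMonoidAlgebra.induction_linear with
  | zero => simp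
  | add P Q hP hQ => rw [mul_add, map_add, hP, hQ, map_add, mul_add]
  | single p c =>
    rw [AddMonoidAlgebra.single_mul_single, Dy_single, Dy_single,
      AddMonoidAlgebra.single_mul_single]
    simp only [Prod.fst_add, Prod.snd_add, zero_add, one_mul, Nat.choose_zero_right,
      Nat.cast_one, Nat.sub_zero]
    rw [_root_.pow_add, pow_one]
    congr 1
    ring

theorem Dy_dvd (t y : R) (m : ℕ) : ∀ P ∈ JJ2 t y ^ m, ∀ r,
    (AddMonoidAlgebra.single (1 : ℤ) (1 : R) - AddMonoidAlgebra.single (0 : ℤ) t) ^ (m - r) ∣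
      Dy y r P := by
  induction m with
  | zero => intro P _ r; simp
  | succ m ih =>
    intro P hP r
    rw [pow_succ'] at hP
    refine Submodule.mul_induction_on hP ?_ ?_
    · intro a ha b hb
      obtain ⟨u, v, rfl⟩ := Ideal.mem_span_pair.1 ha
      have h1 : (u * (AddMonoidAlgebra.single ((1 : ℤ), (0 : ℕ)) (1 : R) -
          AddMonoidAlgebra.single ((0 : ℤ), (0 : ℕ)) t) +
          v * (AddMonoidAlgebra.single ((0 : ℤ), (1 : ℕ)) (1 : R) -
          AddMonoidAlgebra.single ((0 : ℤ), (0 : ℕ)) y)) * b =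
          AddMonoidAlgebra.single ((1 : ℤ), (0 : ℕ)) (1 : R) * (u * b) -
          AddMonoidAlgebra.single ((0 : ℤ), (0 : ℕ)) t * (u * b) +
          (AddMonoidAlgebra.single ((0 : ℤ), (1 : ℕ)) (1 : R) * (v * b) -
          AddMonoidAlgebra.single ((0 : ℤ), (0 : ℕ)) y * (v * b)) := by ring
      rw [h1, map_add, map_sub, map_sub, Dy_T_mul, Dy_T_mul, Dy_T_mul, ← sub_mul]
      have hub : u * b ∈ JJ2 t y ^ m := Ideal.mul_mem_left _ _ hb
      have hvb : v * b ∈ JJ2 t y ^ m := Ideal.mul_mem_left _ _ hb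
      refine dvd_add ?_ ?_
      · refine dvd_trans (pow_dvd_pow _ (show m + 1 - r ≤ (m - r) + 1 by omega)) ?_
        rw [pow_succ']
        exact mul_dvd_mul_left _ (ih _ hub r)
      · rcases r with _ | r
        · rw [Dy_Y_mul_zero, sub_self]
          exact dvd_zero _
        · rw [Dy_Y_mul, add_sub_cancel_left, Nat.add_sub_add_right]
          exact ih _ hvb r
    · intro x y hx hy
      rw [map_add]
      exact dvd_add hx hy

theorem Dy_zero_coeff (r : ℕ) (P : AddMonoidAlgebra R (ℤ × ℕ)) (h : ℤ) :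
    (Dy 0 r P).coeff h = P.coeff (h, r) := by
  induction P using AddMonoidAlgebra.induction_linear with
  | zero => simp
  | add P Q hP hQ =>
    rw [map_add, AddMonoidAlgebra.coeff_add, Finsupp.add_apply, hP, hQ,
      AddMonoidAlgebra.coeff_add, Finsupp.add_apply]
  | single p c =>
    rw [Dy_single, AddMonoidAlgebra.coeff_single, AddMonoidAlgebra.coeff_single,
      Finsupp.single_apply, Finsupp.single_apply]
    by_cases hp : p = (h, r)
    · rw [if_pos (congrArg Prod.fst hp), if_pos hp, hp]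
      simp
    · rw [if_neg hp]
      by_cases h1 : p.1 = h
      · rw [if_pos h1]
        have h2 : p.2 ≠ r := fun h2 => hp (Prod.ext h1 h2)
        rcases Nat.lt_or_ge p.2 r with h3 | h3
        · rw [Nat.choose_eq_zero_of_lt h3]
          simp
        · have h4 : p.2 - r ≠ 0 := by omega
          rw [zero_pow h4]
          simp
      · rw [if_neg h1]

end D

section H

variable {κ : Type u} [Field κ]

/-- zero or of positive order -/
def Small (y : Hs κ) : Prop := y = 0 ∨ 0 < y.order

theorem Small.coeff {y : Hs κ} (hy : Small y) {n : ℕ} (hn : n ≠ 0) {u : Hs κ} {c0 : ℝ}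
    (hu : u = 0 ∨ c0 ≤ u.order) (b : Hs κ) (hb : b = 0 ∨ 0 ≤ b.order) :
    (u * (b * y ^ n)).coeff c0 = 0 := by
  by_contra hne
  have h0 : u * (b * y ^ n) ≠ 0 := by
    intro h
    rw [h] at hne
    exact hne rfl
  have hu0 : u ≠ 0 := left_ne_zero_of_mul h0
  have h1 : b * y ^ n ≠ 0 := right_ne_zero_of_mul h0
  have hb0 : b ≠ 0 := left_ne_zero_of_mul h1
  have h2 : y ^ n ≠ 0 := right_ne_zero_of_mul h1
  have hy0 : y ≠ 0 := by
    intro h
    rw [h, zero_pow hn] at h2
    exact h2 rfl
  have h3 := HahnSeries.order_le_of_coeff_ne_zero hne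
  rw [HahnSeries.order_mul hu0 h1, HahnSeries.order_mul hb0 h2, HahnSeries.order_pow] at h3
  have h4 := hu.resolve_left hu0
  have h5 := hb.resolve_left hb0
  have h6 := hy.resolve_left hy0
  have h7 : 0 < n • y.order := by
    rw [nsmul_eq_mul]
    have : (0 : ℝ) < n := by exact_mod_cast Nat.pos_of_ne_zero hn
    positivity
  linarith

theorem natCast_order (n : ℕ) : ((n : ℕ) : Hs κ) = 0 ∨ 0 ≤ ((n : ℕ) : Hs κ).order := by
  by_cases h : ((n : ℕ) : Hs κ) = 0
  · exact Or.inl h
  · right
    have e : ((n : ℕ) : Hs κ) = HahnSeries.single (0 : ℝ) ((n : ℕ) : κ) :=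
      (HahnSeries.single_zero_natCast (R := κ) (Γ := ℝ) _).symm
    have h1 : ((n : ℕ) : κ) ≠ 0 := by
      intro h1
      rw [e, h1] at h
      simp at h
    rw [e, HahnSeries.order_single h1]

/-- the part of least order of a Taylor row at a small point -/
theorem exx_Dy {y : Hs κ} (hy : Small y) {c0 : ℝ} (r : ℕ) {P : AddMonoidAlgebra (Hs κ) (ℤ × ℕ)}
    (hP : ∀ p, P.coeff p ≠ 0 → c0 ≤ (P.coeff p).order) :
    exx c0 (Dy y r P) = Dy 0 r (exx c0 P) := by
  have key : ∀ (p : ℤ × ℕ) (u : Hs κ), (u = 0 ∨ c0 ≤ u.order) →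
      exx c0 (Dy y r (AddMonoidAlgebra.single p u)) =
        Dy 0 r (exx c0 (AddMonoidAlgebra.single p u)) := by
    intro p u hu
    rw [Dy_single, exx_single, exx_single, Dy_single]
    congr 1
    rcases lt_trichotomy p.2 r with h | h | h
    · rw [Nat.choose_eq_zero_of_lt h]
      simp
    · rw [h]
      simp
    · have h4 : p.2 - r ≠ 0 := by omega
      rw [hy.coeff h4 hu _ (natCast_order _), zero_pow h4]
      simp
  have e := AddMonoidAlgebra.sum_coeff_single P
  rw [Finsupp.sum] at e
  rw [← e, map_sum, map_sum, map_sum, map_sum]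
  refine Finset.sum_congr rfl fun p hp => key p _ (Or.inr (hP p (Finsupp.mem_support_iff.1 hp)))

end H

end Pool.Agent.KS6_83.NC
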