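import Pool.Agent.KS6_83.NC.StepA

set_option autoImplicit false
set_option linter.unusedSectionVars false
set_option linter.unusedVariables false

/-!
# Points on the cubic over a Hahn series field
-/

namespace Pool.Agent.KS6_83.NC

open Pool.Agent.Y206 Pool.Agent.Y206.V HahnSeries

universe u

section PS

variable {κ : Type u} [Field κ]

/-- approximations of the power series `Y = 1 + X Y ^ 3` -/
noncomputable def ap : ℕ → PowerSeries κ
  | 0 => 0
  | n + 1 => 1 + PowerSeries.X * ap n ^ 3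

theorem ap_step (n : ℕ) : (PowerSeries.X : PowerSeries κ) ^ n ∣ ap (n + 1) - ap (κ := κ) n := by
  induction n with
  | zero => simp
  | succ n ih =>
    have e : ap (n + 1 + 1) - ap (κ := κ) (n + 1) =
        PowerSeries.X * ((ap (n + 1) - ap n) *
          (ap (n + 1) ^ 2 + ap (n + 1) * ap n + ap n ^ 2)) := by
      have e1 : ap (κ := κ) (n + 1 + 1) = 1 + PowerSeries.X * ap (n + 1) ^ 3 := rfl
      have e2 : ap (κ := κ) (n + 1) = 1 + PowerSeries.X * ap n ^ 3 := rfl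
      rw [e1]
      conv_lhs => rw [e2]
      rw [e2]
      ring
    rw [e, pow_succ']
    exact mul_dvd_mul_left _ (ih.mul_right _)

theorem ap_le {m n : ℕ} (h : m ≤ n) : (PowerSeries.X : PowerSeries κ) ^ m ∣
    ap n - ap (κ := κ) m := by
  induction n, h using Nat.le_induction with
  | base => simp
  | succ n hn ih =>
    have e : ap (n + 1) - ap (κ := κ) m = (ap (n + 1) - ap n) + (ap n - ap m) := by ring
    rw [e]
    exact dvd_add ((pow_dvd_pow _ hn).trans (ap_step n)) ih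

theorem exists_cubic_series (κ : Type u) [Field κ] :
    ∃ Y : PowerSeries κ, Y = 1 + PowerSeries.X * Y ^ 3 := by
  obtain ⟨Y, hY⟩ : ∃ Y : PowerSeries κ, Y = PowerSeries.mk fun n =>
    PowerSeries.coeff n (ap (κ := κ) (n + 1)) := ⟨_, rfl⟩
  have h1 : ∀ n, (PowerSeries.X : PowerSeries κ) ^ n ∣ Y - ap n := by
    intro n
    rw [PowerSeries.X_pow_dvd_iff]
    intro m hm
    rw [map_sub, hY, PowerSeries.coeff_mk]
    have h2 := ap_le (κ := κ) (show m + 1 ≤ n by omega)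
    rw [PowerSeries.X_pow_dvd_iff] at h2
    have h3 := h2 m (by omega)
    rw [map_sub] at h3
    rw [sub_eq_zero] at h3 ⊢
    exact h3.symm
  refine ⟨Y, ?_⟩
  rw [← sub_eq_zero]
  ext n
  have h2 : (PowerSeries.X : PowerSeries κ) ^ (n + 1) ∣ Y - (1 + PowerSeries.X * Y ^ 3) := by
    have e : Y - (1 + PowerSeries.X * Y ^ 3) = (Y - ap (n + 1 + 1)) -
        PowerSeries.X * ((Y - ap (n + 1)) * (Y ^ 2 + Y * ap (n + 1) + ap (n + 1) ^ 2)) := by
      have e1 : ap (κ := κ) (n + 1 + 1) = 1 + PowerSeries.X * ap (n + 1) ^ 3 := rfl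
      rw [e1]
      ring
    rw [e]
    refine dvd_sub ((pow_dvd_pow _ (by omega)).trans (h1 (n + 1 + 1))) ?_
    exact Dvd.dvd.mul_left ((h1 (n + 1)).mul_right _) _
  rw [PowerSeries.X_pow_dvd_iff] at h2
  rw [h2 n (by omega), map_zero]

end PS

variable {κ : Type u} [Field κ]

theorem heval_nonneg {x : Hs κ} (hx : 0 < x.orderTop) (f : PowerSeries κ) (g : ℝ) (hg : g < 0) :
    (PowerSeries.heval x f).coeff g = 0 := by
  rw [PowerSeries.coeff_heval]
  apply finsum_eq_zero_of_forall_eq_zero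
  intro n
  simp only [HahnSeries.SummableFamily.coeff_apply, HahnSeries.SummableFamily.smulFamily_toFun,
    HahnSeries.coeff_smul, smul_eq_mul]
  refine mul_eq_zero_of_right _ (HahnSeries.coeff_eq_zero_of_lt_orderTop ?_)
  rw [HahnSeries.SummableFamily.powers_of_orderTop_pos hx]
  have h1 : (0 : WithTop ℝ) ≤ n • x.orderTop := nsmul_nonneg hx.le n
  have h2 : (g : WithTop ℝ) < 0 := by exact_mod_cast hg
  exact h2.trans_le (h1.trans HahnSeries.orderTop_nsmul_le_orderTop_pow)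

theorem exists_root {T : Hs κ} (hT : 0 < T.orderTop) :
    ∃ y : Hs κ, y = 1 + T * y ^ 3 ∧ (vH κ).Big 0 y := by
  obtain ⟨Y, hY⟩ := exists_cubic_series κ
  refine ⟨PowerSeries.heval T Y, ?_, ?_⟩
  · conv_lhs => rw [hY]
    rw [map_add, map_one, map_mul, map_pow, PowerSeries.heval_X _ hT]
  · by_cases h0 : PowerSeries.heval T Y = 0
    · exact Or.inl h0
    · right
      rw [vH_apply, r1_pt]
      by_contra hlt
      rw [not_le] at hlt
      exact HahnSeries.coeff_order_eq_zero.not.2 h0 (heval_nonneg hT Y _ hlt)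

theorem big_single {a : ℝ} {c : κ} : (vH κ).Big a (HahnSeries.single a c) := by
  by_cases hc : c = 0
  · left; rw [hc]; simp
  · right
    rw [vH_apply, r1_pt, HahnSeries.order_single hc]

theorem orderTop_of_big {x : Hs κ} {r : ℝ} (hr : 0 < r) (h : (vH κ).Big r x) :
    0 < x.orderTop := by
  rcases h with h | h
  · rw [h, HahnSeries.orderTop_zero]
    exact WithTop.coe_lt_top (0 : ℝ)
  · by_cases h0 : x = 0
    · rw [h0, HahnSeries.orderTop_zero]
      exact WithTop.coe_lt_top (0 : ℝ)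
    · rw [← HahnSeries.order_eq_orderTop_of_ne_zero h0]
      rw [vH_apply, r1_pt] at h
      exact_mod_cast hr.trans_le h

/-- **Points on the cubic.** -/
theorem exists_point {β : ℝ} (hβ0 : 0 < β) (hβ : β < 3 / 7) (k : ℕ) {t : κ} (ht : t ≠ 0) :
    ∃ x y : Hs κ, Small y ∧
      x ^ 3 + (sc0 κ β * HahnSeries.C t) ^ 3 + 1 = x * (sc0 κ β * HahnSeries.C t) * (mu κ)⁻¹ ∧
      x = ptY k (mu κ) (sc0 κ β) (HahnSeries.C t) y 0 := by
  have hC : (HahnSeries.C t : Hs κ) ≠ 0 := HahnSeries.C_ne_zero ht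
  obtain ⟨z, hz⟩ : ∃ z, z = sc0 κ β * HahnSeries.C t := ⟨_, rfl⟩
  have hz0 : z ≠ 0 := by rw [hz]; exact mul_ne_zero (sc0_ne β) hC
  have hzv : (vH κ).v z = pt β 0 := by
    rw [hz, vH_apply, HahnSeries.order_mul (sc0_ne β) hC, sc0_order, HahnSeries.order_C, add_zero]
  obtain ⟨m, hm⟩ : ∃ m, m = mu κ / z := ⟨_, rfl⟩
  have hm0 : m ≠ 0 := by rw [hm]; exact div_ne_zero mu_ne hz0
  have hmv : (vH κ).v m = pt (1 - β) 0 := by
    rw [hm, v_div _ mu_ne hz0, hzv, vH_apply, mu_order]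
    exact gam_ext (by simp) (by simp)
  have bz : (vH κ).Big β z := by right; rw [hzv, r1_pt]
  have bm : (vH κ).Big (1 - β) m := by right; rw [hmv, r1_pt]
  have bz3 : (vH κ).Big (3 * β) (z ^ 3) := (bz.pow 3).mono (le_of_eq (by push_cast; ring))
  have bm3 : (vH κ).Big (3 * (1 - β)) (m ^ 3) := (bm.pow 3).mono (le_of_eq (by push_cast; ring))
  have bw : (vH κ).Big 0 (1 + z ^ 3) := Val.Big.one.add (bz3.mono (by linarith))
  have bT : (vH κ).Big (3 * (1 - β)) ((1 + z ^ 3) ^ 2 * m ^ 3) := by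
    refine ((bw.pow 2).mul bm3).mono (le_of_eq ?_)
    push_cast; ring
  obtain ⟨y0, hy0, by0⟩ := exists_root (orderTop_of_big (by linarith) bT)
  obtain ⟨x, hx⟩ : ∃ x, x = (1 + z ^ 3) * m * y0 := ⟨_, rfl⟩
  have hxm : x = m * ((1 + z ^ 3) + x ^ 3) := by
    have e : m * ((1 + z ^ 3) + x ^ 3) = (1 + z ^ 3) * m *
        (1 + (1 + z ^ 3) ^ 2 * m ^ 3 * y0 ^ 3) := by
      rw [hx]; ring
    rw [e, ← hy0, hx]
  have bx : (vH κ).Big (1 - β) x := by
    rw [hx]
    exact ((bw.mul bm).mul by0).mono (by linarith)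
  have bx3 : (vH κ).Big (3 * (1 - β)) (x ^ 3) := (bx.pow 3).mono (le_of_eq (by push_cast; ring))
  obtain ⟨D, hD⟩ : ∃ D, D = mu κ ^ 3 * sc0 κ β * (HahnSeries.C t)⁻¹ ^ k := ⟨_, rfl⟩
  have hμ3 : mu κ ^ 3 * sc0 κ β ≠ 0 := mul_ne_zero (pow_ne_zero _ mu_ne) (sc0_ne β)
  have hD0 : D ≠ 0 := by
    rw [hD]
    exact mul_ne_zero hμ3 (pow_ne_zero _ (inv_ne_zero hC))
  have hDv : (vH κ).v D = pt (3 + β) 0 := by
    have e1 : (vH κ).v (HahnSeries.C t : Hs κ) = 0 := by
      rw [vH_apply, HahnSeries.order_C]; rfl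
    rw [hD, (vH κ).mul' hμ3 (pow_ne_zero _ (inv_ne_zero hC)),
      (vH κ).mul' (pow_ne_zero _ mu_ne) (sc0_ne β), (vH κ).v_pow mu_ne,
      (vH κ).v_pow (inv_ne_zero hC), v_inv _ hC, e1, vH_apply, vH_apply, mu_order, sc0_order]
    exact gam_ext (by simp only [r1_add, r1_nsmul, r1_neg, r1_zero, r1_pt]; push_cast; ring)
      (by simp only [r2_add, r2_nsmul, r2_neg, r2_zero, r2_pt]; push_cast; ring)
  obtain ⟨N, hN⟩ : ∃ N, N = 1 + z ^ 3 + m ^ 3 * (1 + 3 * z ^ 3) - x / m := ⟨_, rfl⟩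
  have hxm' : x / m = 1 + z ^ 3 + x ^ 3 := by
    rw [div_eq_iff hm0, mul_comm]
    exact hxm
  have bthree : (vH κ).Big 0 (3 : Hs κ) := by
    have e : (3 : Hs κ) = 1 + 1 + 1 := by norm_num
    rw [e]
    exact (Val.Big.one.add Val.Big.one).add Val.Big.one
  have hN' : N = -(m ^ 3 * (z ^ 3 * z ^ 3 * (3 + z ^ 3) + x ^ 3 * (3 * ((1 + z ^ 3) * (1 + z ^ 3)) +
      3 * x ^ 3 * (1 + z ^ 3) + x ^ 3 * x ^ 3))) := by
    rw [hN, hxm']
    have e : x ^ 3 = m ^ 3 * ((1 + z ^ 3) + x ^ 3) ^ 3 := by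
      conv_lhs => rw [hxm]
      ring
    linear_combination (-1 : Hs κ) * e
  have bN : (vH κ).Big (3 * (1 - β) + min (6 * β) (3 * (1 - β))) N := by
    rw [hN']
    refine (bm3.mul (Val.Big.add ?_ ?_)).neg
    · have h1 : (vH κ).Big 0 (3 + z ^ 3) := bthree.add (bz3.mono (by linarith))
      refine ((bz3.mul bz3).mul h1).mono ?_
      linarith [min_le_left (6 * β) (3 * (1 - β))]
    · have h0 : (vH κ).Big 0 (x ^ 3) := bx3.mono (by linarith)
      have h1 : (vH κ).Big 0 (3 * ((1 + z ^ 3) * (1 + z ^ 3)) + 3 * x ^ 3 * (1 + z ^ 3) +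
          x ^ 3 * x ^ 3) := by
        refine Val.Big.add (Val.Big.add ?_ ?_) ?_
        · exact (bthree.mul (bw.mul bw)).mono (by linarith)
        · exact ((bthree.mul h0).mul bw).mono (by linarith)
        · exact (h0.mul h0).mono (by linarith)
      refine (bx3.mul h1).mono ?_
      linarith [min_le_right (6 * β) (3 * (1 - β))]
  have hlt : 3 + β < 3 * (1 - β) + min (6 * β) (3 * (1 - β)) := by
    have : β + 3 * β < min (6 * β) (3 * (1 - β)) := by
      rw [lt_min_iff]; constructor <;> linarith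
    linarith
  refine ⟨x, N / D, ?_, ?_, ?_⟩
  · by_cases hN0 : N = 0
    · left; rw [hN0, zero_div]
    · right
      have h1 := bN.resolve_left hN0
      have h2 := v_div (vH κ) hN0 hD0
      rw [hDv] at h2
      have h3 := congrArg r1 h2
      simp only [vH_apply, r1_pt, r1_sub] at h3 h1
      rw [h3]
      linarith
  · rw [← hz]
    have h1 : m * z = mu κ := by rw [hm]; exact div_mul_cancel₀ _ hz0
    have h2 : x * z * (mu κ)⁻¹ = x / m := by
      rw [← h1]
      field_simp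
    rw [h2, hxm']
    ring
  · have h1 : mu κ / sc0 κ β * (HahnSeries.C t)⁻¹ = m := by
      rw [hm, hz]
      have := sc0_ne (κ := κ) β
      field_simp
    change x = mu κ / sc0 κ β * (HahnSeries.C t)⁻¹ * (1 + (sc0 κ β * HahnSeries.C t) ^ 3 +
      (mu κ / sc0 κ β * (HahnSeries.C t)⁻¹) ^ 3 * (1 + 3 * (sc0 κ β * HahnSeries.C t) ^ 3) -
      mu κ ^ 3 * sc0 κ β * ((HahnSeries.C t)⁻¹) ^ k * (N / D))
    rw [h1, ← hz, ← hD, mul_div_cancel₀ _ hD0, hN]
    field_simp
    ring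

end Pool.Agent.KS6_83.NC
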