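import Pool.Agent.KS6_83.NC.Trd

set_option autoImplicit false
set_option linter.unusedSectionVars false
set_option linter.unusedVariables false

/-!
# Specialisation of generic points on a generic cubic
-/

namespace Pool.Agent.KS6_83.NC

open Polynomial

universe u v w

variable {F : Type v} {k : Type u} [Field F] [Field k] [Algebra F k]

theorem cubY_coeff_mem (L : Subfield k) {a : Fin 9 → k} (ha : ∀ l, a l ∈ L) {x : k}
    (hx : x ∈ L) (i : ℕ) : (cubY a x).coeff i ∈ L := by
  have h := cubY_map L.subtype (fun l => (⟨a l, ha l⟩ : L)) ⟨x, hx⟩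
  have h2 : cubY (fun l => L.subtype (⟨a l, ha l⟩ : L)) (L.subtype ⟨x, hx⟩) = cubY a x := rfl
  rw [h2] at h
  rw [← h, coeff_map]
  exact ((cubY (fun l => (⟨a l, ha l⟩ : L)) ⟨x, hx⟩).coeff i).2

/-- **Specialisation.** -/
theorem spec_cubic {K : Type w} [Field K] [Algebra F K] {p : ℕ} {τ : Type} [Fintype τ]
    {a : Fin 9 → k} {x : Fin p → k} {t : τ → k}
    (hind : AlgebraicIndependent F (Sum.elim a (Sum.elim x t)))
    {y : Fin p → k} (hy : ∀ i, (cubY a (x i)).eval (y i) = 0)
    {a' : Fin 9 → K} {x' : Fin p → K} {t' : τ → K} {y' : Fin p → K}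
    (hy' : ∀ i, (cubY a' (x' i)).eval (y' i) = 0)
    (D : MvPolynomial (Fin p) (MvPolynomial (Fin 9 ⊕ (Fin p ⊕ τ)) F))
    (hD : D.eval₂ ((MvPolynomial.aeval (Sum.elim a (Sum.elim x t)) :
      MvPolynomial (Fin 9 ⊕ (Fin p ⊕ τ)) F →ₐ[F] k) : _ →+* k) y = 0) :
    D.eval₂ ((MvPolynomial.aeval (Sum.elim a' (Sum.elim x' t')) :
      MvPolynomial (Fin 9 ⊕ (Fin p ⊕ τ)) F →ₐ[F] K) : _ →+* K) y' = 0 := by
  classical
  obtain ⟨w, hw⟩ : ∃ w, w = Sum.elim a (Sum.elim x t) := ⟨_, rfl⟩
  rw [← hw] at hind hD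
  have wa : ∀ l, w (Sum.inl l) = a l := fun l => by rw [hw]; rfl
  have wx : ∀ i, w (Sum.inr (Sum.inl i)) = x i := fun l => by rw [hw]; rfl
  have hM : (AlgebraicIndependent.matroid F k).Indep (Set.range w) := by
    rw [AlgebraicIndependent.matroid_indep_iff]
    exact hind.to_subtype_range
  have hnot : ∀ i, x i ∉ acl F (Set.range w \ {x i}) := by
    intro i
    exact hM.notMem_closure_sdiff_of_mem ⟨_, wx i⟩
  have hmemL : ∀ (i : Fin p) j, w j ≠ x i → w j ∈ aclF F (Set.range w \ {x i}) := by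
    intro i j hj
    exact subset_acl _ ⟨⟨j, rfl⟩, hj⟩
  have haL : ∀ (i : Fin p) l, a l ∈ aclF F (Set.range w \ {x i}) := by
    intro i l
    rw [← wa]
    refine hmemL i _ fun h => ?_
    rw [← wx i] at h
    have := hind.injective h
    simp at this
  have hxL : ∀ (i j : Fin p), j ≠ i → x j ∈ aclF F (Set.range w \ {x i}) := by
    intro i j hij
    rw [← wx j]
    refine hmemL i _ fun h => ?_
    rw [← wx i] at h
    have := hind.injective h
    simp only [Sum.inr.injEq, Sum.inl.injEq] at this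
    exact hij this
  have ha : AlgebraicIndependent F a := by
    have h := hind.comp (Sum.inl : Fin 9 → _) Sum.inl_injective
    have e : w ∘ Sum.inl = a := funext wa
    rwa [e] at h
  choose E hE1 hE2 hE3 using fun i => li (aclF F (Set.range w \ {x i})) (x := x i) (by
    intro q hq hq0
    by_contra hne
    exact hnot i (root_mem hq hq0 hne)) a (haL i) (fun u v => no_line ha u v) (hy i)
  refine chain p _ _ ?_ (fun i => cubY (fun l => MvPolynomial.X (Sum.inl l))
    (MvPolynomial.X (Sum.inr (Sum.inl i)))) (fun i => cubY_monic _ _)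
    (fun i => cubY_natDegree _ _) y y' ?_ ?_ E ?_ ?_ hE3 D hD
  · intro z hz
    have h1 : z = 0 := by
      apply (injective_iff_map_eq_zero (MvPolynomial.aeval w :
        MvPolynomial (Fin 9 ⊕ (Fin p ⊕ τ)) F →ₐ[F] k)).1 hind
      exact hz
    rw [h1, map_zero]
  · intro i
    rw [cubY_eval₂]
    have h1 := hy i
    rw [cubY_eval] at h1
    simpa [wa, wx] using h1
  · intro i
    rw [cubY_eval₂]
    have h1 := hy' i
    rw [cubY_eval] at h1
    simpa using h1
  · intro i z
    change (MvPolynomial.aeval w) z ∈ E i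
    induction z using MvPolynomial.induction_on with
    | C c =>
      rw [MvPolynomial.aeval_C]
      apply hE1
      obtain ⟨S, hS, -⟩ := acl_flat (F := F) (Set.range w \ {x i})
      rw [mem_aclF, ← hS]
      exact S.algebraMap_mem c
    | add p q hp hq => rw [map_add]; exact add_mem hp hq
    | mul_X p j hp =>
      rw [map_mul, MvPolynomial.aeval_X]
      refine mul_mem hp ?_
      by_cases h : w j = x i
      · rw [h]; exact hE2 i
      · exact hE1 i _ (hmemL i j h)
  · intro i j hij
    apply hE1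
    exact root_mem (cubY_coeff_mem _ (haL i) (hxL i j hij)) (hy j) (cubY_monic _ _).ne_zero

end Pool.Agent.KS6_83.NC
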