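import Pool.Agent.KS6_83.NC.Cut
import Pool.Agent.KS6_83.NC.Series

set_option autoImplicit false
set_option linter.unusedSectionVars false
set_option linter.unusedVariables false

/-!
# The criterion for points of which some are on the cubic
-/

namespace Pool.Agent.KS6_83.NC

open Pool.Agent.Y206 Pool.Agent.Y206.V HahnSeries

universe u

variable {k : Type u} [Field k]

/-- the parameters of the points on the cubic -/
noncomputable def cp (k : Type u) [Field k] {p : ℕ} (i : Fin p) : Hs k :=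
  HahnSeries.single (-((i : ℕ) + 1 : ℝ)) 1

theorem cp_ne {p : ℕ} (i : Fin p) : cp k i ≠ 0 := HahnSeries.single_ne_zero one_ne_zero

theorem cp_order {p : ℕ} (i : Fin p) : (cp k i).order = -((i : ℕ) + 1 : ℝ) :=
  HahnSeries.order_single one_ne_zero

theorem cp_neg {p : ℕ} (i : Fin p) : (cp k i).order < 0 := by
  rw [cp_order]
  have : (0 : ℝ) ≤ (i : ℕ) := Nat.cast_nonneg _
  linarith

theorem cp_inj {p : ℕ} : Function.Injective (cp k : Fin p → Hs k) := by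
  intro i j hij
  have h := congrArg HahnSeries.order hij
  rw [cp_order, cp_order] at h
  have h2 : ((i : ℕ) : ℝ) = (j : ℕ) := by linarith
  exact Fin.ext (by exact_mod_cast h2)

/-- a column with a long chord in the region cut by the points on the cubic -/
def ChordC {p : ℕ} (β : ℝ) (kk d : ℕ) (M : Fin p → ℕ) (r : ℕ) (h : ℤ) : Prop :=
  ∃ j1 j2 : ℕ, j1 + r ≤ j2 ∧ -(1 + β) * (d - 3 * (j1 : ℝ)) ≤ (h : ℝ) + kk * j1 ∧
    (h : ℝ) + kk * j1 + (∑ i, (M i - j1) : ℕ) ≤ (2 - β) * (d - 3 * (j1 : ℝ)) ∧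
    (h : ℝ) + kk * j2 + (∑ i, (M i - j2) : ℕ) ≤ (2 - β) * (d - 3 * (j2 : ℝ))

/-- **The criterion.** -/
theorem crit3 {β : ℝ} (hβ0 : 0 < β) (hβ : β < 3 / 7) (hirr : Irrational β) (kk : ℕ) {p q : ℕ}
    {a : Fin q → k} (ha0 : ∀ j, a j ≠ 0) (hinj : Function.Injective a)
    {y : Fin p → Hs (Hs k)} (hy : ∀ i, Small (y i)) (M : Fin p → ℕ) (m : Fin q → ℕ)
    {Q : MvPolynomial (Fin 3) (Hs (Hs k))} {d : ℕ} (hQ : Q.IsHomogeneous d) (hQ0 : Q ≠ 0)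
    (hM : ∀ i, MultAt (ptY kk (mu (Hs k)) (sc0 (Hs k) β) (HahnSeries.C (cp k i)) (y i)) Q (M i))
    (hm : ∀ j, MultAt (ptY kk (mu (Hs k)) (sc0 (Hs k) β) (HahnSeries.C (HahnSeries.C (a j))) 1) Q
      (m j)) :
    ∃ (r : ℕ) (h1 h2 : ℤ), ((∑ j, (m j - r) : ℕ) : ℤ) ≤ h2 - h1 ∧
      ChordC β kk d M r h1 ∧ ChordC β kk d M r h2 := by
  obtain ⟨g, hg0, hwin, hpl, hcu⟩ := stepA hβ0 hβ hirr kk hQ hQ0
  obtain ⟨c1, h1, h2, h3⟩ := exists_least hg0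
  have hkey : ∀ (h : ℤ) (j : ℕ), (exx c1 g).coeff (h, j) ≠ 0 →
      -(1 + β) * (d - 3 * (j : ℝ)) ≤ (h : ℝ) + kk * j ∧
      (h : ℝ) + kk * j + (∑ i, (M i - j) : ℕ) ≤ (2 - β) * (d - 3 * (j : ℝ)) := by
    intro h j hhj
    obtain ⟨h4, h5⟩ := h3 _ hhj
    refine ⟨(hwin _ h4).1, ?_⟩
    have hL : LeastT (Dy 0 j g) h := by
      refine ⟨?_, ?_⟩
      · rw [Dy_zero_coeff]; exact h4
      · intro h' hh'
        rw [Dy_zero_coeff] at hh' ⊢
        rw [Dy_zero_coeff, h5]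
        exact h1 _ hh'
    obtain ⟨h', h6, h7⟩ := cut (c := (cp k : Fin p → Hs k)) cp_ne cp_neg cp_inj
      (fun i => M i - j) (fun i => hcu (cp k i) (y i) (M i) (cp_ne i) (hy i) (hM i) j) hL
    rw [Dy_zero_coeff] at h7
    have h8 := (hwin _ h7).2
    simp only at h8
    have h9 : ((h : ℤ) : ℝ) + ((∑ i, (M i - j) : ℕ) : ℝ) ≤ (h' : ℝ) := by exact_mod_cast h6
    linarith
  obtain ⟨r, t1, t2, h4, h5, h6⟩ := columns h2 (c := a) hinj ha0 m (by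
    intro j r
    rw [← exx_Dr]
    exact exx_dvd c1 (a j) _ _ (hpl (HahnSeries.C (a j)) (m j) (HahnSeries.C_ne_zero (ha0 j))
      (hm j) r))
  refine ⟨r, t1, t2, h4, ?_, ?_⟩
  · obtain ⟨j1, j2, h7, h8, h9⟩ := h5
    obtain ⟨e1, e2⟩ := hkey _ _ h8
    obtain ⟨e3, e4⟩ := hkey _ _ h9
    exact ⟨j1, j2, h7, e1, e2, e4⟩
  · obtain ⟨j1, j2, h7, h8, h9⟩ := h6
    obtain ⟨e1, e2⟩ := hkey _ _ h8
    obtain ⟨e3, e4⟩ := hkey _ _ h9
    exact ⟨j1, j2, h7, e1, e2, e4⟩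

end Pool.Agent.KS6_83.NC
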