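import Pool.Agent.KS6_83.NC.Rows

set_option autoImplicit false
set_option linter.unusedSectionVars false
set_option linter.unusedVariables false

/-!
# The leading polynomial of a form
-/

namespace Pool.Agent.KS6_83.NC

open Pool.Agent.Y206 Pool.Agent.Y206.V HahnSeries

universe u

variable {κ : Type u} [Field κ]

/-- the parameter of the pencil -/
noncomputable def mu (κ : Type u) [Field κ] : Hs κ := HahnSeries.single 1 1

/-- the scale of the second coordinate -/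
noncomputable def sc0 (κ : Type u) [Field κ] (β : ℝ) : Hs κ := HahnSeries.single β 1

theorem mu_ne : mu κ ≠ 0 := HahnSeries.single_ne_zero one_ne_zero

theorem sc0_ne (β : ℝ) : sc0 κ β ≠ 0 := HahnSeries.single_ne_zero one_ne_zero

theorem mu_order : (mu κ).order = 1 := HahnSeries.order_single one_ne_zero

theorem sc0_order (β : ℝ) : (sc0 κ β).order = β := HahnSeries.order_single one_ne_zero

theorem ptK_eq_ptY (k : ℕ) {μ s : Hs κ} (hs : s ≠ 0) (t : Hs κ) :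
    ptK k (μ / s) s t = ptY k μ s t 1 := by
  unfold ptK ptY
  have e : (μ / s) ^ 3 * s ^ 4 = μ ^ 3 * s := by
    field_simp
  rw [e, mul_one]

/-- **The leading polynomial** of a form over a Hahn series field. -/
theorem stepA {β : ℝ} (hβ0 : 0 < β) (hβ : β < 3 / 7) (hirr : Irrational β) (k : ℕ)
    {Q : MvPolynomial (Fin 3) (Hs κ)} {d : ℕ} (hQ : Q.IsHomogeneous d) (hQ0 : Q ≠ 0) :
    ∃ g : AddMonoidAlgebra κ (ℤ × ℕ), g ≠ 0 ∧
      (∀ p, g.coeff p ≠ 0 → -(1 + β) * (d - 3 * (p.2 : ℝ)) ≤ (p.1 : ℝ) + k * p.2 ∧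
        (p.1 : ℝ) + k * p.2 ≤ (2 - β) * (d - 3 * (p.2 : ℝ))) ∧
      (∀ (a : κ) (m : ℕ), a ≠ 0 → MultAt (ptY k (mu κ) (sc0 κ β) (HahnSeries.C a) 1) Q m → ∀ r,
        (AddMonoidAlgebra.single (1 : ℤ) (1 : κ) - AddMonoidAlgebra.single (0 : ℤ) a) ^ (m - r) ∣
          Dr r g) ∧
      (∀ (a : κ) (y : Hs κ) (m : ℕ), a ≠ 0 → Small y →
        MultAt (ptY k (mu κ) (sc0 κ β) (HahnSeries.C a) y) Q m → ∀ r,
        (AddMonoidAlgebra.single (1 : ℤ) (1 : κ) - AddMonoidAlgebra.single (0 : ℤ) a) ^ (m - r) ∣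
          Dy 0 r g) := by
  have hG := GG_ne' (v0 := vH κ) ctxsH realVH hirr (mu_ne (κ := κ)) (sc0_ne β) k hQ hQ0
  obtain ⟨c0, h1, h2, h3⟩ := exists_least hG
  refine ⟨_, h2, ?_, ?_, ?_⟩
  · intro p hp
    obtain ⟨h4, h5⟩ := h3 p hp
    refine least_window ctxsH realVH hβ0 hβ hirr mu_ne ?_ (sc0_ne β) ?_ k hQ hQ0 ⟨h4, ?_⟩
    · rw [vH_apply, mu_order]
    · rw [vH_apply, sc0_order]
    · intro q hq
      rw [vH_apply, vH_apply, r1_pt, r1_pt, h5]
      exact h1 q hq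
  · intro a m ha hm r
    have ha' : (HahnSeries.C a : Hs κ) ≠ 0 := HahnSeries.C_ne_zero ha
    have h4 := GG_mem2 k ha' hm (sc0_ne β)
    have h5 := sc_mem h4
    rw [sc_one] at h5
    rw [← exx_Dr]
    exact exx_dvd c0 a _ _ (Dr_dvd _ m _ h5 r)
  · intro a y m ha hy hm r
    have ha' : (HahnSeries.C a : Hs κ) ≠ 0 := HahnSeries.C_ne_zero ha
    have h4 := GG_mem2 k ha' hm (sc0_ne β)
    rw [← exx_Dy hy r h1]
    exact exx_dvd c0 a _ _ (Dy_dvd _ _ m _ h4 r)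

end Pool.Agent.KS6_83.NC
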