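import Pool.Agent.KS6_83.NC.Conv
import Pool.Graph.R_pool_sql_team_seeded_1acbe0a2.Y206.Open

set_option autoImplicit false
set_option linter.unusedSectionVars false
set_option linter.unusedVariables false

/-!
# Transfer of integral polynomial conditions
-/

namespace Pool.Agent.KS6_83.NC

open MvPolynomial

universe u v w

theorem eval_of_mem {k : Type u} [Field k] {p : Fin 2 → k} {G : MvPolynomial (Fin 3) k}
    (h : G ∈ (Ideal.span {X 1 - C (p 0) * X 0, X 2 - C (p 1) * X 0} :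
      Ideal (MvPolynomial (Fin 3) k)) ^ 1) :
    MvPolynomial.eval ![1, p 0, p 1] G = 0 := by
  rw [pow_one] at h
  have h1 : (Ideal.span {X 1 - C (p 0) * X 0, X 2 - C (p 1) * X 0} :
      Ideal (MvPolynomial (Fin 3) k)) ≤ RingHom.ker (MvPolynomial.eval ![1, p 0, p 1]) := by
    rw [Ideal.span_le]
    rintro z (rfl | rfl)
    · simp [RingHom.mem_ker]
    · simp [RingHom.mem_ker]
  exact h1 h

/-- the homogeneous coordinates of points -/
def homC {k : Type u} [Field k] {r : ℕ} (P : Fin r → Fin 2 → k) (i : Fin r) : Fin 3 → k :=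
  ![1, P i 0, P i 1]

/-- the special points -/
def spP {K : Type w} {p q : ℕ} (z x : Fin p → K) (t : Fin q × Fin 2 → K) :
    Fin (p + q) → Fin 2 → K :=
  Fin.addCases (fun i => ![z i, x i]) (fun j => ![t (j, 0), t (j, 1)])

theorem spP_left {K : Type w} {p q : ℕ} (z x : Fin p → K) (t : Fin q × Fin 2 → K) (i : Fin p) :
    spP z x t (Fin.castAdd q i) = ![z i, x i] := by
  simp [spP]

theorem spP_right {K : Type w} {p q : ℕ} (z x : Fin p → K) (t : Fin q × Fin 2 → K) (j : Fin q) :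
    spP z x t (Fin.natAdd p j) = ![t (j, 0), t (j, 1)] := by
  simp [spP]

section

variable {F : Type v} {k : Type u} [Field F] [Field k] [Algebra F k]

theorem trans_small {K : Type w} [Field K] [Algebra F K] {r : ℕ} {P : Fin r → Fin 2 → k}
    (H : AlgebraicIndependent F (fun z : Fin r × Fin 2 => P z.1 z.2)) (P' : Fin r → Fin 2 → K)
    (D : MvPolynomial (Fin r × Fin 3) ℤ)
    (hD : aeval (fun z : Fin r × Fin 3 => homC P z.1 z.2) D = 0) :
    aeval (fun z : Fin r × Fin 3 => homC P' z.1 z.2) D = 0 := by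
  obtain ⟨s, hs⟩ : ∃ s : Fin r × Fin 3 → MvPolynomial (Fin r × Fin 2) F,
    s = fun z => (![1, X (z.1, 0), X (z.1, 1)] : Fin 3 → _) z.2 := ⟨_, rfl⟩
  obtain ⟨D', hD'⟩ : ∃ D' : MvPolynomial (Fin r × Fin 2) F, D' = aeval s D := ⟨_, rfl⟩
  have e1 : aeval (fun z : Fin r × Fin 2 => P z.1 z.2) D' =
      aeval (fun z : Fin r × Fin 3 => homC P z.1 z.2) D := by
    rw [hD']
    have h2 : ((aeval (R := F) (fun z : Fin r × Fin 2 => P z.1 z.2)).toRingHom).comp
        (aeval (R := ℤ) s).toRingHom =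
        (aeval (R := ℤ) (fun z : Fin r × Fin 3 => homC P z.1 z.2)).toRingHom := by
      apply MvPolynomial.ringHom_ext
      · intro n; simp
      · rintro ⟨i, c⟩
        fin_cases c <;> simp [hs, homC]
    exact congrArg (fun g : MvPolynomial (Fin r × Fin 3) ℤ →+* k => g D) h2
  have e2 : aeval (fun z : Fin r × Fin 2 => P' z.1 z.2) D' =
      aeval (fun z : Fin r × Fin 3 => homC P' z.1 z.2) D := by
    rw [hD']
    have h2 : ((aeval (R := F) (fun z : Fin r × Fin 2 => P' z.1 z.2)).toRingHom).comp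
        (aeval (R := ℤ) s).toRingHom =
        (aeval (R := ℤ) (fun z : Fin r × Fin 3 => homC P' z.1 z.2)).toRingHom := by
      apply MvPolynomial.ringHom_ext
      · intro n; simp
      · rintro ⟨i, c⟩
        fin_cases c <;> simp [hs, homC]
    exact congrArg (fun g : MvPolynomial (Fin r × Fin 3) ℤ →+* K => g D) h2
  rw [← e2]
  have h3 : D' = 0 := by
    rw [hD] at e1
    exact (injective_iff_map_eq_zero (aeval (R := F) (fun z : Fin r × Fin 2 => P z.1 z.2))).1 H _ e1
  rw [h3, map_zero]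

theorem trans_big {K : Type w} [Field K] [Algebra F K] {p q : ℕ} (hp : 9 ≤ p)
    {P : Fin (p + q) → Fin 2 → k}
    (H2 : AlgebraicIndependent F (fun z : {z : Fin (p + q) × Fin 2 //
      z.2 = 0 ∨ z.1.val < 9 ∨ p ≤ z.1.val} => P z.1.1 z.1.2))
    {G : MvPolynomial (Fin 3) k} (hG : G.IsHomogeneous 3) (h0 : G ≠ 0)
    (hQ : ∀ i : Fin (p + q), i.val < p → MvPolynomial.eval ![1, P i 0, P i 1] G = 0)
    {a' : Fin 9 → K} {z x : Fin p → K} (t : Fin q × Fin 2 → K)
    (hzx : ∀ i, (cubY a' (z i)).eval (x i) = 0)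
    (D : MvPolynomial (Fin (p + q) × Fin 3) ℤ)
    (hD : aeval (fun z : Fin (p + q) × Fin 3 => homC P z.1 z.2) D = 0) :
    aeval (fun y : Fin (p + q) × Fin 3 => homC (spP z x t) y.1 y.2) D = 0 := by
  obtain ⟨a, ha1, ha2⟩ := conv hp H2 hG h0 hQ
  obtain ⟨s, hs⟩ : ∃ s : Fin (p + q) × Fin 3 →
      MvPolynomial (Fin p) (MvPolynomial (Fin 9 ⊕ (Fin p ⊕ (Fin q × Fin 2))) F),
    s = fun y => Fin.addCases (motive := fun _ => MvPolynomial (Fin p) (MvPolynomial (Fin 9 ⊕ (Fin p ⊕ (Fin q × Fin 2))) F))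
      (fun i => (![1, C (X (Sum.inr (Sum.inl i))), X i] : Fin 3 → _) y.2)
      (fun j => (![1, C (X (Sum.inr (Sum.inr (j, 0)))), C (X (Sum.inr (Sum.inr (j, 1))))] :
        Fin 3 → _) y.2) y.1 := ⟨_, rfl⟩
  have sl : ∀ (i : Fin p) (c : Fin 3), s (Fin.castAdd q i, c) =
      (![1, C (X (Sum.inr (Sum.inl i))), X i] : Fin 3 → _) c := by
    intro i c; rw [hs]; simp
  have sr : ∀ (j : Fin q) (c : Fin 3), s (Fin.natAdd p j, c) =
      (![1, C (X (Sum.inr (Sum.inr (j, 0)))), C (X (Sum.inr (Sum.inr (j, 1))))] :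
        Fin 3 → _) c := by
    intro j c; rw [hs]; simp
  obtain ⟨D', hD'⟩ : ∃ D' : MvPolynomial (Fin p)
    (MvPolynomial (Fin 9 ⊕ (Fin p ⊕ (Fin q × Fin 2))) F), D' = aeval s D := ⟨_, rfl⟩
  have e1 : D'.eval₂ ((MvPolynomial.aeval (Sum.elim a (Sum.elim
        (fun i : Fin p => P (Fin.castAdd q i) 0)
        (fun jc : Fin q × Fin 2 => P (Fin.natAdd p jc.1) jc.2))) :
      MvPolynomial (Fin 9 ⊕ (Fin p ⊕ (Fin q × Fin 2))) F →ₐ[F] k) : _ →+* k)
        (fun i : Fin p => P (Fin.castAdd q i) 1) =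
      aeval (fun z : Fin (p + q) × Fin 3 => homC P z.1 z.2) D := by
    rw [hD']
    have h2 : (eval₂Hom ((MvPolynomial.aeval (Sum.elim a (Sum.elim
        (fun i : Fin p => P (Fin.castAdd q i) 0)
        (fun jc : Fin q × Fin 2 => P (Fin.natAdd p jc.1) jc.2))) :
      MvPolynomial (Fin 9 ⊕ (Fin p ⊕ (Fin q × Fin 2))) F →ₐ[F] k) : _ →+* k)
        (fun i : Fin p => P (Fin.castAdd q i) 1)).comp
        (aeval (R := ℤ) s).toRingHom =
        (aeval (R := ℤ) (fun z : Fin (p + q) × Fin 3 => homC P z.1 z.2)).toRingHom := by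
      apply MvPolynomial.ringHom_ext
      · intro n; simp
      · rintro ⟨i, c⟩
        refine Fin.addCases (fun i => ?_) (fun j => ?_) i
        · simp only [RingHom.comp_apply, AlgHom.toRingHom_eq_coe, RingHom.coe_coe, aeval_X, sl]
          fin_cases c <;> simp [homC]
        · simp only [RingHom.comp_apply, AlgHom.toRingHom_eq_coe, RingHom.coe_coe, aeval_X, sr]
          fin_cases c <;> simp [homC]
    exact congrArg (fun g : MvPolynomial (Fin (p + q) × Fin 3) ℤ →+* k => g D) h2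
  have e2 : D'.eval₂ ((MvPolynomial.aeval (Sum.elim a' (Sum.elim z t)) :
      MvPolynomial (Fin 9 ⊕ (Fin p ⊕ (Fin q × Fin 2))) F →ₐ[F] K) : _ →+* K) x =
      aeval (fun y : Fin (p + q) × Fin 3 => homC (spP z x t) y.1 y.2) D := by
    rw [hD']
    have h2 : (eval₂Hom ((MvPolynomial.aeval (Sum.elim a' (Sum.elim z t)) :
      MvPolynomial (Fin 9 ⊕ (Fin p ⊕ (Fin q × Fin 2))) F →ₐ[F] K) : _ →+* K) x).comp
        (aeval (R := ℤ) s).toRingHom =
        (aeval (R := ℤ) (fun y : Fin (p + q) × Fin 3 =>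
          homC (spP z x t) y.1 y.2)).toRingHom := by
      apply MvPolynomial.ringHom_ext
      · intro n; simp
      · rintro ⟨i, c⟩
        refine Fin.addCases (fun i => ?_) (fun j => ?_) i
        · simp only [RingHom.comp_apply, AlgHom.toRingHom_eq_coe, RingHom.coe_coe, aeval_X, sl]
          fin_cases c <;> simp [homC, spP_left]
        · simp only [RingHom.comp_apply, AlgHom.toRingHom_eq_coe, RingHom.coe_coe, aeval_X, sr]
          fin_cases c <;> simp [homC, spP_right]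
    exact congrArg (fun g : MvPolynomial (Fin (p + q) × Fin 3) ℤ →+* K => g D) h2
  rw [← e2]
  exact spec_cubic ha1 ha2 hzx D' (by rw [e1, hD])

end

end Pool.Agent.KS6_83.NC
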