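import Pool.Agent.KS6_83.NC.LinInd

set_option autoImplicit false
set_option linter.unusedSectionVars false
set_option linter.unusedVariables false

/-!
# Algebraic closures of subsets, and specialisation of generic points on a cubic
-/

namespace Pool.Agent.KS6_83.NC

open Polynomial

universe u v w

variable {F : Type v} {k : Type u} [Field F] [Field k] [Algebra F k]

/-- the relative algebraic closure of a subset -/
def acl (F : Type v) {k : Type u} [Field F] [Field k] [Algebra F k] (s : Set k) : Set k :=
  (AlgebraicIndependent.matroid F k).closure s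

theorem mem_acl {s : Set k} {x : k} :
    x ∈ acl F s ↔ IsAlgebraic (Algebra.adjoin F s) x := by
  unfold acl
  rw [AlgebraicIndependent.matroid_closure_eq]
  rfl

theorem acl_flat (s : Set k) : ∃ S : Subalgebra F k, (S : Set k) = acl F s ∧
    ∀ a : k, IsAlgebraic S a → a ∈ acl F s := by
  have h := (AlgebraicIndependent.matroid F k).isFlat_closure s
  rw [AlgebraicIndependent.matroid_isFlat_iff] at h
  exact h

/-- the relative algebraic closure as a subfield -/
noncomputable def aclF (F : Type v) {k : Type u} [Field F] [Field k] [Algebra F k] (s : Set k) :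
    Subfield k where
  carrier := acl F s
  mul_mem' := by
    intro a b ha hb
    obtain ⟨S, hS, -⟩ := acl_flat (F := F) s
    rw [← hS] at ha hb ⊢
    exact S.mul_mem ha hb
  one_mem' := by
    obtain ⟨S, hS, -⟩ := acl_flat (F := F) s
    rw [← hS]
    exact S.one_mem
  add_mem' := by
    intro a b ha hb
    obtain ⟨S, hS, -⟩ := acl_flat (F := F) s
    rw [← hS] at ha hb ⊢
    exact S.add_mem ha hb
  zero_mem' := by
    obtain ⟨S, hS, -⟩ := acl_flat (F := F) s
    rw [← hS]
    exact S.zero_mem
  neg_mem' := by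
    intro a ha
    obtain ⟨S, hS, -⟩ := acl_flat (F := F) s
    rw [← hS] at ha ⊢
    exact S.neg_mem ha
  inv_mem' := by
    intro a ha
    rw [mem_acl] at ha ⊢
    exact ha.inv

theorem mem_aclF {s : Set k} {x : k} : x ∈ aclF F s ↔ x ∈ acl F s := Iff.rfl

theorem subset_acl (s : Set k) : s ⊆ acl F s :=
  (AlgebraicIndependent.matroid F k).subset_closure s (Set.subset_univ _)

theorem acl_mono {s t : Set k} (h : s ⊆ t) : acl F s ⊆ acl F t :=
  (AlgebraicIndependent.matroid F k).closure_subset_closure h

/-- roots of polynomials with coefficients in the closure -/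
theorem root_mem {s : Set k} {p : k[X]} (hp : ∀ i, p.coeff i ∈ aclF F s) {x : k}
    (hx : p.eval x = 0) (hp0 : p ≠ 0) : x ∈ acl F s := by
  obtain ⟨S, hS, h⟩ := acl_flat (F := F) s
  apply h
  have hp' : ∀ i, p.coeff i ∈ S := by
    intro i
    have := hp i
    rw [mem_aclF, ← hS] at this
    exact this
  obtain ⟨q, hq⟩ : ∃ q : S[X], q.map (algebraMap S k) = p := by
    have h1 : p ∈ Polynomial.lifts (algebraMap S k) := by
      rw [Polynomial.lifts_iff_coeff_lifts]
      intro i
      exact ⟨⟨p.coeff i, hp' i⟩, rfl⟩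
    exact h1
  refine ⟨q, ?_, ?_⟩
  · rintro rfl
    rw [Polynomial.map_zero] at hq
    exact hp0 hq.symm
  · rw [aeval_def, ← eval_map, hq]
    exact hx

theorem card_le_of_subset {ι : Type w} [Fintype ι] {v : ι → k} (hv : AlgebraicIndependent F v)
    {T : Set k} {m : ℕ} (hT : T.encard ≤ m) (hsub : ∀ i, v i ∈ acl F T) :
    Fintype.card ι ≤ m := by
  have h1 : (AlgebraicIndependent.matroid F k).Indep (Set.range v) := by
    rw [AlgebraicIndependent.matroid_indep_iff]
    exact hv.to_subtype_range
  have h2 : Set.range v ⊆ (AlgebraicIndependent.matroid F k).closure T := by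
    rintro _ ⟨i, rfl⟩
    exact hsub i
  have h3 := h1.encard_le_eRk_of_subset h2
  rw [Matroid.eRk_closure_eq] at h3
  have h4 := h3.trans (((AlgebraicIndependent.matroid F k).eRk_le_encard T).trans hT)
  have h5 : (Set.range v).encard = Fintype.card ι := by
    rw [← Set.image_univ, hv.injective.injOn.encard_image, Set.encard_univ,
      ENat.card_eq_coe_fintype_card]
  rw [h5] at h4
  exact_mod_cast h4

/-- exchange -/
theorem exchange {ι : Type w} {ι' : Type*} [Fintype ι] [Fintype ι'] {v : ι → k}
    (hv : AlgebraicIndependent F v) {v' : ι' → k} (hcard : Fintype.card ι' ≤ Fintype.card ι)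
    (hsub : ∀ i, v i ∈ acl F (Set.range v')) : AlgebraicIndependent F v' := by
  classical
  have h1 : (AlgebraicIndependent.matroid F k).Indep (Set.range v) := by
    rw [AlgebraicIndependent.matroid_indep_iff]
    exact hv.to_subtype_range
  have h2 : Set.range v ⊆ (AlgebraicIndependent.matroid F k).closure (Set.range v') := by
    rintro _ ⟨i, rfl⟩
    exact hsub i
  have h3 := h1.encard_le_eRk_of_subset h2
  rw [Matroid.eRk_closure_eq] at h3
  have h5 : (Set.range v).encard = Fintype.card ι := by
    rw [← Set.image_univ, hv.injective.injOn.encard_image, Set.encard_univ,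
      ENat.card_eq_coe_fintype_card]
  rw [h5] at h3
  have h6 : (Set.range v').encard ≤ Fintype.card ι' := by
    rw [← Set.image_univ]
    refine (Set.encard_image_le _ _).trans ?_
    rw [Set.encard_univ, ENat.card_eq_coe_fintype_card]
  have h7 := (AlgebraicIndependent.matroid F k).eRk_le_encard (Set.range v')
  have h8 : ((Fintype.card ι' : ℕ) : ℕ∞) ≤ (Fintype.card ι : ℕ) := by exact_mod_cast hcard
  have h9 : (Set.range v').encard = Fintype.card ι' :=
    le_antisymm h6 (h8.trans (h3.trans h7))
  have h10 : (AlgebraicIndependent.matroid F k).eRk (Set.range v') = (Set.range v').encard :=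
    le_antisymm h7 (by rw [h9]; exact h8.trans h3)
  have h11 : (AlgebraicIndependent.matroid F k).Indep (Set.range v') :=
    (Matroid.indep_iff_eRk_eq_encard_of_finite (Set.finite_range v')).2 h10
  have h12 : Function.Injective v' := by
    have h13 : (Finset.univ.image v').card = Fintype.card ι' := by
      have h14 : ((Finset.univ.image v' : Finset k) : Set k) = Set.range v' := by simp
      have h15 : ((Finset.univ.image v').card : ℕ∞) = (Fintype.card ι' : ℕ) := by
        rw [← Set.encard_coe_eq_coe_finsetCard, h14, h9]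
      exact_mod_cast h15
    have h16 := Finset.card_image_iff.1 (h13.trans Finset.card_univ.symm)
    intro i j hij
    exact h16 (Finset.mem_coe.2 (Finset.mem_univ i)) (Finset.mem_coe.2 (Finset.mem_univ j)) hij
  rw [AlgebraicIndependent.matroid_indep_iff] at h11
  exact AlgebraicIndependent.of_subtype_range h12 h11

/-- a generic cubic contains no line -/
theorem no_line {a : Fin 9 → k} (ha : AlgebraicIndependent F a) (u v : k) :
    (cubY (fun l => C (a l)) X).eval (C u * X + C v : k[X]) ≠ 0 := by
  classical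
  intro h
  have h1 : (cubY (fun l => C (a l)) X).eval (C u * X + C v : k[X]) =
      C (u ^ 3 + a 1 * u ^ 2 + a 4 * u + a 8) * X ^ 3 +
      C (3 * u ^ 2 * v + a 0 * u ^ 2 + 2 * a 1 * u * v + a 3 * u + a 4 * v + a 7) * X ^ 2 +
      C (3 * u * v ^ 2 + 2 * a 0 * u * v + a 1 * v ^ 2 + a 2 * u + a 3 * v + a 6) * X +
      C (v ^ 3 + a 0 * v ^ 2 + a 2 * v + a 5) := by
    rw [cubY_eval]
    simp only [map_add, map_mul, map_pow, map_ofNat]
    ring
  rw [h1] at h
  have c0 := congrArg (fun P => coeff P 0) h
  have c1 := congrArg (fun P => coeff P 1) h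
  have c2 := congrArg (fun P => coeff P 2) h
  have c3 := congrArg (fun P => coeff P 3) h
  simp only [coeff_add, coeff_C_mul, coeff_X_pow, coeff_X, coeff_C, coeff_zero] at c0 c1 c2 c3
  norm_num at c0 c1 c2 c3
  obtain ⟨T, hT⟩ : ∃ T : Set k, T = {a 0, a 1, a 2, a 3, a 4, u, v} := ⟨_, rfl⟩
  have hTc : T.encard ≤ 7 := by
    have h2 : ((({a 0, a 1, a 2, a 3, a 4, u, v} : Multiset k).toFinset : Finset k) : Set k) = T := by
      rw [hT]; ext z; simp
    rw [← h2, Set.encard_coe_eq_coe_finsetCard]
    have h3 := Multiset.toFinset_card_le ({a 0, a 1, a 2, a 3, a 4, u, v} : Multiset k)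
    have h4 : Multiset.card ({a 0, a 1, a 2, a 3, a 4, u, v} : Multiset k) = 7 := by simp
    rw [h4] at h3
    exact_mod_cast h3
  have hm : ∀ z ∈ T, z ∈ aclF F T := fun z hz => subset_acl T hz
  have m0 : a 0 ∈ aclF F T := hm _ (by rw [hT]; simp)
  have m1 : a 1 ∈ aclF F T := hm _ (by rw [hT]; simp)
  have m2 : a 2 ∈ aclF F T := hm _ (by rw [hT]; simp)
  have m3 : a 3 ∈ aclF F T := hm _ (by rw [hT]; simp)
  have m4 : a 4 ∈ aclF F T := hm _ (by rw [hT]; simp)
  have mu : u ∈ aclF F T := hm _ (by rw [hT]; simp)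
  have mv : v ∈ aclF F T := hm _ (by rw [hT]; simp)
  have n2 : (2 : k) ∈ aclF F T := by
    have := natCast_mem (aclF F T) 2
    exact_mod_cast this
  have n3 : (3 : k) ∈ aclF F T := by
    have := natCast_mem (aclF F T) 3
    exact_mod_cast this
  have m5 : a 5 ∈ aclF F T := by
    have e : a 5 = -(v ^ 3 + a 0 * v ^ 2 + a 2 * v) := by linear_combination c0
    rw [e]
    exact neg_mem (add_mem (add_mem (pow_mem mv 3) (mul_mem m0 (pow_mem mv 2))) (mul_mem m2 mv))
  have m6 : a 6 ∈ aclF F T := by
    have e : a 6 = -(3 * u * v ^ 2 + 2 * a 0 * u * v + a 1 * v ^ 2 + a 2 * u + a 3 * v) := by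
      linear_combination c1
    rw [e]
    exact neg_mem (add_mem (add_mem (add_mem (add_mem
      (mul_mem (mul_mem n3 mu) (pow_mem mv 2)) (mul_mem (mul_mem (mul_mem n2 m0) mu) mv))
      (mul_mem m1 (pow_mem mv 2))) (mul_mem m2 mu)) (mul_mem m3 mv))
  have m7 : a 7 ∈ aclF F T := by
    have e : a 7 = -(3 * u ^ 2 * v + a 0 * u ^ 2 + 2 * a 1 * u * v + a 3 * u + a 4 * v) := by
      linear_combination c2
    rw [e]
    exact neg_mem (add_mem (add_mem (add_mem (add_mem
      (mul_mem (mul_mem n3 (pow_mem mu 2)) mv) (mul_mem m0 (pow_mem mu 2)))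
      (mul_mem (mul_mem (mul_mem n2 m1) mu) mv)) (mul_mem m3 mu)) (mul_mem m4 mv))
  have m8 : a 8 ∈ aclF F T := by
    have e : a 8 = -(u ^ 3 + a 1 * u ^ 2 + a 4 * u) := by linear_combination c3
    rw [e]
    exact neg_mem (add_mem (add_mem (pow_mem mu 3) (mul_mem m1 (pow_mem mu 2))) (mul_mem m4 mu))
  have h5 := card_le_of_subset ha (T := T) (m := 7) hTc (by
    intro i
    fin_cases i
    · exact m0
    · exact m1
    · exact m2
    · exact m3
    · exact m4
    · exact m5
    · exact m6
    · exact m7
    · exact m8)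
  simp at h5

end Pool.Agent.KS6_83.NC
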