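import Pool.Agent.KS6_83.NC.Ineq
import Pool.Graph.R_seed8.H519R3.AC.Wald

set_option autoImplicit false
set_option linter.unusedSectionVars false
set_option linter.unusedVariables false

/-!
# The Waldschmidt constant of points with some points on a cubic
-/

namespace Pool.Agent.KS6_83.NC

open MvPolynomial Filter Topology Pool.Agent.H932R5 Pool.Agent.H519R3.AC

universe u

/-- the constant -/
noncomputable def Ec (p q : ℕ) : ℝ :=
  if (p : ℝ) ≤ 3 * Real.sqrt ((p : ℝ) + q) then Real.sqrt ((p : ℝ) + q)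
  else 3 + Real.sqrt ((q : ℝ) * (p - 9) / p)

section

variable {k : Type u} [Field k] {p q : ℕ} {P : Fin (p + q) → Fin 2 → k}

theorem exists_vform {r : ℕ} (P : Fin r → Fin 2 → k) (w : Fin r → ℕ) (d : ℕ)
    (h : ∑ i, (w i + 1).choose 2 < (d + 2).choose 2) :
    ∃ F : MvPolynomial (Fin 3) k, F.IsHomogeneous d ∧ F ≠ 0 ∧
    ∀ i, F ∈ (Ideal.span {X 1 - C (P i 0) * X 0, X 2 - C (P i 1) * X 0} :
      Ideal (MvPolynomial (Fin 3) k)) ^ (w i) := by
  have h1 := finrank_ge (E := 1) d w P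
  have h2 : Vd (E := 1) d w P ≠ ⊥ := by
    intro h0
    rw [h0, finrank_bot] at h1
    exact absurd h1 (not_le.2 (by simpa using h))
  obtain ⟨F, hF, hF0⟩ := (Submodule.ne_bot_iff _).1 h2
  unfold Vd at hF
  rw [Submodule.mem_inf, mem_homogeneousSubmodule, Submodule.restrictScalars_mem,
    Ideal.mem_iInf] at hF
  refine ⟨F, hF.1, hF0, fun i => ?_⟩
  rw [← hI_plane]
  exact hF.2 i

/-- the numbers -/
theorem num_upper (h9 : 9 < p) (hq : 1 ≤ q) (hpq : 9 * (q : ℝ) ≤ p * (p - 9)) (m : ℕ) :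
    ∃ n d : ℕ, n ≤ m ∧ p * (n + 1).choose 2 + q * (m + 1).choose 2 < (d + 2).choose 2 ∧
      3 * ((m : ℝ) - n) + d ≤ (3 + Real.sqrt ((q : ℝ) * (p - 9) / p)) * m + (p + q + 6) := by
  have h9' : (0 : ℝ) < (p : ℝ) - 9 := by
    have : (9 : ℝ) < p := by exact_mod_cast h9
    linarith
  have hp0 : (0 : ℝ) < p := by linarith
  have hq1 : (1 : ℝ) ≤ q := by exact_mod_cast hq
  obtain ⟨s, hs⟩ : ∃ s, s = Real.sqrt ((q : ℝ) * (p - 9) / p) := ⟨_, rfl⟩
  have hs0 : 0 ≤ s := by rw [hs]; exact Real.sqrt_nonneg _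
  have hs2 : s ^ 2 * p = (q : ℝ) * (p - 9) := by
    rw [hs, Real.sq_sqrt (by positivity)]
    field_simp
  obtain ⟨a, ha⟩ : ∃ a, a = s / (p - 9) := ⟨_, rfl⟩
  have ha0 : 0 ≤ a := by rw [ha]; positivity
  have has : a * (p - 9) = s := by rw [ha]; field_simp
  have ha2 : a ^ 2 * (p * (p - 9)) = q := by
    have e : (a * (p - 9)) ^ 2 * p = (q : ℝ) * (p - 9) := by rw [has]; exact hs2
    have e2 : (a ^ 2 * (p * (p - 9))) * (p - 9) = (q : ℝ) * (p - 9) := by rw [← e]; ring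
    exact mul_right_cancel₀ h9'.ne' e2
  have hσ : 3 * a ≤ 1 := by
    have h1 : (3 * a) ^ 2 * (p * (p - 9)) ≤ 1 ^ 2 * (p * (p - 9)) := by
      have : (3 * a) ^ 2 * (p * (p - 9)) = 9 * (a ^ 2 * (p * (p - 9))) := by ring
      rw [this, ha2]
      linarith
    have h2 : (3 * a) ^ 2 ≤ 1 ^ 2 := le_of_mul_le_mul_right h1 (by positivity)
    exact le_of_pow_le_pow_left₀ two_ne_zero zero_le_one h2
  have hD1 : 1 ≤ a * p := by
    have h1 : 1 ^ 2 ≤ (a * p) ^ 2 := by
      have : (a * p) ^ 2 = a ^ 2 * (p * (p - 9)) + 9 * (a ^ 2 * p) := by ring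
      rw [this, ha2]
      have : 0 ≤ 9 * (a ^ 2 * p) := by positivity
      linarith
    exact le_of_pow_le_pow_left₀ two_ne_zero (by positivity) h1
  have hm0 : (0 : ℝ) ≤ m := Nat.cast_nonneg m
  obtain ⟨n, hn⟩ : ∃ n : ℕ, n = ⌈3 * a * m⌉₊ := ⟨_, rfl⟩
  have hn1 : 3 * a * m ≤ n := by rw [hn]; exact Nat.le_ceil _
  have hn2 : (n : ℝ) ≤ 3 * a * m + 1 := by
    rw [hn]; exact (Nat.ceil_lt_add_one (by positivity)).le
  have hn3 : n ≤ m := by
    rw [hn]
    apply Nat.ceil_le.2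
    have := mul_le_mul_of_nonneg_right hσ hm0
    linarith
  obtain ⟨e, he⟩ : ∃ e : ℕ, e = ⌈a * p * m⌉₊ := ⟨_, rfl⟩
  have he1 : a * p * m ≤ e := by rw [he]; exact Nat.le_ceil _
  have he2 : (e : ℝ) ≤ a * p * m + 1 := by
    rw [he]; exact (Nat.ceil_lt_add_one (by positivity)).le
  obtain ⟨d, hd⟩ : ∃ d : ℕ, d = e + (p + q + 5) := ⟨_, rfl⟩
  have hdR : (d : ℝ) = e + (p + q + 5) := by rw [hd]; push_cast; ring
  refine ⟨n, d, hn3, ?_, ?_⟩
  · have hcount : (p : ℝ) * (n * (n + 1)) + q * (m * (m + 1)) < (d + 2) * (d + 1) := by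
      have h1 : (n : ℝ) * (n + 1) ≤ (3 * a * m + 1) * (3 * a * m + 2) := by
        apply mul_le_mul hn2 (by linarith) (by positivity) (by positivity)
      have h2 : (p : ℝ) * (n * (n + 1)) ≤ p * ((3 * a * m + 1) * (3 * a * m + 2)) :=
        mul_le_mul_of_nonneg_left h1 hp0.le
      have h3 : (a * p * m + (p + q + 5)) ^ 2 < (d + 2) * (d + 1) := by
        have h4 : a * p * m + (p + q + 5) ≤ d := by rw [hdR]; linarith
        have h5 : (0 : ℝ) ≤ a * p * m + (p + q + 5) := by positivity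
        have h6 : (a * p * m + (p + q + 5)) ^ 2 ≤ (d : ℝ) ^ 2 := pow_le_pow_left₀ h5 h4 2
        have h7 : (0 : ℝ) ≤ d := Nat.cast_nonneg d
        have h8 : (d : ℝ) ^ 2 < (d + 2) * (d + 1) := by
          have : ((d : ℝ) + 2) * (d + 1) = (d : ℝ) ^ 2 + 3 * d + 2 := by ring
          rw [this]
          linarith
        exact lt_of_le_of_lt h6 h8
      have h6 : (a * p) ^ 2 = q + 9 * a ^ 2 * p := by
        have : (a * p) ^ 2 = a ^ 2 * (p * (p - 9)) + 9 * a ^ 2 * p := by ring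
        rw [this, ha2]
      have h7 : (a * p * m + (p + q + 5)) ^ 2 = (q + 9 * a ^ 2 * p) * m ^ 2 +
          2 * (a * p) * m * (p + q + 5) + (p + q + 5) ^ 2 := by
        rw [← h6]; ring
      have h8 : (q : ℝ) * m ≤ (a * p) * m * q := by
        have := mul_le_mul_of_nonneg_right hD1 (show (0 : ℝ) ≤ q * m by positivity)
        linarith
      have h9 : 0 ≤ (a * p) * m * (q + 2 * p + 1) := by positivity
      have h10 : (p : ℝ) * 2 ≤ (p + q + 5) ^ 2 := by
        have e1 : ((p : ℝ) + q + 5) ^ 2 = p ^ 2 + 2 * p * (q + 5) + (q + 5) ^ 2 := by ring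
        rw [e1]
        have e2 : 0 ≤ (p : ℝ) ^ 2 := by positivity
        have e3 : 0 ≤ ((q : ℝ) + 5) ^ 2 := by positivity
        have e4 : 0 ≤ (p : ℝ) * q := by positivity
        linarith
      rw [h7] at h3
      have h11 : (p : ℝ) * ((3 * a * m + 1) * (3 * a * m + 2)) =
        9 * a ^ 2 * p * m ^ 2 + 9 * (a * p * m) + p * 2 := by ring
      rw [h11] at h2
      have h12 : 2 * (a * p) * m * ((p : ℝ) + q + 5) =
        (a * p) * m * q + (a * p) * m * (q + 2 * p + 1) + 9 * (a * p * m) := by ring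
      rw [h12] at h3
      have h13 : (q : ℝ) * (m * (m + 1)) = q * m ^ 2 + q * m := by ring
      rw [h13]
      have h14 : ((q : ℝ) + 9 * a ^ 2 * p) * m ^ 2 = q * m ^ 2 + 9 * a ^ 2 * p * m ^ 2 := by ring
      rw [h14] at h3
      linarith
    have h1 : ((p * (n + 1).choose 2 + q * (m + 1).choose 2 : ℕ) : ℝ) <
        (((d + 2).choose 2 : ℕ) : ℝ) := by
      push_cast
      rw [Nat.cast_choose_two, Nat.cast_choose_two, Nat.cast_choose_two]
      push_cast
      have e1 : (p : ℝ) * ((n + 1) * (n + 1 - 1) / 2) + q * ((m + 1) * (m + 1 - 1) / 2) =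
        (p * (n * (n + 1)) + q * (m * (m + 1))) / 2 := by ring
      have e2 : ((d : ℝ) + 2) * (d + 2 - 1) / 2 = ((d + 2) * (d + 1)) / 2 := by ring
      rw [e1, e2]
      linarith
    exact_mod_cast h1
  · rw [← hs]
    have h3 : (3 + s) * m = 3 * m + a * (p - 9) * m := by rw [has]; ring
    rw [h3, hdR]
    have h4 : a * (p - 9) * m = a * p * m - 3 * (3 * a * m) := by ring
    rw [h4]
    linarith

theorem alp_upper (h9 : 9 < p) (hq : 1 ≤ q) (hpq : 9 * (q : ℝ) ≤ p * (p - 9))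
    {G : MvPolynomial (Fin 3) k} (hG : G.IsHomogeneous 3) (hG0 : G ≠ 0)
    (hGi : ∀ i : Fin (p + q), i.val < p →
        G ∈ (Ideal.span {X 1 - C (P i 0) * X 0, X 2 - C (P i 1) * X 0} :
          Ideal (MvPolynomial (Fin 3) k)) ^ 1) (m : ℕ) :
    (alp P m : ℝ) ≤ (3 + Real.sqrt ((q : ℝ) * (p - 9) / p)) * m + (p + q + 6) := by
  classical
  obtain ⟨n, d, hn3, hc, hb⟩ := num_upper h9 hq hpq m
  obtain ⟨w, hw⟩ : ∃ w : Fin (p + q) → ℕ, w = fun i => if i.val < p then n else m := ⟨_, rfl⟩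
  have hsum : ∑ i, (w i + 1).choose 2 = p * (n + 1).choose 2 + q * (m + 1).choose 2 := by
    rw [Fin.sum_univ_add]
    have e1 : ∀ i : Fin p, (w (Fin.castAdd q i) + 1).choose 2 = (n + 1).choose 2 := by
      intro i; rw [hw]; simp
    have e2 : ∀ j : Fin q, (w (Fin.natAdd p j) + 1).choose 2 = (m + 1).choose 2 := by
      intro j; rw [hw]; simp
    rw [Finset.sum_congr rfl fun i _ => e1 i, Finset.sum_congr rfl fun j _ => e2 j]
    simp
  obtain ⟨F, hF, hF0, hFi⟩ := exists_vform P w d (by rw [hsum]; exact hc)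
  have hform : HasForm P m (3 * (m - n) + d) := by
    refine ⟨G ^ (m - n) * F, ?_, mul_ne_zero (pow_ne_zero _ hG0) hF0, fun i => ?_⟩
    · exact (hG.pow _).mul hF
    · by_cases hi : i.val < p
      · have h1 := hFi i
        have h2 : w i = n := by rw [hw]; simp [hi]
        rw [h2] at h1
        have h3 := Ideal.pow_mem_pow (hGi i hi) (m - n)
        rw [← pow_mul, one_mul] at h3
        have h4 := Ideal.mul_mem_mul h3 h1
        rw [← pow_add, Nat.sub_add_cancel hn3] at h4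
        exact h4
      · have h1 := hFi i
        have h2 : w i = m := by rw [hw]; simp [hi]
        rw [h2] at h1
        exact Ideal.mul_mem_left _ _ h1
  have h1 := alp_le hform
  have h2 : (alp P m : ℝ) ≤ 3 * ((m : ℝ) - n) + d := by
    have : ((alp P m : ℕ) : ℝ) ≤ ((3 * (m - n) + d : ℕ) : ℝ) := by exact_mod_cast h1
    push_cast [Nat.cast_sub hn3] at this
    exact this
  exact h2.trans hb

end

end Pool.Agent.KS6_83.NC
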